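import Pool.Agent.K9h73.EX.T2

set_option autoImplicit false

/-!
A simple sufficient condition for the independence of the divisors.
-/

namespace Pool.Agent.K9h73.EX

/-- if no `f_i - k` is a rational multiple of an `f_j - l` with `j ≠ i` then the divisors are
independent -/
lemma ind_of_pairs {X ι : Type} [Fintype ι] {Ω : Set X} {f : ι → X → ℂ}
    (hf : ∀ i, ∀ q : ℚ, ¬ ∀ t ∈ Ω, f i t = q)
    (h : ∀ i j, i ≠ j → ∀ (k l : ℤ) (p : ℚ), ¬ ∀ t ∈ Ω, f i t - k = p * (f j t - l)) :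
    Ind Ω f := by
  intro a ha
  obtain ⟨j, hj⟩ := Function.ne_iff.1 ha
  refine ⟨j, 0, ?_⟩
  rw [Finset.sum_eq_single j]
  · rw [DD_val (hf j) (k := 0) (p := 1) (fun t _ => by push_cast; ring)]
    exact mul_ne_zero hj (sgq_ne 1)
  · intro i _ hij
    rw [DD_zero, mul_zero]
    rintro ⟨k, p, h1⟩
    exact h i j hij k 0 p h1
  · intro h1
    exact absurd (Finset.mem_univ j) h1

end Pool.Agent.K9h73.EX
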