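import Pool.Agent.K9h73.EX.Glob2

set_option autoImplicit false

/-!
The one-variable theorem with arbitrary exponents: the monomials in the `1 / Γ(y_i)` are linearly
independent over the ring of the sums `∑ c_s e^{w_s}` with algebraic functions `c_s`, `w_s`.
-/

namespace Pool.Agent.K9h73.EX

open Complex Pool.Agent.W175.GF

theorem oneD (ι S : Type) [Fintype ι] [Fintype S] (Ω : Set ℂ) (t₀ : ℂ → ℂ)
    (y : ι → ℂ → ℂ) (w : S → ℂ → ℂ) (N : Finset (ι → ℕ)) (c : (ι → ℕ) → S → ℂ → ℂ)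
    (hΩ : IsOpen Ω) (hΩc : IsPreconnected Ω) (hΩn : Ω.Nonempty)
    (ht₀ : DifferentiableOn ℂ t₀ Ω) (hy : ∀ i, DifferentiableOn ℂ (y i) Ω)
    (hw : ∀ j, DifferentiableOn ℂ (w j) Ω)
    (hc : ∀ k ∈ N, ∀ j, DifferentiableOn ℂ (c k j) Ω)
    (hnt₀ : ∀ v : ℂ, ¬ ∀ t ∈ Ω, t₀ t = v) (hny : ∀ i, ∀ v : ℂ, ¬ ∀ t ∈ Ω, y i t = v)
    (hAy : ∀ i, AlgDep Ω t₀ (y i)) (hAw : ∀ j, AlgDep Ω t₀ (w j))
    (hAc : ∀ k ∈ N, ∀ j, AlgDep Ω t₀ (c k j)) (hI : Ind Ω y)
    (hrel : ∀ t ∈ Ω, ∑ k ∈ N, (∑ s, c k s t * exp (w s t)) * ∏ i, (Gamma (y i t))⁻¹ ^ k i = 0) :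
    ∀ k ∈ N, ∀ t ∈ Ω, ∑ s, c k s t * exp (w s t) = 0 := by
  classical
  obtain ⟨t₁, ht₁⟩ := hΩn
  let R : Setoid S :=
    { r := fun s s' => ∃ v : ℂ, ∀ t ∈ Ω, w s t = w s' t + v
      iseqv := ⟨fun s => ⟨0, fun t _ => by ring⟩,
        fun {s s'} ⟨v, h⟩ => ⟨-v, fun t ht => by rw [h t ht]; ring⟩,
        fun {s s' s''} ⟨v, h⟩ ⟨v', h'⟩ => ⟨v' + v, fun t ht => by rw [h t ht, h' t ht]; ring⟩⟩ }
  let J : Type := Quotient R
  have : Fintype J := Quotient.fintype R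
  let rep : J → S := Quotient.out
  have hv : ∀ s : S, ∃ v : ℂ, ∀ t ∈ Ω, w s t = w (rep ⟦s⟧) t + v := fun s =>
    R.symm (Quotient.mk_out (s := R) s)
  choose v hv using hv
  have key := jgt2 ι J Ω t₀ y (fun j => w (rep j)) N
    (fun k j t => ∑ s ∈ Finset.univ.filter (fun s : S => (⟦s⟧ : J) = j), exp (v s) * c k s t)
    hΩ hΩc ⟨t₁, ht₁⟩ ht₀ hy (fun j => hw _) (fun k hk j => by
      apply DifferentiableOn.fun_sum
      intro s _
      exact (hc k hk s).const_mul _) hnt₀ hny hAy (fun j => hAw _) (fun k hk j =>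
        AlgDep.sum' _ _ fun s _ => AlgDep.mul' (AlgDep.const' _) (hAc k hk s)) hI (by
      intro j l hjl v' hcon
      apply hjl
      have h1 : R.r (rep j) (rep l) := ⟨v', fun t ht => by
        have := hcon t ht
        linear_combination this⟩
      rw [← Quotient.out_eq j, ← Quotient.out_eq l]
      exact Quotient.sound h1) (by
      intro t ht
      rw [← hrel t ht]
      apply Finset.sum_congr rfl
      intro k _
      congr 1
      rw [← Finset.sum_fiberwise_of_maps_to (s := Finset.univ) (t := Finset.univ)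
        (g := fun s : S => (⟦s⟧ : J)) (fun s _ => Finset.mem_univ _)]
      apply Finset.sum_congr rfl
      intro j _
      rw [Finset.sum_mul]
      apply Finset.sum_congr rfl
      intro s hs
      have hs2 := (Finset.mem_filter.1 hs).2
      rw [hv s t ht, exp_add, hs2]
      ring)
  intro k hk t ht
  rw [← Finset.sum_fiberwise_of_maps_to (s := Finset.univ) (t := Finset.univ)
    (g := fun s : S => (⟦s⟧ : J)) (fun s _ => Finset.mem_univ _)]
  apply Finset.sum_eq_zero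
  intro j _
  have h1 := key k hk j t ht
  have h2 : ∑ s ∈ Finset.univ.filter (fun s : S => (⟦s⟧ : J) = j), c k s t * exp (w s t) =
      (∑ s ∈ Finset.univ.filter (fun s : S => (⟦s⟧ : J) = j), exp (v s) * c k s t) *
        exp (w (rep j) t) := by
    rw [Finset.sum_mul]
    apply Finset.sum_congr rfl
    intro s hs
    have hs2 := (Finset.mem_filter.1 hs).2
    rw [hv s t ht, exp_add, hs2]
    ring
  rw [h2, h1, zero_mul]

end Pool.Agent.K9h73.EX
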