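import Pool.Agent.K9h73.EX.Nec5
import Pool.Agent.W505.GF.Good

set_option autoImplicit false

/-!
A nonzero exponential polynomial does not vanish identically at the values of a nonconstant analytic
function.
-/

namespace Pool.Agent.K9h73.EX

open Complex

lemma EE_ne {E : Type} [NormedAddCommGroup E] [NormedSpace ℂ E] {Ω : Set E}
    (hΩp : IsPreconnected Ω) {y : E → ℂ} (hy : ContinuousOn y Ω)
    (hnc : ∀ v : ℂ, ¬ ∀ t ∈ Ω, y t = v) {M : ℕ} (hM : 0 < M) {P Q : ℂ → ℂ} (hP : P ∈ EE)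
    (hQ : Q ∈ EE) (hP0 : P ≠ 0) (hQ0 : Q ≠ 0) : ∃ t ∈ Ω, P (y t / M) ≠ 0 ∧ Q (y t / M) ≠ 0 := by
  by_contra hcon
  push Not at hcon
  have hMc : (M : ℂ) ≠ 0 := by exact_mod_cast hM.ne'
  have hR0 := mul_ne (EE_diff hP) (EE_diff hQ) hP0 hQ0
  have hcount : {s | s ∈ (Set.univ : Set ℂ) ∧ (P * Q) s = 0}.Countable := by
    apply Pool.Agent.W505.GF.countable_zeros isOpen_univ isPreconnected_univ
      ((EE_diff hP).mul (EE_diff hQ)).differentiableOn
    intro h
    exact hR0 (funext fun s => h s (Set.mem_univ s))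
  have hsub : (fun t => y t / M) '' Ω ⊆ {s | s ∈ (Set.univ : Set ℂ) ∧ (P * Q) s = 0} := by
    rintro _ ⟨t, ht, rfl⟩
    refine ⟨Set.mem_univ _, ?_⟩
    simp only [Pi.mul_apply]
    by_cases h1 : P (y t / M) = 0
    · rw [h1, zero_mul]
    · rw [hcon t ht h1, mul_zero]
  have hconn : IsPreconnected ((fun t => y t / M) '' Ω) := hΩp.image _ (hy.div_const _)
  have hss := hcount.isTotallyDisconnected _ hsub hconn
  obtain ⟨t₀, ht₀⟩ : Ω.Nonempty := by
    by_contra hne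
    rw [Set.not_nonempty_iff_eq_empty] at hne
    apply hnc 0
    rw [hne]
    intro t ht
    exact absurd ht (Set.notMem_empty _)
  apply hnc (y t₀)
  intro t ht
  have h1 := hss ⟨t, ht, rfl⟩ ⟨t₀, ht₀, rfl⟩
  simp only at h1
  exact (div_left_inj' hMc).1 h1

end Pool.Agent.K9h73.EX
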