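import Pool.Agent.K9h73.EX.Full1
import Pool.Agent.K9h73.EX.Sev
import Pool.Agent.K9h73.EX.Nec6

/-!
The complete theorem in several variables: the values of `Γ` at nonconstant algebraic functions are
algebraically independent over the sums `∑ c_s e^{w_s}`, with algebraic functions `c_s`, `w_s`, if
and only if the divisors are independent.
-/

set_option autoImplicit false

namespace Pool.Agent.K9h73.EX

open Complex Pool.Agent.W175.GF Topology
open Pool.Agent.W253.GF (exists_generic poly_ne exists_dir res eval_res)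

variable {d : ℕ} {Ω : Set (Fin d → ℂ)}

/-- `f` is an algebraic function on the open set `Ω` of `ℂ ^ d`: it is analytic and satisfies a
nontrivial polynomial equation over `ℂ[t_1, …, t_d]`. -/
def AlgFun (Ω : Set (Fin d → ℂ)) (f : (Fin d → ℂ) → ℂ) : Prop :=
  AnalyticOnNhd ℂ f Ω ∧ ∃ Q : Polynomial (MvPolynomial (Fin d) ℂ), Q ≠ 0 ∧
    ∀ t ∈ Ω, (Q.map (MvPolynomial.eval t)).eval (f t) = 0

/-- `E` is a finite sum `∑ c_s e^{w_s}` with algebraic functions `c_s` and `w_s`. -/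
def ExpAlg (Ω : Set (Fin d → ℂ)) (E : (Fin d → ℂ) → ℂ) : Prop :=
  ∃ (S : Type) (_ : Fintype S) (c w : S → (Fin d → ℂ) → ℂ), (∀ s, AlgFun Ω (c s)) ∧
    (∀ s, AlgFun Ω (w s)) ∧ ∀ t ∈ Ω, E t = ∑ s, c s t * exp (w s t)

theorem full {n : ℕ} (y : Fin n → (Fin d → ℂ) → ℂ)
    (hΩo : IsOpen Ω) (hΩp : IsPreconnected Ω) (hΩn : Ω.Nonempty)
    (hy : ∀ i, AlgFun Ω (y i)) (hnc : ∀ i, ∀ v : ℂ, ¬ ∀ t ∈ Ω, y i t = v) (hind : Ind Ω y)
    (N : Finset (Fin n → ℕ)) (E : (Fin n → ℕ) → (Fin d → ℂ) → ℂ)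
    (hE : ∀ k ∈ N, ExpAlg Ω (E k))
    (hrel : ∀ t ∈ Ω, ∑ k ∈ N, E k t * ∏ i, (Gamma (y i t))⁻¹ ^ k i = 0) :
    ∀ k ∈ N, ∀ t ∈ Ω, E k t = 0 := by
  classical
  by_contra hcon
  push Not at hcon
  obtain ⟨k₀, hk₀, ts, hts, hne⟩ := hcon
  have hE' : ∀ k : {k // k ∈ N}, ∃ (S : Type) (_ : Fintype S) (c w : S → (Fin d → ℂ) → ℂ),
      (∀ s, AlgFun Ω (c s)) ∧ (∀ s, AlgFun Ω (w s)) ∧
      ∀ t ∈ Ω, E k.1 t = ∑ s, c s t * exp (w s t) := fun k => hE k.1 k.2
  choose l hl c w hc hw hEe using hE'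
  let S : Type := Σ k : {k // k ∈ N}, l k
  let w' : S → (Fin d → ℂ) → ℂ := fun s => w s.1 s.2
  let c' : (Fin n → ℕ) → S → (Fin d → ℂ) → ℂ := fun k s =>
    if s.1.1 = k then c s.1 s.2 else fun _ => 0
  have hsum : ∀ k : {k // k ∈ N}, ∀ t ∈ Ω, ∑ s, c' k.1 s t * exp (w' s t) = E k.1 t := by
    intro k t ht
    rw [hEe k t ht, Fintype.sum_sigma]
    rw [Finset.sum_eq_single k]
    · apply Finset.sum_congr rfl
      intro s _
      simp only [c', w', if_true]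
    · intro k' _ hk'
      apply Finset.sum_eq_zero
      intro s _
      have : ¬ k'.1 = k.1 := fun h => hk' (Subtype.ext h)
      simp only [c', if_neg this, zero_mul]
    · intro h
      exact absurd (Finset.mem_univ k) h
  have hEan : AnalyticOnNhd ℂ (fun t => ∑ s, c ⟨k₀, hk₀⟩ s t * exp (w ⟨k₀, hk₀⟩ s t)) Ω := by
    apply Finset.analyticOnNhd_fun_sum
    intro s _
    exact (hc _ s).1.mul (fun t ht => ((hw _ s).1 t ht).cexp)
  obtain ⟨v, hv⟩ := exists_dir' hΩo hΩp y (fun i => (hy i).1) hnc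
  have hQ := fun i => (hy i).2
  have hQw := fun s : S => (hw s.1 s.2).2
  have hQc := fun s : S => (hc s.1 s.2).2
  choose Q hQ0 hQe using hQ
  choose Q' hQ'0 hQ'e using hQw
  choose Q'' hQ''0 hQ''e using hQc
  have hcoef : ∀ P : Polynomial (MvPolynomial (Fin d) ℂ), P ≠ 0 → ∃ m, P.coeff m ≠ 0 := by
    intro P hP
    by_contra hc
    push Not at hc
    exact hP (Polynomial.ext (fun m => by rw [hc m, Polynomial.coeff_zero]))
  choose qm hqm using fun i => hcoef (Q i) (hQ0 i)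
  choose qm' hqm' using fun i => hcoef (Q' i) (hQ'0 i)
  choose qm'' hqm'' using fun i => hcoef (Q'' i) (hQ''0 i)
  -- generic point
  let H : Set ((Fin d → ℂ) → ℂ) :=
    Set.range (fun i : Fin n => fun t => fderiv ℂ (y i) t v) ∪
    (Set.range (fun z : {z : (Fin n × Fin n) × (ℤ × ℤ) × ℚ // ¬ ∀ t ∈ Ω,
        y z.1.1 t - z.2.1.1 = z.2.2 * (y z.1.2 t - z.2.1.2)} => fun t =>
      (y z.1.1.1 t - z.1.2.1.1) - (z.1.2.2 * (y z.1.1.2 t - z.1.2.1.2))) ∪
    ({fun t => ∑ s, c ⟨k₀, hk₀⟩ s t * exp (w ⟨k₀, hk₀⟩ s t)} ∪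
    (Set.range (fun i : Fin n => fun t => MvPolynomial.eval t ((Q i).coeff (qm i))) ∪
    (Set.range (fun j : S => fun t => MvPolynomial.eval t ((Q' j).coeff (qm' j))) ∪
    Set.range (fun j : S => fun t => MvPolynomial.eval t ((Q'' j).coeff (qm'' j)))))))
  have hHc : H.Countable :=
    (Set.countable_range _).union ((Set.countable_range _).union
      ((Set.countable_singleton _).union ((Set.countable_range _).union
        ((Set.countable_range _).union (Set.countable_range _)))))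
  have hpoly : ∀ p : MvPolynomial (Fin d) ℂ,
      AnalyticOnNhd ℂ (fun t : Fin d → ℂ => MvPolynomial.eval t p) Ω := fun p =>
    (AnalyticOnNhd.eval_mvPolynomial p).mono (Set.subset_univ _)
  obtain ⟨t0, ht0Ω, ht0⟩ := exists_generic hΩo hΩp hΩn H hHc (by
    rintro h (⟨i, rfl⟩ | ⟨z, rfl⟩ | rfl | ⟨i, rfl⟩ | ⟨j, rfl⟩ | ⟨j, rfl⟩)
    · exact (ContinuousLinearMap.apply ℂ ℂ v).comp_analyticOnNhd (hy i).1.fderiv
    · exact ((hy _).1.sub analyticOnNhd_const).sub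
        (analyticOnNhd_const.mul ((hy _).1.sub analyticOnNhd_const))
    · exact hEan
    · exact hpoly _
    · exact hpoly _
    · exact hpoly _) (by
    rintro h (⟨i, rfl⟩ | ⟨z, rfl⟩ | rfl | ⟨i, rfl⟩ | ⟨j, rfl⟩ | ⟨j, rfl⟩)
    · exact hv i
    · have h1 := z.2
      push Not at h1
      obtain ⟨t, ht, ht2⟩ := h1
      exact ⟨t, ht, sub_ne_zero.2 ht2⟩
    · refine ⟨ts, hts, ?_⟩
      have h1 := hEe ⟨k₀, hk₀⟩ ts hts
      simp only at h1 ⊢
      rw [← h1]
      exact hne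
    · exact poly_ne hΩo hΩn _ (hqm i)
    · exact poly_ne hΩo hΩn _ (hqm' j)
    · exact poly_ne hΩo hΩn _ (hqm'' j))
  have g1 : ∀ i, fderiv ℂ (y i) t0 v ≠ 0 := fun i => ht0 _ (Or.inl ⟨i, rfl⟩)
  have g2 : ∀ (i j : Fin n) (k k' : ℤ) (p : ℚ), y i t0 - k = p * (y j t0 - k') →
      ∀ t ∈ Ω, y i t - k = p * (y j t - k') := by
    intro i j k k' p h1
    by_contra h2
    have := ht0 _ (Or.inr (Or.inl ⟨⟨((i, j), (k, k'), p), h2⟩, rfl⟩))
    exact this (sub_eq_zero.2 h1)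
  have g4 : ∑ s, c ⟨k₀, hk₀⟩ s t0 * exp (w ⟨k₀, hk₀⟩ s t0) ≠ 0 :=
    ht0 _ (Or.inr (Or.inr (Or.inl rfl)))
  have g5 : ∀ i, MvPolynomial.eval t0 ((Q i).coeff (qm i)) ≠ 0 := fun i =>
    ht0 _ (Or.inr (Or.inr (Or.inr (Or.inl ⟨i, rfl⟩))))
  have g6 : ∀ j, MvPolynomial.eval t0 ((Q' j).coeff (qm' j)) ≠ 0 := fun j =>
    ht0 _ (Or.inr (Or.inr (Or.inr (Or.inr (Or.inl ⟨j, rfl⟩)))))
  have g7 : ∀ j, MvPolynomial.eval t0 ((Q'' j).coeff (qm'' j)) ≠ 0 := fun j =>
    ht0 _ (Or.inr (Or.inr (Or.inr (Or.inr (Or.inr ⟨j, rfl⟩)))))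
  -- the line
  have hℓd : Differentiable ℂ (fun u : ℂ => t0 + u • v) := by
    intro u
    exact (differentiableAt_id.smul_const v).const_add t0
  have hnear : ∀ᶠ u in 𝓝 (0 : ℂ), t0 + u • v ∈ Ω :=
    hℓd.continuous.continuousAt.preimage_mem_nhds (hΩo.mem_nhds (by
      rw [zero_smul, add_zero]; exact ht0Ω))
  obtain ⟨r, hr0, hBΩ⟩ := Metric.eventually_nhds_iff_ball.1 hnear
  set B : Set ℂ := Metric.ball 0 r with hBdef
  have h0B : (0 : ℂ) ∈ B := Metric.mem_ball_self hr0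
  have hcompd : ∀ f : (Fin d → ℂ) → ℂ, AnalyticOnNhd ℂ f Ω →
      DifferentiableOn ℂ (fun u : ℂ => f (t0 + u • v)) B := by
    intro f hf u hu
    exact ((hf _ (hBΩ u hu)).differentiableAt.comp u (hℓd u)).differentiableWithinAt
  have key := oneD (Fin n) S B id (fun i u => y i (t0 + u • v)) (fun s u => w' s (t0 + u • v)) N
    (fun k s u => c' k s (t0 + u • v))
    Metric.isOpen_ball (convex_ball 0 r).isPreconnected ⟨0, h0B⟩ differentiableOn_id
    (fun i => hcompd _ (hy i).1) (fun s => hcompd _ (hw s.1 s.2).1) (by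
      intro k _ s
      simp only [c']
      split_ifs
      · exact hcompd _ (hc s.1 s.2).1
      · exact differentiableOn_const 0) (by
      intro x hx
      have h1 := hx 0 h0B
      have h2 := hx ((r / 2 : ℝ) : ℂ) (by
        rw [hBdef, Metric.mem_ball, dist_zero_right, Complex.norm_real, Real.norm_eq_abs,
          abs_of_pos (by linarith)]
        linarith)
      rw [← h1] at h2
      have h3 : ((r / 2 : ℝ) : ℂ) = 0 := h2
      rw [Complex.ofReal_eq_zero] at h3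
      linarith) (fun i x => nonconst_line ((hy i).1 t0 ht0Ω) (g1 i) hr0 x)
    (fun i => algDep_line (g5 i) (hQe i) hBΩ)
    (fun s => algDep_line (g6 s) (hQ'e s) hBΩ) (by
      intro k _ s
      simp only [c']
      split_ifs
      · exact algDep_line (g7 s) (hQ''e s) hBΩ
      · exact AlgDep.const' 0) (by
      refine hind.pattern ?_
      intro i j k k' p
      constructor
      · intro h u hu
        exact h _ (hBΩ u hu)
      · intro h
        have h1 := h 0 h0B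
        simp only [zero_smul, add_zero] at h1
        exact g2 i j k k' p h1) (by
      intro u hu
      rw [← hrel (t0 + u • v) (hBΩ u hu)]
      apply Finset.sum_congr rfl
      intro k hk
      rw [← hsum ⟨k, hk⟩ _ (hBΩ u hu)])
  have h1 := key k₀ hk₀ 0 h0B
  apply g4
  rw [← hEe ⟨k₀, hk₀⟩ t0 ht0Ω, ← hsum ⟨k₀, hk₀⟩ t0 ht0Ω]
  simp only [zero_smul, add_zero] at h1
  exact h1

end Pool.Agent.K9h73.EX
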