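import Pool.Agent.K9h73.EX.Nec4

set_option autoImplicit false

/-!
If the divisors are dependent then there is a multiplicative relation between the values of the Gamma
function, modulo exponential polynomials.
-/

namespace Pool.Agent.K9h73.EX

open Complex Finset

theorem nec {X ι : Type} [Fintype ι] {Ω : Set X} {f : ι → X → ℂ}
    (hf : ∀ i, ∀ q : ℚ, ¬ ∀ t ∈ Ω, f i t = q) (h : ¬ Ind Ω f) :
    ∃ a : ι → ℤ, a ≠ 0 ∧ ∃ (i₀ : ι) (M : ℕ), 0 < M ∧ ∃ P ∈ EE, ∃ Q ∈ EE, P ≠ 0 ∧ Q ≠ 0 ∧
      ∀ t ∈ Ω, P (f i₀ t / M) * ∏ i, (Gamma (f i t))⁻¹ ^ (a i).toNat =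
        Q (f i₀ t / M) * ∏ i, (Gamma (f i t))⁻¹ ^ (-a i).toNat := by
  classical
  unfold Ind at h
  push Not at h
  obtain ⟨a, ha, h⟩ := h
  obtain ⟨i₀, hi₀⟩ := Function.ne_iff.1 ha
  -- the class of `f i₀`
  set cl : ι → Prop := fun i => ∃ p q : ℚ, ∀ t ∈ Ω, f i t = p * f i₀ t + q with hcl
  have hpq : ∀ i, ∃ p q : ℚ, cl i → ∀ t ∈ Ω, f i t = p * f i₀ t + q := by
    intro i
    by_cases hi : cl i
    · obtain ⟨p, q, h1⟩ := hi
      exact ⟨p, q, fun _ => h1⟩
    · exact ⟨0, 0, fun h1 => absurd h1 hi⟩
  choose p q hpq using hpq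
  have hp0 : ∀ i, cl i → p i ≠ 0 := by
    intro i hi h0
    apply hf i (q i)
    intro t ht
    rw [hpq i hi t ht, h0]
    push_cast
    ring
  set M : ℕ := ∏ i, (p i).den with hM
  have hM0 : 0 < M := Finset.prod_pos fun i _ => (p i).den_pos
  have hMc : (M : ℂ) ≠ 0 := by exact_mod_cast hM0.ne'
  have hMq : (M : ℚ) ≠ 0 := by exact_mod_cast hM0.ne'
  have hmi : ∀ i, ∃ y : ℤ, (p i) * M = y := by
    intro i
    obtain ⟨c, hc⟩ := Finset.dvd_prod_of_mem (fun i => (p i).den) (Finset.mem_univ i)
    refine ⟨(p i).num * c, ?_⟩
    rw [hM, hc]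
    push_cast
    rw [← mul_assoc, Rat.mul_den_eq_num]
  choose y hy using hmi
  set m : ι → ℤ := fun i => if cl i then y i else 1 with hm
  set q' : ι → ℚ := fun i => if cl i then q i else 0 with hq'
  set a' : ι → ℤ := fun i => if cl i then a i else 0 with ha'
  have hm0 : ∀ i, m i ≠ 0 := by
    intro i
    simp only [hm]
    split_ifs with hi
    · intro h0
      have h1 := hy i
      rw [h0] at h1
      push_cast at h1
      exact (mul_ne_zero (hp0 i hi) hMq) h1
    · exact one_ne_zero
  have hfi : ∀ i, cl i → ∀ t ∈ Ω, f i t = m i * (f i₀ t / M) + q' i := by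
    intro i hi t ht
    have h1 : (m i : ℂ) = p i * M := by
      simp only [hm, if_pos hi]
      exact_mod_cast (congrArg (fun x : ℚ => (x : ℂ)) (hy i)).symm
    have h2 : q' i = q i := by simp only [hq', if_pos hi]
    rw [h1, h2, hpq i hi t ht]
    field_simp
  have hci₀ : cl i₀ := ⟨1, 0, fun t _ => by push_cast; ring⟩
  have ha'0 : a' ≠ 0 := by
    intro h0
    have h1 := congrFun h0 i₀
    simp only [ha', if_pos hci₀] at h1
    exact hi₀ h1
  have hkey : ∀ r : ℚ, ∑ i, a' i * cj (m i) (q' i) r = 0 := by
    intro r
    by_cases hex : ∃ i₁, cl i₁ ∧ ∃ k : ℤ, (m i₁ : ℚ) * r = q' i₁ + k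
    · obtain ⟨i₁, hi₁, k₁, hk₁⟩ := hex
      have h1 := h i₁ (-k₁)
      have hm1 : (m i₁ : ℚ) ≠ 0 := by exact_mod_cast hm0 i₁
      have hm1c : (m i₁ : ℂ) ≠ 0 := by exact_mod_cast hm0 i₁
      have hv : ∀ t ∈ Ω, f i₁ t - ((-k₁ : ℤ) : ℂ) = m i₁ * (f i₀ t / M + r) := by
        intro t ht
        have h2 : (m i₁ : ℂ) * r = q' i₁ + k₁ := by
          exact_mod_cast congrArg (fun x : ℚ => (x : ℂ)) hk₁
        rw [hfi i₁ hi₁ t ht]
        push_cast
        linear_combination -h2
      have h2 : ∀ i, a i * DD Ω (f i) (fun t => f i₁ t - ((-k₁ : ℤ) : ℂ)) =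
          sgq (m i₁ : ℚ) * (a' i * cj (m i) (q' i) r) := by
        intro i
        by_cases hi : cl i
        · have e1 : a' i = a i := by simp only [ha', if_pos hi]
          rw [e1]
          by_cases hk : ∃ k : ℤ, (m i : ℚ) * r = q' i + k
          · obtain ⟨k, hk⟩ := hk
            have e2 : cj (m i) (q' i) r = sgq (m i : ℚ) := by
              unfold cj
              rw [if_pos ⟨k, hk⟩]
            have hmi0 : (m i : ℚ) ≠ 0 := by exact_mod_cast hm0 i
            have e3 : DD Ω (f i) (fun t => f i₁ t - ((-k₁ : ℤ) : ℂ)) =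
                sgq ((m i : ℚ) / m i₁) := by
              apply DD_val (hf i) (k := -k)
              intro t ht
              rw [hv t ht, hfi i hi t ht]
              have h3 : (m i : ℂ) * r = q' i + k := by
                exact_mod_cast congrArg (fun x : ℚ => (x : ℂ)) hk
              push_cast
              field_simp
              linear_combination -(M : ℂ) * h3
            rw [e2, e3, sgq_div hmi0 hm1]
            ring
          · have e2 : cj (m i) (q' i) r = 0 := by
              unfold cj
              rw [if_neg hk]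
            rw [e2, DD_zero]
            · ring
            · rintro ⟨k, p', h3⟩
              apply hk
              -- uniqueness of the relation
              have h4 : ∀ t ∈ Ω, (m i : ℂ) * (f i₀ t / M) + q' i - k =
                  p' * (m i₁ * (f i₀ t / M + r)) := by
                intro t ht
                have := h3 t ht
                rw [hv t ht, hfi i hi t ht] at this
                exact this
              have h5 : (m i : ℚ) = p' * m i₁ := by
                by_contra hne
                have hd : ((m i : ℚ) - p' * m i₁) ≠ 0 := sub_ne_zero.2 hne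
                have hdc : ((m i : ℂ) - p' * m i₁) ≠ 0 := by
                  have : (((m i : ℚ) - p' * m i₁ : ℚ) : ℂ) ≠ 0 := by exact_mod_cast hd
                  push_cast at this
                  exact this
                apply hf i₀ (M * ((p' * (m i₁ * r) - q' i + k) / ((m i : ℚ) - p' * m i₁)))
                intro t ht
                have h6 := h4 t ht
                push_cast
                have h7 : f i₀ t / M = (p' * (m i₁ * r) - q' i + k) / ((m i : ℂ) - p' * m i₁) := by
                  rw [eq_div_iff hdc]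
                  linear_combination h6
                rw [← h7]
                field_simp
              obtain ⟨t, ht⟩ : Ω.Nonempty := by
                by_contra hne
                rw [Set.not_nonempty_iff_eq_empty] at hne
                apply hf i₀ 0
                rw [hne]
                intro t ht
                exact absurd ht (Set.notMem_empty _)
              have h6 := h4 t ht
              have h7 : (m i : ℂ) = p' * m i₁ := by
                exact_mod_cast congrArg (fun x : ℚ => (x : ℂ)) h5
              have h8 : (m i : ℂ) * r = q' i + ((-k : ℤ) : ℂ) := by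
                push_cast
                linear_combination -h6 + (f i₀ t / M + r) * h7
              refine ⟨-k, ?_⟩
              exact_mod_cast h8
        · have e1 : a' i = 0 := by simp only [ha', if_neg hi]
          rw [e1, DD_zero]
          · ring
          · rintro ⟨k, p', h3⟩
            apply hi
            refine ⟨p' * m i₁ / M, p' * (m i₁ * r) + k, ?_⟩
            intro t ht
            have h4 := h3 t ht
            rw [hv t ht] at h4
            push_cast
            linear_combination h4
      rw [Finset.sum_congr rfl (fun i _ => h2 i), ← Finset.mul_sum] at h1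
      exact (mul_eq_zero.1 h1).resolve_left (sgq_ne _)
    · push Not at hex
      apply Finset.sum_eq_zero
      intro i _
      by_cases hi : cl i
      · have : cj (m i) (q' i) r = 0 := by
          unfold cj
          rw [if_neg]
          rintro ⟨k, hk⟩
          exact hex i hi k hk
        rw [this, mul_zero]
      · have : a' i = 0 := by simp only [ha', if_neg hi]
        rw [this, zero_mul]
  obtain ⟨P, hP, Q, hQ, hP0, hQ0, hrel⟩ := nec_core m q' hm0 a' hkey
  refine ⟨a', ha'0, i₀, M, hM0, P, hP, Q, hQ, hP0, hQ0, fun t ht => ?_⟩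
  have h1 := hrel (f i₀ t / M)
  have h2 : ∀ (b : ℤ → ℕ), b 0 = 0 → ∏ i, (Gamma (f i t))⁻¹ ^ b (a' i) =
      ∏ i, (Gamma (m i * (f i₀ t / M) + q' i))⁻¹ ^ b (a' i) := by
    intro b hb
    apply Finset.prod_congr rfl
    intro i _
    by_cases hi : cl i
    · rw [hfi i hi t ht]
    · have : a' i = 0 := by simp only [ha', if_neg hi]
      rw [this, hb, pow_zero, pow_zero]
  rw [h2 Int.toNat rfl, h2 (fun x => (-x).toNat) rfl]
  exact h1

end Pool.Agent.K9h73.EX
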