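import Pool.Agent.K9h73.EX.Full2
import Pool.Agent.K9h73.EX.Nec5

/-!
The functions `∑ c_s e^{w_s}` with algebraic `c_s`, `w_s` form a ring; equivalence of three
conditions: independence of the divisors, algebraic independence, multiplicative independence.
-/

set_option autoImplicit false

namespace Pool.Agent.K9h73.EX

open Complex

variable {d : ℕ} {Ω : Set (Fin d → ℂ)}

/-- the functions on `Ω` as an algebra over the polynomials -/
noncomputable def algPol (Ω : Set (Fin d → ℂ)) : Algebra (MvPolynomial (Fin d) ℂ) (Ω → ℂ) :=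
  (MvPolynomial.aeval (R := ℂ) (fun (i : Fin d) (t : Ω) => t.1 i)).toRingHom.toAlgebra

theorem mvaeval_apply (p : MvPolynomial (Fin d) ℂ) (t : Ω) :
    (MvPolynomial.aeval (R := ℂ) (fun (i : Fin d) (t : Ω) => t.1 i) p) t =
      MvPolynomial.eval t.1 p := by
  have h : ((Pi.evalRingHom (fun _ : Ω => ℂ) t).comp
      (MvPolynomial.aeval (R := ℂ) (fun (i : Fin d) (t : Ω) => t.1 i)).toRingHom) =
      MvPolynomial.eval t.1 := by
    apply MvPolynomial.ringHom_ext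
    · intro c
      simp
    · intro i
      simp
  exact congrArg (fun φ : MvPolynomial (Fin d) ℂ →+* ℂ => φ p) h

/-- a nontrivial polynomial equation -/
def AlgEq (Ω : Set (Fin d → ℂ)) (f : (Fin d → ℂ) → ℂ) : Prop :=
  ∃ Q : Polynomial (MvPolynomial (Fin d) ℂ), Q ≠ 0 ∧
    ∀ t ∈ Ω, (Q.map (MvPolynomial.eval t)).eval (f t) = 0

theorem algEq_iff {f : (Fin d → ℂ) → ℂ} : AlgEq Ω f ↔
    (letI := algPol Ω; IsAlgebraic (MvPolynomial (Fin d) ℂ) (fun t : Ω => f t)) := by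
  letI := algPol Ω
  have key : ∀ (Q : Polynomial (MvPolynomial (Fin d) ℂ)) (t : Ω),
      (Polynomial.aeval (fun t : Ω => f t) Q) t = (Q.map (MvPolynomial.eval t.1)).eval (f t) := by
    intro Q t
    have h : ((Pi.evalRingHom (fun _ : Ω => ℂ) t).comp
        (Polynomial.aeval (R := MvPolynomial (Fin d) ℂ) (fun t : Ω => f t)).toRingHom) =
        Polynomial.eval₂RingHom (MvPolynomial.eval t.1) (f t) := by
      apply Polynomial.ringHom_ext
      · intro p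
        have e1 : (algebraMap (MvPolynomial (Fin d) ℂ) (Ω → ℂ) p) t = MvPolynomial.eval t.1 p :=
          mvaeval_apply p t
        simp [e1]
      · simp
    have h2 := congrArg (fun φ : Polynomial (MvPolynomial (Fin d) ℂ) →+* ℂ => φ Q) h
    rw [Polynomial.eval_map]
    exact h2
  constructor
  · rintro ⟨Q, hQ, h⟩
    exact ⟨Q, hQ, funext fun t => by rw [key]; exact h t t.2⟩
  · rintro ⟨Q, hQ, h⟩
    exact ⟨Q, hQ, fun t ht => by rw [← key Q ⟨t, ht⟩, h]; rfl⟩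

theorem AlgFun.add {f g : (Fin d → ℂ) → ℂ} (hf : AlgFun Ω f) (hg : AlgFun Ω g) :
    AlgFun Ω (fun t => f t + g t) := by
  refine ⟨hf.1.add hg.1, ?_⟩
  have h1 : AlgEq Ω f := hf.2
  have h2 : AlgEq Ω g := hg.2
  change AlgEq Ω _
  letI := algPol Ω
  rw [algEq_iff] at h1 h2 ⊢
  exact IsAlgebraic.add h1 h2

theorem AlgFun.mul {f g : (Fin d → ℂ) → ℂ} (hf : AlgFun Ω f) (hg : AlgFun Ω g) :
    AlgFun Ω (fun t => f t * g t) := by
  refine ⟨hf.1.mul hg.1, ?_⟩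
  have h1 : AlgEq Ω f := hf.2
  have h2 : AlgEq Ω g := hg.2
  change AlgEq Ω _
  letI := algPol Ω
  rw [algEq_iff] at h1 h2 ⊢
  exact IsAlgebraic.mul h1 h2

theorem AlgFun.const (v : ℂ) : AlgFun Ω (fun _ => v) :=
  ⟨analyticOnNhd_const, Polynomial.X - Polynomial.C (MvPolynomial.C v),
    Polynomial.X_sub_C_ne_zero _, fun t _ => by simp⟩

theorem ExpAlg.of {f : (Fin d → ℂ) → ℂ} (hf : AlgFun Ω f) : ExpAlg Ω f :=
  ⟨Unit, inferInstance, fun _ => f, fun _ _ => 0, fun _ => hf, fun _ => AlgFun.const 0,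
    fun t _ => by simp⟩

theorem ExpAlg.exp {f : (Fin d → ℂ) → ℂ} (hf : AlgFun Ω f) :
    ExpAlg Ω (fun t => Complex.exp (f t)) :=
  ⟨Unit, inferInstance, fun _ _ => 1, fun _ => f, fun _ => AlgFun.const 1, fun _ => hf,
    fun t _ => by simp⟩

theorem ExpAlg.add {E E' : (Fin d → ℂ) → ℂ} (h : ExpAlg Ω E) (h' : ExpAlg Ω E') :
    ExpAlg Ω (fun t => E t + E' t) := by
  obtain ⟨S, hS, c, w, hc, hw, hE⟩ := h
  obtain ⟨S', hS', c', w', hc', hw', hE'⟩ := h'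
  refine ⟨S ⊕ S', inferInstance, Sum.elim c c', Sum.elim w w', ?_, ?_, ?_⟩
  · rintro (s | s)
    · exact hc s
    · exact hc' s
  · rintro (s | s)
    · exact hw s
    · exact hw' s
  · intro t ht
    change E t + E' t = _
    rw [Fintype.sum_sum_type, hE t ht, hE' t ht]
    simp only [Sum.elim_inl, Sum.elim_inr]

theorem ExpAlg.mul {E E' : (Fin d → ℂ) → ℂ} (h : ExpAlg Ω E) (h' : ExpAlg Ω E') :
    ExpAlg Ω (fun t => E t * E' t) := by
  obtain ⟨S, hS, c, w, hc, hw, hE⟩ := h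
  obtain ⟨S', hS', c', w', hc', hw', hE'⟩ := h'
  refine ⟨S × S', inferInstance, fun s t => c s.1 t * c' s.2 t, fun s t => w s.1 t + w' s.2 t,
    fun s => (hc s.1).mul (hc' s.2), fun s => (hw s.1).add (hw' s.2), ?_⟩
  intro t ht
  change E t * E' t = _
  rw [Fintype.sum_prod_type, hE t ht, hE' t ht, Finset.sum_mul_sum]
  apply Finset.sum_congr rfl
  intro i _
  apply Finset.sum_congr rfl
  intro j _
  change _ = (c i t * c' j t) * Complex.exp (w i t + w' j t)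
  rw [Complex.exp_add]
  ring

theorem ExpAlg.of_EE {y : (Fin d → ℂ) → ℂ} (hy : AlgFun Ω y) (M : ℕ) {P : ℂ → ℂ} (hP : P ∈ EE) :
    ExpAlg Ω (fun t => P (y t / M)) := by
  have hyM : AlgFun Ω (fun t => y t / M) := by
    have h1 := hy.mul (AlgFun.const ((M : ℂ)⁻¹))
    have e : (fun t => y t / M) = fun t => y t * ((M : ℂ)⁻¹) := by
      funext t
      rw [div_eq_mul_inv]
    rw [e]
    exact h1
  unfold EE at hP
  induction hP using Algebra.adjoin_induction with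
  | mem x hx =>
    rcases hx with rfl | ⟨c, rfl⟩
    · exact ExpAlg.of hyM
    · exact ExpAlg.exp ((AlgFun.const c).mul hyM)
  | algebraMap c => exact ExpAlg.of (AlgFun.const c)
  | add x y _ _ hx hy => exact hx.add hy
  | mul x y _ _ hx hy => exact hx.mul hy

/-- **Equivalence.** -/
theorem equiv {n : ℕ} (y : Fin n → (Fin d → ℂ) → ℂ)
    (hΩo : IsOpen Ω) (hΩp : IsPreconnected Ω) (hΩn : Ω.Nonempty)
    (hy : ∀ i, AlgFun Ω (y i)) (hnc : ∀ i, ∀ v : ℂ, ¬ ∀ t ∈ Ω, y i t = v) :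
    (Ind Ω y ↔ ∀ (N : Finset (Fin n → ℕ)) (E : (Fin n → ℕ) → (Fin d → ℂ) → ℂ),
      (∀ k ∈ N, ExpAlg Ω (E k)) →
      (∀ t ∈ Ω, ∑ k ∈ N, E k t * ∏ i, (Gamma (y i t))⁻¹ ^ k i = 0) →
      ∀ k ∈ N, ∀ t ∈ Ω, E k t = 0) ∧
    (Ind Ω y ↔ ∀ a : Fin n → ℤ, a ≠ 0 → ∀ E E' : (Fin d → ℂ) → ℂ, ExpAlg Ω E → ExpAlg Ω E' →
      (∀ t ∈ Ω, E t * ∏ i, (Gamma (y i t))⁻¹ ^ (a i).toNat =
        E' t * ∏ i, (Gamma (y i t))⁻¹ ^ (-a i).toNat) →
      ∀ t ∈ Ω, E t = 0 ∧ E' t = 0) := by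
  classical
  have hba : Ind Ω y → ∀ (N : Finset (Fin n → ℕ)) (E : (Fin n → ℕ) → (Fin d → ℂ) → ℂ),
      (∀ k ∈ N, ExpAlg Ω (E k)) →
      (∀ t ∈ Ω, ∑ k ∈ N, E k t * ∏ i, (Gamma (y i t))⁻¹ ^ k i = 0) →
      ∀ k ∈ N, ∀ t ∈ Ω, E k t = 0 := fun hind N E hE hrel =>
    full y hΩo hΩp hΩn hy hnc hind N E hE hrel
  have hcb : (∀ (N : Finset (Fin n → ℕ)) (E : (Fin n → ℕ) → (Fin d → ℂ) → ℂ),
      (∀ k ∈ N, ExpAlg Ω (E k)) →
      (∀ t ∈ Ω, ∑ k ∈ N, E k t * ∏ i, (Gamma (y i t))⁻¹ ^ k i = 0) →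
      ∀ k ∈ N, ∀ t ∈ Ω, E k t = 0) → ∀ a : Fin n → ℤ, a ≠ 0 → ∀ E E' : (Fin d → ℂ) → ℂ,
      ExpAlg Ω E → ExpAlg Ω E' →
      (∀ t ∈ Ω, E t * ∏ i, (Gamma (y i t))⁻¹ ^ (a i).toNat =
        E' t * ∏ i, (Gamma (y i t))⁻¹ ^ (-a i).toNat) →
      ∀ t ∈ Ω, E t = 0 ∧ E' t = 0 := by
    intro hB a ha E E' hE hE' hrel
    have hne : (fun i => (a i).toNat) ≠ (fun i => (-a i).toNat) := by
      intro h
      apply ha
      funext i
      have h1 : (a i).toNat = (-a i).toNat := congrFun h i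
      simp only [Pi.zero_apply]
      omega
    have hE'' : ExpAlg Ω (fun t => -1 * E' t) := (ExpAlg.of (AlgFun.const (-1))).mul hE'
    have h1 := hB {fun i => (a i).toNat, fun i => (-a i).toNat}
      (fun k => if k = fun i => (a i).toNat then E else fun t => -1 * E' t)
      (by
        intro k hk
        rcases Finset.mem_insert.1 hk with rfl | hk
        · simp only [if_true]
          exact hE
        · rw [Finset.mem_singleton.1 hk, if_neg hne.symm]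
          exact hE'')
      (by
        intro t ht
        rw [Finset.sum_pair hne, if_pos rfl, if_neg hne.symm, hrel t ht]
        ring)
    intro t ht
    have h2 := h1 _ (Finset.mem_insert_self _ _) t ht
    have h3 := h1 _ (Finset.mem_insert_of_mem (Finset.mem_singleton_self _)) t ht
    rw [if_pos rfl] at h2
    rw [if_neg hne.symm] at h3
    refine ⟨h2, ?_⟩
    simpa using h3
  have hac : (∀ a : Fin n → ℤ, a ≠ 0 → ∀ E E' : (Fin d → ℂ) → ℂ,
      ExpAlg Ω E → ExpAlg Ω E' →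
      (∀ t ∈ Ω, E t * ∏ i, (Gamma (y i t))⁻¹ ^ (a i).toNat =
        E' t * ∏ i, (Gamma (y i t))⁻¹ ^ (-a i).toNat) →
      ∀ t ∈ Ω, E t = 0 ∧ E' t = 0) → Ind Ω y := by
    intro hC
    by_contra hind
    obtain ⟨a, ha, i₀, M, hM, P, hP, Q, hQ, hP0, hQ0, hrel⟩ :=
      nec (fun i q => hnc i q) hind
    obtain ⟨t, ht, h1, _⟩ := EE_ne hΩp (hy i₀).1.continuousOn (hnc i₀) hM hP hQ hP0 hQ0
    exact h1 (hC a ha _ _ (ExpAlg.of_EE (hy i₀) M hP) (ExpAlg.of_EE (hy i₀) M hQ) hrel t ht).1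
  exact ⟨⟨hba, fun h => hac (hcb h)⟩, ⟨fun h => hcb (hba h), hac⟩⟩

end Pool.Agent.K9h73.EX
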