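import Pool.Agent.K9h73.EX.Full3

/-!
The transcendence degree of the values of `Γ` is the rank of the divisors.
-/

set_option autoImplicit false

namespace Pool.Agent.K9h73.EX

open Complex

variable {d : ℕ} {Ω : Set (Fin d → ℂ)}

/-- algebraic independence of the `1/Γ(y_i)` over the ring of the `∑ c e^w` -/
def AI {ι : Type} [Fintype ι] (Ω : Set (Fin d → ℂ)) (y : ι → (Fin d → ℂ) → ℂ) : Prop :=
  ∀ (N : Finset (ι → ℕ)) (E : (ι → ℕ) → (Fin d → ℂ) → ℂ), (∀ k ∈ N, ExpAlg Ω (E k)) →
    (∀ t ∈ Ω, ∑ k ∈ N, E k t * ∏ i, (Gamma (y i t))⁻¹ ^ k i = 0) → ∀ k ∈ N, ∀ t ∈ Ω, E k t = 0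

theorem AI.reindex {ι κ : Type} [Fintype ι] [Fintype κ] (e : κ ≃ ι)
    {y : ι → (Fin d → ℂ) → ℂ} (h : AI Ω y) : AI Ω (fun j => y (e j)) := by
  classical
  intro N E hE hrel k hk t ht
  let T : (κ → ℕ) ≃ (ι → ℕ) := e.arrowCongr (Equiv.refl ℕ)
  have h1 := h (N.map T.toEmbedding) (fun k => E (T.symm k)) (by
      intro k hk
      obtain ⟨k', hk', rfl⟩ := Finset.mem_map.1 hk
      change ExpAlg Ω (E (T.symm (T k')))
      rw [T.symm_apply_apply]
      exact hE k' hk') (by
      intro t ht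
      rw [Finset.sum_map, ← hrel t ht]
      apply Finset.sum_congr rfl
      intro k' _
      change E (T.symm (T k')) t * ∏ i, (Gamma (y i t))⁻¹ ^ (T k') i = _
      rw [T.symm_apply_apply, ← e.prod_comp]
      congr 1
      apply Finset.prod_congr rfl
      intro j _
      change _ ^ k' (e.symm (e j)) = _
      rw [e.symm_apply_apply])
  have h2 := h1 (T k) (Finset.mem_map_of_mem _ hk) t ht
  change E (T.symm (T k)) t = 0 at h2
  rwa [T.symm_apply_apply] at h2

theorem ind_iff_AI {ι : Type} [Fintype ι] (y : ι → (Fin d → ℂ) → ℂ)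
    (hΩo : IsOpen Ω) (hΩp : IsPreconnected Ω) (hΩn : Ω.Nonempty)
    (hy : ∀ i, AlgFun Ω (y i)) (hnc : ∀ i, ∀ v : ℂ, ¬ ∀ t ∈ Ω, y i t = v) :
    Ind Ω y ↔ AI Ω y := by
  classical
  have e : Fin (Fintype.card ι) ≃ ι := (Fintype.equivFin ι).symm
  have h := (equiv (fun j => y (e j)) hΩo hΩp hΩn (fun j => hy _) (fun j => hnc _)).1
  constructor
  · intro hI
    have h1 : AI Ω (fun j => y (e j)) := h.1 (hI.sub (fun i q => hnc i q) e e.injective)
    have h2 := AI.reindex e.symm h1
    have h3 : (fun j => y (e (e.symm j))) = y := by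
      funext j
      rw [e.apply_symm_apply]
    simp only [h3] at h2
    exact h2
  · intro hA
    have h1 : Ind Ω (fun j => y (e j)) := h.2 (AI.reindex e hA)
    have h2 := h1.sub (fun i q => hnc _ q) e.symm e.symm.injective
    have h3 : (fun j => y (e (e.symm j))) = y := by
      funext j
      rw [e.apply_symm_apply]
    simp only [h3] at h2
    exact h2

section rank

variable {n : ℕ}

/-- the divisor of `y_i` -/
noncomputable def dv (Ω : Set (Fin d → ℂ)) (y : Fin n → (Fin d → ℂ) → ℂ) (i : Fin n) :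
    Fin n × ℤ → ℚ := fun jl => (DD Ω (y i) (fun t => y jl.1 t - jl.2) : ℚ)

lemma ind_iff_li (y : Fin n → (Fin d → ℂ) → ℂ) (hq : ∀ i, ∀ q : ℚ, ¬ ∀ t ∈ Ω, y i t = q)
    (A : Finset (Fin n)) :
    Ind Ω (fun i : A => y i) ↔ LinearIndependent ℚ (fun i : A => dv Ω y i) := by
  classical
  rw [← LinearIndependent.iff_fractionRing ℤ ℚ, Fintype.linearIndependent_iff]
  constructor
  · intro hI g hg
    by_contra hne
    push Not at hne
    obtain ⟨i₁, hi₁⟩ := hne
    obtain ⟨j, l, h1⟩ := hI g (fun h0 => hi₁ (congrFun h0 i₁))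
    apply h1
    have h2 := congrFun hg ((j : Fin n), l)
    rw [Finset.sum_apply] at h2
    simp only [Pi.smul_apply, dv, zsmul_eq_mul, Pi.zero_apply] at h2
    exact_mod_cast h2
  · intro hL a ha
    by_contra hcon
    push Not at hcon
    apply ha
    funext i
    apply hL a
    funext jl
    obtain ⟨j, l⟩ := jl
    rw [Finset.sum_apply]
    simp only [Pi.smul_apply, dv, zsmul_eq_mul, Pi.zero_apply]
    have key : ∑ i : A, a i * DD Ω (y i) (fun t => y j t - l) = 0 := by
      by_contra hne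
      obtain ⟨i₁, _, hi₁⟩ := Finset.exists_ne_zero_of_sum_ne_zero hne
      have hD : DD Ω (y i₁) (fun t => y j t - l) ≠ 0 := right_ne_zero_of_mul hi₁
      obtain ⟨k, p, hkp⟩ := DD_ne hD
      have hp := rel_ne (hq i₁) hkp
      have h3 := hcon i₁ k
      have h4 : ∀ i : A, DD Ω (y i) (fun t => y i₁ t - k) =
          sgq p * DD Ω (y i) (fun t => y j t - l) := fun i => DD_smul hp hkp
      simp only [h4] at h3
      have h5 : ∑ i : A, a i * (sgq p * DD Ω (y i) (fun t => y j t - l)) =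
          sgq p * ∑ i : A, a i * DD Ω (y i) (fun t => y j t - l) := by
        rw [Finset.mul_sum]
        exact Finset.sum_congr rfl fun i _ => by ring
      rw [h5] at h3
      exact (mul_ne_zero (sgq_ne p) hne) h3
    exact_mod_cast key

/-- the rank of the divisors -/
noncomputable def rk (Ω : Set (Fin d → ℂ)) (y : Fin n → (Fin d → ℂ) → ℂ) : ℕ :=
  Module.finrank ℚ (Submodule.span ℚ (Set.range (dv Ω y)))

lemma card_le_rk (y : Fin n → (Fin d → ℂ) → ℂ) (A : Finset (Fin n))
    (h : LinearIndependent ℚ (fun i : A => dv Ω y i)) : A.card ≤ rk Ω y := by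
  have h1 := finrank_span_eq_card h
  rw [Fintype.card_coe] at h1
  rw [← h1]
  have : FiniteDimensional ℚ (Submodule.span ℚ (Set.range (dv Ω y))) :=
    FiniteDimensional.span_of_finite ℚ (Set.finite_range _)
  exact Submodule.finrank_mono (Submodule.span_mono (by
    rintro _ ⟨i, rfl⟩
    exact ⟨i, rfl⟩))

lemma exists_rk (y : Fin n → (Fin d → ℂ) → ℂ) :
    ∃ A : Finset (Fin n), A.card = rk Ω y ∧ LinearIndependent ℚ (fun i : A => dv Ω y i) := by
  classical
  have hfd : Module.Finite ℚ (Submodule.span ℚ (Set.range (dv Ω y))) :=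
    FiniteDimensional.span_of_finite ℚ (Set.finite_range _)
  obtain ⟨f, hf, -, hli⟩ := Submodule.exists_fun_fin_finrank_span_eq ℚ (Set.range (dv Ω y))
  choose g hg using hf
  have hinj : Function.Injective g := fun a b h => hli.injective (by rw [← hg a, ← hg b, h])
  refine ⟨Finset.univ.image g, ?_, ?_⟩
  · rw [Finset.card_image_of_injective _ hinj, Finset.card_univ, Fintype.card_fin]
    rfl
  · have h1 : ∀ i : (Finset.univ.image g : Finset (Fin n)), ∃ j, g j = i := by
      intro i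
      obtain ⟨j, -, hj⟩ := Finset.mem_image.1 i.2
      exact ⟨j, hj⟩
    choose h' hh' using h1
    have h2 : (fun i : (Finset.univ.image g : Finset (Fin n)) => dv Ω y i) = fun i => f (h' i) := by
      funext i
      rw [← hg (h' i), hh' i]
    rw [h2]
    exact hli.comp h' (fun a b hab => Subtype.ext (by rw [← hh' a, ← hh' b, hab]))

/-- **the transcendence degree is the rank of the divisors** -/
theorem rank_thm (y : Fin n → (Fin d → ℂ) → ℂ)
    (hΩo : IsOpen Ω) (hΩp : IsPreconnected Ω) (hΩn : Ω.Nonempty)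
    (hy : ∀ i, AlgFun Ω (y i)) (hnc : ∀ i, ∀ v : ℂ, ¬ ∀ t ∈ Ω, y i t = v) :
    (∀ A : Finset (Fin n), AI Ω (fun i : A => y i) → A.card ≤ rk Ω y) ∧
    ∃ A : Finset (Fin n), A.card = rk Ω y ∧ AI Ω (fun i : A => y i) := by
  classical
  have key : ∀ A : Finset (Fin n), AI Ω (fun i : A => y i) ↔
      LinearIndependent ℚ (fun i : A => dv Ω y i) := fun A => by
    rw [← ind_iff_AI (fun i : A => y i) hΩo hΩp hΩn (fun i => hy i) (fun i => hnc i)]
    exact ind_iff_li y (fun i q => hnc i q) A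
  refine ⟨fun A hA => card_le_rk y A ((key A).1 hA), ?_⟩
  obtain ⟨A, hA, hli⟩ := exists_rk (Ω := Ω) y
  exact ⟨A, hA, (key A).2 hli⟩

end rank

end Pool.Agent.K9h73.EX
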