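import Mathlib

set_option autoImplicit false

/-!
The multiplication formula for the Gamma function, up to a constant.
-/

namespace Pool.Agent.K9h73.EX

open Finset Set

lemma gauss_aff (m : ℕ) (hm : 1 ≤ m) (k : ℕ) :
    ConvexOn ℝ (Ioi (0 : ℝ)) (fun x => Real.log (Real.Gamma ((x + k) / m))) := by
  have hm0 : (0 : ℝ) < m := by exact_mod_cast hm
  refine ⟨convex_Ioi 0, ?_⟩
  intro x hx y hy a b ha hb hab
  have hx' : (0 : ℝ) < x := hx
  have hy' : (0 : ℝ) < y := hy
  have e1 : (a • x + b • y + k) / m = a • ((x + k) / m) + b • ((y + k) / m) := by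
    simp only [smul_eq_mul]
    field_simp
    have : (k : ℝ) = (a + b) * k := by rw [hab, one_mul]
    linear_combination this
  have h1 : (0 : ℝ) < (x + k) / m := by positivity
  have h2 : (0 : ℝ) < (y + k) / m := by positivity
  have h3 := Real.convexOn_log_Gamma.2 (mem_Ioi.2 h1) (mem_Ioi.2 h2) ha hb hab
  simp only [Function.comp_apply] at h3
  show Real.log (Real.Gamma ((a • x + b • y + k) / m)) ≤ _
  rw [e1]
  exact h3

lemma gauss_sum (m : ℕ) (hm : 1 ≤ m) (n : ℕ) :
    ConvexOn ℝ (Ioi (0 : ℝ)) (fun x => ∑ k ∈ range n, Real.log (Real.Gamma ((x + k) / m))) := by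
  induction n with
  | zero =>
    simp only [range_zero, sum_empty]
    exact convexOn_const 0 (convex_Ioi 0)
  | succ n ih =>
    simp only [sum_range_succ]
    exact ih.add (gauss_aff m hm n)

theorem gaussR (m : ℕ) (hm : 1 ≤ m) : ∃ c : ℝ, 0 < c ∧ ∀ x : ℝ, 0 < x →
    (∏ k ∈ range m, Real.Gamma ((x + k) / m)) * Real.exp (x * Real.log m) = c * Real.Gamma x := by
  have hm0 : (0 : ℝ) < m := by exact_mod_cast hm
  have hpos : ∀ x : ℝ, 0 < x → 0 < ∏ k ∈ range m, Real.Gamma ((x + k) / m) := by
    intro x hx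
    apply Finset.prod_pos
    intro k _
    apply Real.Gamma_pos_of_pos
    positivity
  set C : ℝ := (∏ k ∈ range m, Real.Gamma ((1 + k) / m)) * Real.exp (1 * Real.log m) with hC
  have hC0 : 0 < C := mul_pos (hpos 1 one_pos) (Real.exp_pos _)
  refine ⟨C, hC0, ?_⟩
  set f : ℝ → ℝ := fun x =>
    (∏ k ∈ range m, Real.Gamma ((x + k) / m)) * Real.exp (x * Real.log m) / C with hf
  have hfeq : Set.EqOn f Real.Gamma (Ioi 0) := by
    apply Real.eq_Gamma_of_log_convex
    · have h1 : ConvexOn ℝ (Ioi (0 : ℝ)) (fun x =>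
          (∑ k ∈ range m, Real.log (Real.Gamma ((x + k) / m)) + x * Real.log m) +
            -Real.log C) := by
        refine ((gauss_sum m hm m).add ?_).add_const _
        have h2 : ConvexOn ℝ (Ioi (0 : ℝ)) (fun x : ℝ => x * Real.log m) := by
          refine ⟨convex_Ioi 0, ?_⟩
          intro x _ y _ a b _ _ _
          simp only [smul_eq_mul]
          apply le_of_eq
          ring
        exact h2
      refine h1.congr ?_
      intro x hx
      have hx' : (0 : ℝ) < x := hx
      simp only [Function.comp_apply, hf]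
      rw [Real.log_div (mul_pos (hpos x hx') (Real.exp_pos _)).ne' hC0.ne',
        Real.log_mul (hpos x hx').ne' (Real.exp_pos _).ne', Real.log_exp, Real.log_prod]
      · ring
      · intro k _
        apply ne_of_gt
        apply Real.Gamma_pos_of_pos
        positivity
    · intro y hy
      have h1 := Finset.prod_range_succ (fun k : ℕ => Real.Gamma ((y + k) / m)) m
      have h2 := Finset.prod_range_succ' (fun k : ℕ => Real.Gamma ((y + k) / m)) m
      rw [h1] at h2
      have h3 : Real.Gamma ((y + (m : ℕ)) / m) = y / m * Real.Gamma (y / m) := by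
        have : (y + (m : ℕ)) / m = y / m + 1 := by
          field_simp
        rw [this, Real.Gamma_add_one (by positivity)]
      rw [h3] at h2
      have h4 : Real.Gamma ((y + ((0 : ℕ) : ℝ)) / m) = Real.Gamma (y / m) := by
        congr 2
        push_cast
        ring
      rw [h4] at h2
      have h5 : Real.Gamma (y / m) ≠ 0 := (Real.Gamma_pos_of_pos (by positivity)).ne'
      have h6 : ∏ k ∈ range m, Real.Gamma ((y + ((k + 1 : ℕ) : ℝ)) / m) =
          (∏ k ∈ range m, Real.Gamma ((y + k) / m)) * (y / m) := by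
        apply mul_right_cancel₀ h5
        rw [← h2]
        ring
      have h7 : ∏ k ∈ range m, Real.Gamma ((y + 1 + k) / m) =
          (∏ k ∈ range m, Real.Gamma ((y + k) / m)) * (y / m) := by
        rw [← h6]
        apply Finset.prod_congr rfl
        intro k _
        congr 2
        push_cast
        ring
      simp only [hf]
      rw [h7]
      have h8 : Real.exp ((y + 1) * Real.log m) = Real.exp (y * Real.log m) * m := by
        rw [add_mul, one_mul, Real.exp_add, Real.exp_log hm0]
      rw [h8]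
      field_simp
    · intro y hy
      exact div_pos (mul_pos (hpos y hy) (Real.exp_pos _)) hC0
    · simp only [hf, hC]
      exact div_self hC0.ne'
  intro x hx
  have h1 := hfeq hx
  simp only [hf] at h1
  rw [div_eq_iff hC0.ne'] at h1
  rw [h1]
  ring

theorem gaussC (m : ℕ) (hm : 1 ≤ m) : ∃ c : ℂ, c ≠ 0 ∧ ∀ z : ℂ,
    (∏ k ∈ range m, (Complex.Gamma ((z + k) / m))⁻¹) =
      c * Complex.exp (z * (Real.log m : ℝ)) * (Complex.Gamma z)⁻¹ := by
  obtain ⟨c, hc, h⟩ := gaussR m hm
  have hm0 : (0 : ℝ) < m := by exact_mod_cast hm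
  refine ⟨((c⁻¹ : ℝ) : ℂ), by exact_mod_cast (inv_pos.2 hc).ne', ?_⟩
  have hf : AnalyticOnNhd ℂ (fun z : ℂ => ∏ k ∈ range m, (Complex.Gamma ((z + k) / m))⁻¹)
      Set.univ := by
    have : Differentiable ℂ (fun z : ℂ => ∏ k ∈ range m, (Complex.Gamma ((z + k) / m))⁻¹) := by
      apply Differentiable.fun_finsetProd
      intro k _
      exact Complex.differentiable_one_div_Gamma.comp
        ((differentiable_id.add_const _).div_const _)
    exact fun z _ => this.analyticAt z
  have hg : AnalyticOnNhd ℂ (fun z : ℂ => ((c⁻¹ : ℝ) : ℂ) * Complex.exp (z * (Real.log m : ℝ)) *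
      (Complex.Gamma z)⁻¹) Set.univ := by
    have : Differentiable ℂ (fun z : ℂ => ((c⁻¹ : ℝ) : ℂ) * Complex.exp (z * (Real.log m : ℝ)) *
        (Complex.Gamma z)⁻¹) :=
      ((differentiable_id.mul_const _).cexp.const_mul _).mul
        Complex.differentiable_one_div_Gamma
    exact fun z _ => this.analyticAt z
  have hfreq : ∃ᶠ z in nhdsWithin (1 : ℂ) {1}ᶜ,
      (∏ k ∈ range m, (Complex.Gamma ((z + k) / m))⁻¹) =
      ((c⁻¹ : ℝ) : ℂ) * Complex.exp (z * (Real.log m : ℝ)) * (Complex.Gamma z)⁻¹ := by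
    have hreal : ∀ x : ℝ, 0 < x → (∏ k ∈ range m, (Complex.Gamma (((x : ℂ) + k) / m))⁻¹) =
      ((c⁻¹ : ℝ) : ℂ) * Complex.exp ((x : ℂ) * (Real.log m : ℝ)) * (Complex.Gamma (x : ℂ))⁻¹ := by
      intro x hx
      have h1 := h x hx
      have e1 : ∀ k : ℕ, Complex.Gamma (((x : ℂ) + k) / m) = ((Real.Gamma ((x + k) / m) : ℝ) : ℂ) := by
        intro k
        rw [← Complex.Gamma_ofReal]
        congr 1
        push_cast
        ring
      have e2 : Complex.exp ((x : ℂ) * (Real.log m : ℝ)) = ((Real.exp (x * Real.log m) : ℝ) : ℂ) := by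
        push_cast
        ring
      rw [Complex.Gamma_ofReal, e2]
      simp only [e1]
      rw [Finset.prod_inv_distrib]
      have hne : (∏ k ∈ range m, Real.Gamma ((x + k) / m)) ≠ 0 := by
        apply Finset.prod_ne_zero_iff.2
        intro k _
        apply ne_of_gt
        apply Real.Gamma_pos_of_pos
        positivity
      have hG : Real.Gamma x ≠ 0 := (Real.Gamma_pos_of_pos hx).ne'
      have key : (∏ k ∈ range m, Real.Gamma ((x + k) / m))⁻¹ =
          c⁻¹ * Real.exp (x * Real.log m) * (Real.Gamma x)⁻¹ := by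
        field_simp
        exact h1.symm
      exact_mod_cast congrArg (fun y : ℝ => (y : ℂ)) key
    have ht : Filter.Tendsto (fun n : ℕ => (((1 + 1 / ((n : ℝ) + 1) : ℝ)) : ℂ)) Filter.atTop
        (nhdsWithin (1 : ℂ) {1}ᶜ) := by
      apply tendsto_nhdsWithin_of_tendsto_nhds_of_eventually_within
      · have h1 : Filter.Tendsto (fun n : ℕ => (1 + 1 / ((n : ℝ) + 1) : ℝ)) Filter.atTop
            (nhds (1 + 0)) := tendsto_one_div_add_atTop_nhds_zero_nat.const_add 1
        rw [add_zero] at h1
        exact_mod_cast (Complex.continuous_ofReal.tendsto (1 : ℝ)).comp h1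
      · refine Filter.Eventually.of_forall fun n => ?_
        intro h1
        have h1' : (((1 + 1 / ((n : ℝ) + 1) : ℝ)) : ℂ) = ((1 : ℝ) : ℂ) := by
          rw [Complex.ofReal_one]
          exact h1
        have h2 : (1 + 1 / ((n : ℝ) + 1) : ℝ) = 1 := Complex.ofReal_injective h1'
        have h3 : (0 : ℝ) < 1 / ((n : ℝ) + 1) := by positivity
        linarith
    refine ht.frequently (Filter.Eventually.frequently (Filter.Eventually.of_forall fun n => ?_))
    exact hreal _ (by positivity)
  intro z
  exact (hf.eqOn_of_preconnected_of_frequently_eq hg isPreconnected_univ (Set.mem_univ 1) hfreq)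
    (Set.mem_univ z)

end Pool.Agent.K9h73.EX
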