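import Pool.Agent.W175.GF.Final
import Pool.Agent.W266.GF.GT
import Pool.Agent.W505.GF.Cls

/-!
Polar parts of meromorphic germs, and sums of algebraic functions.
-/

set_option autoImplicit false

namespace Pool.Agent.K9h73.EX

open Complex Pool.Agent.W175.GF Pool.Agent.W266.GF

/-- the polar part of a meromorphic germ -/
theorem polar : ∀ (D : ℕ) (r C : ℝ) (f : ℂ → ℂ), 0 < r → r < 1 → DifferentiableOn ℂ f (U r) →
    (∀ s ∈ U r, ‖f s‖ ≤ C * ‖s‖⁻¹ ^ D) →
    ∃ (p : Polynomial ℂ) (r' B : ℝ), p.coeff 0 = 0 ∧ 0 < r' ∧ r' ≤ r ∧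
      ∀ s ∈ U r', ‖f s - p.eval s⁻¹‖ ≤ B := by
  intro D
  induction D with
  | zero =>
    intro r C f hr hr1 hf h
    exact ⟨0, r, C, by simp, hr, le_rfl, fun s hs => by simpa using h s hs⟩
  | succ D ih =>
    intro r C f hr hr1 hf h
    rcases Pool.Agent.W505.GF.cls r f hr ⟨hf, D + 1, C, h⟩ with
      ⟨r', B, h1, h2, h3⟩ | ⟨r', m, a, K, h1, h2, h3, h4, h5⟩
    · exact ⟨0, r', B, by simp, h1, h2, fun s hs => by simpa using h3 s hs⟩
    · have ha : 0 < ‖a‖ := norm_pos_iff.2 h4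
      have hmD : m ≤ D + 1 := by
        by_contra hcon
        push Not at hcon
        set x : ℝ := (|C| + |K|) / ‖a‖ + 1 / r' + 1 with hx
        have g1 : 0 ≤ (|C| + |K|) / ‖a‖ := by positivity
        have g2 : 0 < 1 / r' := by positivity
        have hx1 : 1 ≤ x := by linarith
        have hx0 : 0 < x := by linarith
        have hxn : ‖((x⁻¹ : ℝ) : ℂ)‖ = x⁻¹ := by
          rw [norm_real, Real.norm_eq_abs, abs_of_pos (inv_pos.2 hx0)]
        have hs : ((x⁻¹ : ℝ) : ℂ) ∈ U r' := by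
          refine ⟨by rw [hxn]; exact inv_pos.2 hx0, ?_⟩
          rw [hxn]
          have : 1 / r' < x := by linarith
          rw [one_div, inv_lt_comm₀ h1 hx0] at this
          exact this
        have e1 := h5 _ hs
        have e2 := h _ (U_subset h2 hs)
        rw [hxn, inv_inv] at e1 e2
        set s : ℂ := ((x⁻¹ : ℝ) : ℂ) with hsdef
        have e3 : ‖a * s⁻¹ ^ m‖ = ‖a‖ * x ^ m := by
          rw [norm_mul, norm_pow, norm_inv, hxn, inv_inv]
        have e4 : ‖a‖ * x ^ m ≤ C * x ^ (D + 1) + K * x ^ (m - 1) := by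
          rw [← e3]
          calc ‖a * s⁻¹ ^ m‖ = ‖f s - (f s - a * s⁻¹ ^ m)‖ := by congr 1; ring
            _ ≤ ‖f s‖ + ‖f s - a * s⁻¹ ^ m‖ := norm_sub_le _ _
            _ ≤ _ := add_le_add e2 e1
        have e5 : C * x ^ (D + 1) ≤ |C| * x ^ (m - 1) :=
          (mul_le_mul_of_nonneg_right (le_abs_self C) (by positivity)).trans
            (mul_le_mul_of_nonneg_left (pow_le_pow_right₀ hx1 (by omega)) (abs_nonneg _))
        have e6 : K * x ^ (m - 1) ≤ |K| * x ^ (m - 1) :=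
          mul_le_mul_of_nonneg_right (le_abs_self K) (by positivity)
        have e7 : x ^ m = x * x ^ (m - 1) := by
          rw [← pow_succ']
          congr 1
          omega
        have e8 : 0 < x ^ (m - 1) := by positivity
        have e9 : ‖a‖ * x * x ^ (m - 1) ≤ (|C| + |K|) * x ^ (m - 1) := by
          rw [e7] at e4
          linarith
        have e10 : ‖a‖ * x ≤ |C| + |K| := le_of_mul_le_mul_right e9 e8
        have e11 : (|C| + |K|) / ‖a‖ < x := by linarith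
        rw [div_lt_iff₀ ha] at e11
        linarith
      obtain ⟨p, r'', B, g1, g2, g3, g4⟩ := ih r' |K| (fun s => f s - a * s⁻¹ ^ m) h1
        (by linarith) ((hf.mono (U_subset h2)).sub (Pool.Agent.W712.GF.diff_inv_pow a m))
        (fun s hs => by
          refine (h5 s hs).trans ?_
          refine (mul_le_mul_of_nonneg_right (le_abs_self K) (by positivity)).trans ?_
          apply mul_le_mul_of_nonneg_left _ (abs_nonneg _)
          apply pow_le_pow_right₀ (inv_ge_one (by linarith) hs)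
          omega)
      refine ⟨p + Polynomial.C a * Polynomial.X ^ m, r'', B, ?_, g2, g3.trans h2, fun s hs => ?_⟩
      · rw [Polynomial.coeff_add, g1, Polynomial.coeff_C_mul, Polynomial.coeff_X_pow,
          if_neg (by omega)]
        simp
      · have e1 := g4 s hs
        simp only [Polynomial.eval_add, Polynomial.eval_mul, Polynomial.eval_C, Polynomial.eval_pow,
          Polynomial.eval_X]
        refine le_trans (le_of_eq ?_) e1
        congr 1
        ring

theorem polar' {r : ℝ} (hr : 0 < r) (hr1 : r < 1) {f : ℂ → ℂ} (hf : Mer r f) :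
    ∃ (p : Polynomial ℂ) (r' B : ℝ), p.coeff 0 = 0 ∧ 0 < r' ∧ r' ≤ r ∧
      ∀ s ∈ U r', ‖f s - p.eval s⁻¹‖ ≤ B := by
  obtain ⟨h1, D, C, h2⟩ := hf
  exact polar D r C f hr hr1 h1 h2

theorem exists_rad {S : Type} [Fintype S] (R : S → ℝ) (hR : ∀ i, 0 < R i) {r : ℝ} (hr : 0 < r) :
    ∃ r0 : ℝ, 0 < r0 ∧ r0 ≤ r ∧ ∀ i, r0 ≤ R i := by
  obtain ⟨o, ho⟩ := Finite.exists_min (fun o : Option S => o.elim r R)
  refine ⟨o.elim r R, ?_, ho none, fun i => ho (some i)⟩
  rcases o with _ | i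
  · exact hr
  · exact hR i

/-! ### algebraic functions -/

/-- the functions on `Ω` as an algebra over the polynomials in `t₀` -/
noncomputable def algOn (Ω : Set ℂ) (t₀ : ℂ → ℂ) : Algebra (Polynomial ℂ) (Ω → ℂ) :=
  (Polynomial.aeval (R := ℂ) (fun t : Ω => t₀ t)).toRingHom.toAlgebra

theorem aeval_apply {Ω : Set ℂ} (f : Ω → ℂ) (p : Polynomial ℂ) (t : Ω) :
    (Polynomial.aeval f p) t = p.eval (f t) := by
  have h := Polynomial.aeval_algHom_apply (Pi.evalAlgHom ℂ (fun _ : Ω => ℂ) t) f p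
  rw [Pi.evalAlgHom_apply, Pi.evalAlgHom_apply] at h
  rw [← h, Polynomial.coe_aeval_eq_eval]

theorem algDep_iff {Ω : Set ℂ} {t₀ g : ℂ → ℂ} : AlgDep Ω t₀ g ↔
    (letI := algOn Ω t₀; IsAlgebraic (Polynomial ℂ) (fun t : Ω => g t)) := by
  letI := algOn Ω t₀
  have key : ∀ (Q : Polynomial (Polynomial ℂ)) (t : Ω),
      (Polynomial.aeval (fun t : Ω => g t) Q) t = Q.evalEval (t₀ t) (g t) := by
    intro Q t
    have h : ((Pi.evalRingHom (fun _ : Ω => ℂ) t).comp
        (Polynomial.aeval (R := Polynomial ℂ) (fun t : Ω => g t)).toRingHom) =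
        Polynomial.evalEvalRingHom (t₀ t) (g t) := by
      apply Polynomial.ringHom_ext
      · intro p
        have e1 : (algebraMap (Polynomial ℂ) (Ω → ℂ) p) t = p.eval (t₀ t) :=
          aeval_apply (fun t : Ω => t₀ t) p t
        simp [e1]
      · simp
    exact congrArg (fun φ : Polynomial (Polynomial ℂ) →+* ℂ => φ Q) h
  constructor
  · rintro ⟨Q, hQ, h⟩
    exact ⟨Q, hQ, funext fun t => by rw [key]; exact h t t.2⟩
  · rintro ⟨Q, hQ, h⟩
    exact ⟨Q, hQ, fun t ht => by rw [← key Q ⟨t, ht⟩, h]; rfl⟩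

theorem AlgDep.add' {Ω : Set ℂ} {t₀ f g : ℂ → ℂ} (hf : AlgDep Ω t₀ f) (hg : AlgDep Ω t₀ g) :
    AlgDep Ω t₀ (fun t => f t + g t) := by
  letI := algOn Ω t₀
  rw [algDep_iff] at hf hg ⊢
  exact IsAlgebraic.add hf hg

theorem AlgDep.mul' {Ω : Set ℂ} {t₀ f g : ℂ → ℂ} (hf : AlgDep Ω t₀ f) (hg : AlgDep Ω t₀ g) :
    AlgDep Ω t₀ (fun t => f t * g t) := by
  letI := algOn Ω t₀
  rw [algDep_iff] at hf hg ⊢
  exact IsAlgebraic.mul hf hg

theorem AlgDep.const' {Ω : Set ℂ} {t₀ : ℂ → ℂ} (v : ℂ) : AlgDep Ω t₀ (fun _ => v) :=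
  ⟨Polynomial.X - Polynomial.C (Polynomial.C v), Polynomial.X_sub_C_ne_zero _, fun t _ => by
    simp [Polynomial.evalEval]⟩

theorem AlgDep.sub' {Ω : Set ℂ} {t₀ f g : ℂ → ℂ} (hf : AlgDep Ω t₀ f) (hg : AlgDep Ω t₀ g) :
    AlgDep Ω t₀ (fun t => f t - g t) := by
  letI := algOn Ω t₀
  rw [algDep_iff] at hf hg ⊢
  exact IsAlgebraic.sub hf hg

theorem AlgDep.sum' {Ω : Set ℂ} {t₀ : ℂ → ℂ} {α : Type} (S : Finset α) (f : α → ℂ → ℂ)
    (hf : ∀ a ∈ S, AlgDep Ω t₀ (f a)) : AlgDep Ω t₀ (fun t => ∑ a ∈ S, f a t) := by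
  classical
  induction S using Finset.induction_on with
  | empty => simpa using AlgDep.const' (Ω := Ω) (t₀ := t₀) 0
  | insert a S ha ih =>
    simp only [Finset.sum_insert ha]
    exact AlgDep.add' (hf a (Finset.mem_insert_self _ _))
      (ih fun b hb => hf b (Finset.mem_insert_of_mem hb))

end Pool.Agent.K9h73.EX
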