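import Pool.Agent.K9h73.EX.Loc2
import Pool.Agent.K9h73.EX.Pre

/-!
The global theorem for the Gamma function and the exponential function jointly, for independent
divisors: values at algebraic functions of one variable.
-/

set_option autoImplicit false

namespace Pool.Agent.K9h73.EX

open Complex Pool.Agent.W175.GF Pool.Agent.W266.GF

/-- the global theorem for fixed index types -/
def JGTfor2 (ι J : Type) [Fintype ι] [Fintype J] : Prop := ∀ (Ω : Set ℂ) (t₀ : ℂ → ℂ)
  (y : ι → ℂ → ℂ) (w : J → ℂ → ℂ)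
  (N : Finset (ι → ℕ)) (c : (ι → ℕ) → J → ℂ → ℂ), IsOpen Ω → IsPreconnected Ω → Ω.Nonempty →
  DifferentiableOn ℂ t₀ Ω → (∀ i, DifferentiableOn ℂ (y i) Ω) → (∀ j, DifferentiableOn ℂ (w j) Ω) →
  (∀ k ∈ N, ∀ j, DifferentiableOn ℂ (c k j) Ω) →
  (∀ v : ℂ, ¬ ∀ t ∈ Ω, t₀ t = v) → (∀ i, ∀ v : ℂ, ¬ ∀ t ∈ Ω, y i t = v) →
  (∀ i, AlgDep Ω t₀ (y i)) → (∀ j, AlgDep Ω t₀ (w j)) → (∀ k ∈ N, ∀ j, AlgDep Ω t₀ (c k j)) →
  Ind Ω y →
  (∀ j l, j ≠ l → ∀ v : ℂ, ¬ ∀ t ∈ Ω, w j t - w l t = v) →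
  (∀ t ∈ Ω, ∑ k ∈ N, (∑ j, c k j t * exp (w j t)) * ∏ i, (Gamma (y i t))⁻¹ ^ k i = 0) →
  ∀ k ∈ N, ∀ j, ∀ t ∈ Ω, c k j t = 0

/-- the local step: everything on a punctured disc -/
theorem jlocal_step2 {ι J : Type} [Fintype ι] [Fintype J]
    (IH : ∀ (ι' J' : Type) [Fintype ι'] [Fintype J'],
      Fintype.card ι' + Fintype.card J' < Fintype.card ι + Fintype.card J → JGTfor2 ι' J')
    (r : ℝ) (hr : 0 < r) (hr1 : r < 1) (u : ℂ → ℂ) (Y : ι → ℂ → ℂ) (W : J → ℂ → ℂ)
    (N : Finset (ι → ℕ)) (C : (ι → ℕ) → J → ℂ → ℂ) (hY : ∀ i, Mer r (Y i)) (hW : ∀ j, Mer r (W j))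
    (hC : ∀ k ∈ N, ∀ j, Mer r (C k j)) (hud : DifferentiableOn ℂ u (U r))
    (e : ℕ) (he : 1 ≤ e) (tc : ℂ) (hu : ∀ s ∈ U r, u s = tc + s⁻¹ ^ e)
    (hnon : (∃ i, ∀ s ∈ U r, Y i s = u s) ∨ ∃ j l, ∀ s ∈ U r, W j s - W l s = u s)
    (hnu : ∀ v : ℂ, ¬ ∀ t ∈ U r, u t = v)
    (hnc : ∀ i, ∀ v : ℂ, ¬ ∀ t ∈ U r, Y i t = v)
    (hA : ∀ i, AlgDep (U r) u (Y i)) (hAW : ∀ j, AlgDep (U r) u (W j))
    (hAC : ∀ k ∈ N, ∀ j, AlgDep (U r) u (C k j))
    (hH : Ind (U r) Y)
    (hWne : ∀ j l, j ≠ l → ∀ v : ℂ, ¬ ∀ t ∈ U r, W j t - W l t = v)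
    (hrel : ∀ s ∈ U r, ∑ k ∈ N, (∑ j, C k j s * exp (W j s)) *
      ∏ i, (Gamma (Y i s))⁻¹ ^ k i = 0) :
    ∀ k ∈ N, ∀ j, ∀ s ∈ U r, C k j s = 0 := by
  classical
  let P : ι → Prop := fun i => ∃ (r' : ℝ) (m : ℕ) (a : ℂ) (K : ℝ), 0 < r' ∧ r' ≤ r ∧ 1 ≤ m ∧
    a ≠ 0 ∧ ∀ s ∈ U r', ‖Y i s - a * s⁻¹ ^ m‖ ≤ K * ‖s‖⁻¹ ^ (m - 1)
  have hrad : ∀ i, ∃ ri : ℝ, 0 < ri ∧ ri ≤ r ∧
      (P i → ∃ (m : ℕ) (a : ℂ) (K : ℝ), 1 ≤ m ∧ a ≠ 0 ∧
        ∀ s ∈ U ri, ‖Y i s - a * s⁻¹ ^ m‖ ≤ K * ‖s‖⁻¹ ^ (m - 1)) ∧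
      (¬ P i → ∃ B : ℝ, ∀ s ∈ U ri, ‖Y i s‖ ≤ B) := by
    intro i
    by_cases hP : P i
    · obtain ⟨r', m, a, K, h5, h6, h7, h8, h9⟩ := hP
      exact ⟨r', h5, h6, fun _ => ⟨m, a, K, h7, h8, h9⟩,
        fun hn => absurd ⟨r', m, a, K, h5, h6, h7, h8, h9⟩ hn⟩
    · rcases Pool.Agent.W505.GF.cls r (Y i) hr (hY i) with h5 | h5
      · obtain ⟨r', B, h6, h7, h8⟩ := h5
        exact ⟨r', h6, h7, fun h => absurd h hP, fun _ => ⟨B, h8⟩⟩
      · exact absurd h5 hP
  choose R hR0 hRr hRP hRn using hrad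
  choose q R' B' hq0 hR'0 hR'r hqB using fun j => polar' hr hr1 (hW j)
  obtain ⟨r1, hr1', hr1r, hr1R⟩ := exists_rad R hR0 hr
  obtain ⟨r0, hr0, hr0r1, hr0R'⟩ := exists_rad R' hR'0 hr1'
  have hr0R : ∀ i, r0 ≤ R i := fun i => hr0r1.trans (hr1R i)
  have hr0r : r0 ≤ r := hr0r1.trans hr1r
  have hr01 : r0 < 1 := lt_of_le_of_lt hr0r hr1
  have hH0 : Ind (U r0) Y := by
    refine hH.pattern ?_
    intro i l k k' p
    constructor
    · intro h t ht
      exact h t (U_subset hr0r ht)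
    · intro h t ht
      have h5 := ident_U hr0 hr0r (H := fun t => (Y i t - k) - (p * (Y l t - k')))
        (((hY i).1.sub_const _).sub (((hY l).1.sub_const _).const_mul _)) (fun s hs => by
          simp only [h s hs, sub_self]) t ht
      exact sub_eq_zero.1 h5
  have hirr0 : ∀ i, ∀ q : ℚ, ¬ ∀ t ∈ U r0, Y i t = q := by
    intro i q h
    apply hnc i q
    intro t ht
    have h7 := ident_U hr0 hr0r (H := fun t => Y i t - q) ((hY i).1.sub_const _)
      (fun s hs => by simp only [h s hs, sub_self]) t ht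
    exact sub_eq_zero.1 h7
  -- bounds for `1/Γ (Y i)`, `i ∉ P`
  have hbd : ∀ i, ¬ P i → ∃ B : ℝ, ∀ s ∈ U r0, ‖(Gamma (Y i s))⁻¹‖ ≤ B := by
    intro i hi
    obtain ⟨B, hB⟩ := hRn i hi
    obtain ⟨B', hB'⟩ := invGamma_bdd B
    exact ⟨B', fun s hs => hB' _ (hB s (U_subset (hr0R i) hs))⟩
  have hdG : ∀ i, DifferentiableOn ℂ (fun s => (Gamma (Y i s))⁻¹) (U r0) := by
    intro i
    exact differentiable_one_div_Gamma.comp_differentiableOn ((hY i).1.mono (U_subset hr0r))
  have hEd : ∀ j, DifferentiableOn ℂ (fun s => exp (W j s - (q j).eval s⁻¹)) (U r0) := by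
    intro j
    exact (((hW j).1.mono (U_subset hr0r)).sub (poly_diff (q j))).cexp
  have hEM : ∀ j, Mer r0 (fun s => exp (W j s - (q j).eval s⁻¹)) := by
    intro j
    apply Mer.of_bdd (C := Real.exp (B' j)) (hEd j)
    intro s hs
    rw [norm_exp]
    apply Real.exp_le_exp.2
    exact (re_le_norm _).trans (hqB j s (U_subset (hr0R' j) hs))
  let resP : (ι → ℕ) → ({i // P i} → ℕ) := fun k i => k i
  let resQ : (ι → ℕ) → ({i // ¬ P i} → ℕ) := fun k i => k i
  let glue : ({i // P i} → ℕ) → ({i // ¬ P i} → ℕ) → (ι → ℕ) := fun κ μ i =>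
    if h : P i then κ ⟨i, h⟩ else μ ⟨i, h⟩
  have hglue : ∀ k, glue (resP k) (resQ k) = k := by
    intro k
    funext i
    by_cases h : P i
    · simp [glue, resP, h]
    · simp [glue, resQ, h]
  let QJ : Finset (Polynomial ℂ) := Finset.univ.image q
  let D : ({i // P i} → ℕ) → {p // p ∈ QJ} → ℂ → ℂ := fun κ p s =>
    ∑ k ∈ N.filter (fun k => resP k = κ),
      (∑ j ∈ Finset.univ.filter (fun j => q j = p.1), C k j s * exp (W j s - (q j).eval s⁻¹)) *
        ∏ i : {i // ¬ P i}, (Gamma (Y i s))⁻¹ ^ k i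
  have hDrel : ∀ s ∈ U r0, ∑ κ ∈ N.image resP, (∑ p, D κ p s * exp (p.1.eval s⁻¹)) *
      ∏ i : {i // P i}, (Gamma (Y i s))⁻¹ ^ κ i = 0 := by
    intro s hs
    rw [← hrel s (U_subset hr0r hs)]
    rw [← Finset.sum_fiberwise_of_maps_to (s := N) (t := N.image resP) (g := resP)
      (fun k hk => Finset.mem_image_of_mem _ hk)]
    apply Finset.sum_congr rfl
    intro κ _
    have e1 : ∀ k, ∑ j, C k j s * exp (W j s) = ∑ p : {p // p ∈ QJ},
        (∑ j ∈ Finset.univ.filter (fun j => q j = p.1), C k j s * exp (W j s - (q j).eval s⁻¹)) *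
          exp (p.1.eval s⁻¹) := by
      intro k
      rw [Finset.sum_coe_sort QJ (fun p => (∑ j ∈ Finset.univ.filter (fun j => q j = p),
        C k j s * exp (W j s - (q j).eval s⁻¹)) * exp (p.eval s⁻¹))]
      rw [← Finset.sum_fiberwise_of_maps_to (s := Finset.univ) (t := QJ) (g := q)
        (fun j hj => Finset.mem_image_of_mem q hj)]
      apply Finset.sum_congr rfl
      intro p _
      rw [Finset.sum_mul]
      apply Finset.sum_congr rfl
      intro j hj
      rw [(Finset.mem_filter.1 hj).2, mul_assoc, ← exp_add, sub_add_cancel]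
    simp only [D]
    rw [Finset.sum_mul]
    have e2 : ∀ p : {p // p ∈ QJ}, (∑ k ∈ N.filter (fun k => resP k = κ),
        (∑ j ∈ Finset.univ.filter (fun j => q j = p.1), C k j s * exp (W j s - (q j).eval s⁻¹)) *
          ∏ i : {i // ¬ P i}, (Gamma (Y i s))⁻¹ ^ k i) * exp (p.1.eval s⁻¹) *
        ∏ i : {i // P i}, (Gamma (Y i s))⁻¹ ^ κ i =
        ∑ k ∈ N.filter (fun k => resP k = κ),
          ((∑ j ∈ Finset.univ.filter (fun j => q j = p.1),
            C k j s * exp (W j s - (q j).eval s⁻¹)) * exp (p.1.eval s⁻¹)) *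
            ∏ i, (Gamma (Y i s))⁻¹ ^ k i := by
      intro p
      rw [Finset.sum_mul, Finset.sum_mul]
      apply Finset.sum_congr rfl
      intro k hk
      have hk2 : resP k = κ := (Finset.mem_filter.1 hk).2
      rw [← Fintype.prod_subtype_mul_prod_subtype P (fun i => (Gamma (Y i s))⁻¹ ^ k i)]
      have : ∏ i : {i // P i}, (Gamma (Y i s))⁻¹ ^ κ i =
          ∏ i : {i // P i}, (Gamma (Y i s))⁻¹ ^ k i := by
        rw [← hk2]
      rw [this]
      ring
    rw [Finset.sum_congr rfl (fun p _ => e2 p), Finset.sum_comm]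
    apply Finset.sum_congr rfl
    intro k _
    rw [e1 k, Finset.sum_mul]
  have hDMer : ∀ κ ∈ N.image resP, ∀ p, Mer r0 (D κ p) := by
    intro κ _ p
    apply Mer.sum hr01
    intro k hk
    apply Mer.mul
    · apply Mer.sum hr01
      intro j _
      exact Mer.mul (Mer.mono hr0r (hC k (Finset.mem_filter.1 hk).1 j)) (hEM j)
    choose B hB using fun i : {i // ¬ P i} => hbd i.1 i.2
    apply Mer.of_bdd (C := ∏ i : {i // ¬ P i}, B i ^ k i)
    · apply DifferentiableOn.fun_finsetProd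
      intro i _
      exact (hdG i).pow _
    · intro s hs
      rw [norm_prod]
      apply Finset.prod_le_prod
      · intro i _
        exact norm_nonneg _
      · intro i _
        rw [norm_pow]
        exact pow_le_pow_left₀ (norm_nonneg _) (hB i s hs) _
  have hD0 : ∀ κ ∈ N.image resP, ∀ p, ∀ s ∈ U r0, D κ p s = 0 := by
    choose m a K hm ha hK using fun i : {i // P i} => hRP i.1 i.2
    refine jlt2 (∑ i, m i + ∑ j, (q j).natDegree) r0 {i // P i} {p // p ∈ QJ} (fun i => Y i)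
      (fun p => p.1) hr0 hr01 ?_ ?_ ?_ ?_ ?_ Subtype.val_injective (N.image resP) D hDMer hDrel
    · intro i
      exact (hY i).1.mono (U_subset hr0r)
    · intro i
      refine ⟨m i, a i, K i, hm i, ?_, ha i, fun s hs => hK i s (U_subset (hr0R i) hs)⟩
      exact (Finset.single_le_sum (fun _ _ => Nat.zero_le _) (Finset.mem_univ i)).trans
        (Nat.le_add_right _ _)
    · exact hH0.sub hirr0 (fun i : {i // P i} => i.1) Subtype.val_injective
    · intro p
      obtain ⟨j, -, hj⟩ := Finset.mem_image.1 p.2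
      rw [← hj]
      exact (Finset.single_le_sum (f := fun j => (q j).natDegree) (fun _ _ => Nat.zero_le _)
        (Finset.mem_univ j)).trans (Nat.le_add_left _ _)
    · intro p
      obtain ⟨j, -, hj⟩ := Finset.mem_image.1 p.2
      rw [← hj]
      exact hq0 j
  -- the cardinality decreases
  have hcardlt : ∀ p : Polynomial ℂ, Fintype.card {i // ¬ P i} + Fintype.card {j // q j = p} <
      Fintype.card ι + Fintype.card J := by
    intro p
    rcases hnon with ⟨i, hi⟩ | ⟨j, l, hjl⟩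
    · have hPi : P i := by
        refine ⟨r, e, 1, ‖tc‖, hr, le_refl _, he, one_ne_zero, fun s hs => ?_⟩
        rw [hi s hs, hu s hs]
        have h5 := inv_ge_one hr1 hs
        have h6 : (1 : ℝ) ≤ ‖s‖⁻¹ ^ (e - 1) := one_le_pow₀ h5
        calc ‖tc + s⁻¹ ^ e - 1 * s⁻¹ ^ e‖ = ‖tc‖ := by congr 1; ring
          _ = ‖tc‖ * 1 := (mul_one _).symm
          _ ≤ ‖tc‖ * ‖s‖⁻¹ ^ (e - 1) := mul_le_mul_of_nonneg_left h6 (norm_nonneg _)
      have h1 : Fintype.card {i // ¬ P i} < Fintype.card ι :=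
        Fintype.card_subtype_lt (x := i) (fun h => h hPi)
      have h2 : Fintype.card {j // q j = p} ≤ Fintype.card J := Fintype.card_subtype_le _
      omega
    · have hne : q j ≠ q l := by
        intro hql
        -- `u` would be bounded
        have hbu : ∀ s ∈ U r0, ‖u s‖ ≤ B' j + B' l := by
          intro s hs
          rw [← hjl s (U_subset hr0r hs)]
          have h1 := hqB j s (U_subset (hr0R' j) hs)
          have h2 := hqB l s (U_subset (hr0R' l) hs)
          calc ‖W j s - W l s‖ = ‖(W j s - (q j).eval s⁻¹) - (W l s - (q l).eval s⁻¹)‖ := by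
                rw [hql]; congr 1; ring
            _ ≤ _ := (norm_sub_le _ _).trans (add_le_add h1 h2)
        set x : ℝ := |B' j + B' l| + ‖tc‖ + 1 / r0 + 1 with hx
        have g1 : 0 ≤ |B' j + B' l| := abs_nonneg _
        have g2 : 0 < 1 / r0 := by positivity
        have g3 : 0 ≤ ‖tc‖ := norm_nonneg _
        have hx1 : 1 ≤ x := by linarith
        have hx0 : 0 < x := by linarith
        have hxn : ‖((x⁻¹ : ℝ) : ℂ)‖ = x⁻¹ := by
          rw [norm_real, Real.norm_eq_abs, abs_of_pos (inv_pos.2 hx0)]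
        have hs : ((x⁻¹ : ℝ) : ℂ) ∈ U r0 := by
          refine ⟨by rw [hxn]; exact inv_pos.2 hx0, ?_⟩
          rw [hxn]
          have : 1 / r0 < x := by linarith
          rw [one_div, inv_lt_comm₀ hr0 hx0] at this
          exact this
        have e1 := hbu _ hs
        rw [hu _ (U_subset hr0r hs)] at e1
        have e2 : ‖(((x⁻¹ : ℝ) : ℂ))⁻¹ ^ e‖ = x ^ e := by
          rw [norm_pow, norm_inv, hxn, inv_inv]
        have e3 : x ^ e ≤ ‖tc + (((x⁻¹ : ℝ) : ℂ))⁻¹ ^ e‖ + ‖tc‖ := by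
          rw [← e2]
          calc ‖(((x⁻¹ : ℝ) : ℂ))⁻¹ ^ e‖ = ‖(tc + (((x⁻¹ : ℝ) : ℂ))⁻¹ ^ e) - tc‖ := by
                congr 1; ring
            _ ≤ _ := norm_sub_le _ _
        have e4 : x ≤ x ^ e := le_self_pow₀ hx1 (by omega)
        have e5 := le_abs_self (B' j + B' l)
        linarith
      have h1 : Fintype.card {i // ¬ P i} ≤ Fintype.card ι := Fintype.card_subtype_le _
      have h2 : Fintype.card {j // q j = p} < Fintype.card J := by
        by_cases hj : q j = p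
        · exact Fintype.card_subtype_lt (x := l) (fun h => hne (hj.trans h.symm))
        · exact Fintype.card_subtype_lt (x := j) hj
      omega
  have hfin : ∀ k ∈ N, ∀ j, ∀ s ∈ U r0, C k j s = 0 := by
    intro k₀ hk₀ j₀
    have hκ : resP k₀ ∈ N.image resP := Finset.mem_image_of_mem _ hk₀
    have hqj : q j₀ ∈ QJ := Finset.mem_image_of_mem q (Finset.mem_univ j₀)
    have h5 := IH {i // ¬ P i} {j // q j = q j₀} (hcardlt (q j₀)) (U r0) u (fun i => Y i)
      (fun j => W j)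
      ((N.filter (fun k => resP k = resP k₀)).image resQ)
      (fun μ j => C (glue (resP k₀) μ) j) (isOpen_U r0) (isPreconnected_U r0) (nonempty_U hr0)
      (hud.mono (U_subset hr0r)) (fun i => (hY i).1.mono (U_subset hr0r))
      (fun j => (hW j).1.mono (U_subset hr0r))
    have hmem : ∀ μ ∈ (N.filter (fun k => resP k = resP k₀)).image resQ,
        glue (resP k₀) μ ∈ N := by
      intro μ hμ
      obtain ⟨k, hk, rfl⟩ := Finset.mem_image.1 hμ
      obtain ⟨hk1, hk2⟩ := Finset.mem_filter.1 hk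
      rw [← hk2, hglue]
      exact hk1
    have h6 := h5 (fun μ hμ j => ((hC _ (hmem μ hμ) j).1).mono (U_subset hr0r)) ?_ ?_
      (fun i => AlgDep.mono (U_subset hr0r) (hA i))
      (fun j => AlgDep.mono (U_subset hr0r) (hAW j))
      (fun μ hμ j => AlgDep.mono (U_subset hr0r) (hAC _ (hmem μ hμ) j)) ?_ ?_ ?_
      (resQ k₀) (Finset.mem_image_of_mem _ (Finset.mem_filter.2 ⟨hk₀, rfl⟩)) ⟨j₀, rfl⟩
    · intro s hs
      have := h6 s hs
      simp only [hglue] at this
      exact this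
    · intro v hv
      apply hnu v
      intro t ht
      have h7 := ident_U hr0 hr0r (H := fun t => u t - v) (hud.sub_const _)
        (fun s hs => by simp only [hv s hs, sub_self]) t ht
      exact sub_eq_zero.1 h7
    · intro i v hv
      apply hnc i v
      intro t ht
      have h7 := ident_U hr0 hr0r (H := fun t => Y i t - v) ((hY i).1.sub_const _)
        (fun s hs => by simp only [hv s hs, sub_self]) t ht
      exact sub_eq_zero.1 h7
    · exact hH0.sub hirr0 (fun i : {i // ¬ P i} => i.1) Subtype.val_injective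
    · intro j l hjl v hcon
      apply hWne j.1 l.1 (fun h => hjl (Subtype.ext h)) v
      intro t ht
      have h7 := ident_U hr0 hr0r (H := fun t => W j t - W l t - v)
        (((hW j).1.sub (hW l).1).sub_const _) (fun s hs => by
          simp only [hcon s hs, sub_self]) t ht
      exact sub_eq_zero.1 h7
    · intro s hs
      have h7 := hD0 _ hκ ⟨q j₀, hqj⟩ s hs
      simp only [D] at h7
      have h8 := congrArg (fun x => exp ((q j₀).eval s⁻¹) * x) h7
      simp only [mul_zero] at h8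
      rw [← h8]
      rw [Finset.sum_image]
      · rw [Finset.mul_sum]
        apply Finset.sum_congr rfl
        intro k hk
        obtain ⟨hk1, hk2⟩ := Finset.mem_filter.1 hk
        have h9 : glue (resP k₀) (resQ k) = k := by
          rw [← hk2, hglue]
        rw [h9, ← mul_assoc]
        congr 1
        rw [Finset.mul_sum, ← Finset.sum_subtype_eq_sum_filter, Finset.subtype_univ]
        apply Finset.sum_congr rfl
        intro j _
        have h10 : exp (W j.1 s) = exp ((q j₀).eval s⁻¹) * exp (W j.1 s - (q j.1).eval s⁻¹) := by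
          rw [← exp_add, j.2]
          congr 1
          ring
        rw [h10]
        ring
      · intro k hk k' hk' hkk
        have hk2 := (Finset.mem_filter.1 hk).2
        have hk2' := (Finset.mem_filter.1 hk').2
        rw [← hglue k, ← hglue k', hk2, hk2', hkk]
  intro k hk j
  exact ident_U hr0 hr0r (hC k hk j).1 (hfin k hk j)

/-- the inductive step at a place where the nonconstant function `u` has a pole -/
theorem jstep2 {ι J : Type} [Fintype ι] [Fintype J]
    (IH : ∀ (ι' J' : Type) [Fintype ι'] [Fintype J'],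
      Fintype.card ι' + Fintype.card J' < Fintype.card ι + Fintype.card J → JGTfor2 ι' J')
    (Ω : Set ℂ) (t₀ u : ℂ → ℂ) (y : ι → ℂ → ℂ) (w : J → ℂ → ℂ)
    (N : Finset (ι → ℕ)) (c : (ι → ℕ) → J → ℂ → ℂ) (hΩ : IsOpen Ω) (hΩc : IsPreconnected Ω)
    (hΩn : Ω.Nonempty)
    (ht₀ : DifferentiableOn ℂ t₀ Ω) (hy : ∀ i, DifferentiableOn ℂ (y i) Ω)
    (hw : ∀ j, DifferentiableOn ℂ (w j) Ω)
    (hc : ∀ k ∈ N, ∀ j, DifferentiableOn ℂ (c k j) Ω)
    (hnt₀ : ∀ v : ℂ, ¬ ∀ t ∈ Ω, t₀ t = v) (hny : ∀ i, ∀ v : ℂ, ¬ ∀ t ∈ Ω, y i t = v)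
    (hAy : ∀ i, AlgDep Ω t₀ (y i)) (hAw : ∀ j, AlgDep Ω t₀ (w j))
    (hAc : ∀ k ∈ N, ∀ j, AlgDep Ω t₀ (c k j))
    (hH : Ind Ω y)
    (hwne : ∀ j l, j ≠ l → ∀ v : ℂ, ¬ ∀ t ∈ Ω, w j t - w l t = v)
    (hrel : ∀ t ∈ Ω, ∑ k ∈ N, (∑ j, c k j t * exp (w j t)) * ∏ i, (Gamma (y i t))⁻¹ ^ k i = 0)
    (hu : DifferentiableOn ℂ u Ω) (hnu : ∀ v : ℂ, ¬ ∀ t ∈ Ω, u t = v) (hAu : AlgDep Ω t₀ u)
    (hcase : (∃ i, ∀ t ∈ Ω, y i t = u t) ∨ ∃ j l, ∀ t ∈ Ω, w j t - w l t = u t) :
    ∀ k ∈ N, ∀ j, ∀ t ∈ Ω, c k j t = 0 := by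
  classical
  obtain ⟨Ω', g, hΩ', hΩ'c, hΩ'n, hg, hgΩ, hyg, hgo⟩ := loc_inv hΩ hΩc hu hnu
  have htr : ∀ H : ℂ → ℂ, DifferentiableOn ℂ H Ω → (∀ x ∈ Ω', H (g x) = 0) →
      ∀ t ∈ Ω, H t = 0 := by
    intro H hHd hH0
    apply ident hΩ hΩc hHd hgo (hΩ'n.image g)
    · rintro _ ⟨x, hx, rfl⟩
      exact hgΩ x hx
    · rintro _ ⟨x, hx, rfl⟩
      exact hH0 x hx
  have hcomp : ∀ H : ℂ → ℂ, DifferentiableOn ℂ H Ω →
      DifferentiableOn ℂ (fun x => H (g x)) Ω' := fun H hHd => hHd.comp hg (fun x hx => hgΩ x hx)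
  have hncomp : ∀ H : ℂ → ℂ, DifferentiableOn ℂ H Ω → (∀ v : ℂ, ¬ ∀ t ∈ Ω, H t = v) →
      ∀ v : ℂ, ¬ ∀ x ∈ Ω', H (g x) = v := by
    intro H hHd hHn v hv
    apply hHn v
    intro t ht
    exact sub_eq_zero.1 (htr (fun t => H t - v) (hHd.sub_const _)
      (fun x hx => by simp only [hv x hx, sub_self]) t ht)
  have hAcomp : ∀ f H : ℂ → ℂ, AlgDep Ω f H →
      AlgDep Ω' (fun x => f (g x)) (fun x => H (g x)) := by
    rintro f H ⟨Q, hQ, hQ0⟩
    exact ⟨Q, hQ, fun x hx => hQ0 _ (hgΩ x hx)⟩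
  -- all functions are algebraic over `u`
  have hA1 : ∀ H : ℂ → ℂ, DifferentiableOn ℂ H Ω → AlgDep Ω t₀ H →
      AlgDep Ω' (fun x => u (g x)) (fun x => H (g x)) := by
    intro H hHd hHA
    exact Pool.Agent.W462.GF.alg Ω' (fun x => t₀ (g x)) _ _ hΩ' hΩ'c hΩ'n (hcomp _ ht₀)
      (hcomp _ hu) (hcomp _ hHd) (hncomp _ ht₀ hnt₀) (hncomp _ hu hnu) (hAcomp _ _ hAu)
      (hAcomp _ _ hHA)
  let f : Option (ι ⊕ (J ⊕ ({k // k ∈ N} × J))) → ℂ → ℂ := fun o => o.elim (fun x => u (g x))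
    (Sum.elim (fun i x => y i (g x)) (Sum.elim (fun j x => w j (g x))
      (fun kj x => c kj.1.1 kj.2 (g x))))
  obtain ⟨e, r, tc, F, he, hr, hr1, hFj, hFM, htrans⟩ := contF Ω'
    (Option (ι ⊕ (J ⊕ ({k // k ∈ N} × J)))) none f
    hΩ' hΩ'c hΩ'n (by
      rintro (_ | i | j | kj)
      · exact hcomp _ hu
      · exact hcomp _ (hy i)
      · exact hcomp _ (hw j)
      · exact hcomp _ (hc kj.1.1 kj.1.2 kj.2)) (fun x hx => hyg x hx) (by
      rintro (_ | i | j | kj)
      · exact hA1 _ hu hAu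
      · exact hA1 _ (hy i) (hAy i)
      · exact hA1 _ (hw j) (hAw j)
      · exact hA1 _ (hc kj.1.1 kj.1.2 kj.2) (hAc kj.1.1 kj.1.2 kj.2))
  have hAF : ∀ a, AlgDep Ω' (f none) (f a) → AlgDep (U r) (F none) (F a) := by
    rintro a ⟨Q, hQ, hQ0⟩
    refine ⟨Q, hQ, ?_⟩
    exact (htrans (fun x => Q.evalEval (x none) (x a)) (diff_evalEval Q _ _)).1 hQ0
  have hfin : ∀ k ∈ N, ∀ j, ∀ s ∈ U r,
      (fun k j s => if h : k ∈ N then F (some (Sum.inr (Sum.inr (⟨k, h⟩, j)))) s else 0) k j s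
        = 0 := by
    apply jlocal_step2 IH r hr hr1 (F none) (fun i => F (some (Sum.inl i)))
      (fun j => F (some (Sum.inr (Sum.inl j)))) N _ (fun i => hFM _) (fun j => hFM _) ?_
      (hFM none).1 e he tc hFj ?_ ?_ ?_ ?_ ?_ ?_ ?_ ?_ ?_
    · intro k hk j
      simp only [hk, dite_true]
      exact hFM _
    · rcases hcase with ⟨i, hi⟩ | ⟨j, l, hjl⟩
      · left
        refine ⟨i, fun s hs => ?_⟩
        exact sub_eq_zero.1 ((htrans (fun x => x (some (Sum.inl i)) - x none)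
          ((differentiable_apply _).sub (differentiable_apply _))).1
          (fun x hx => sub_eq_zero.2 (hi (g x) (hgΩ x hx))) s hs)
      · right
        refine ⟨j, l, fun s hs => ?_⟩
        exact sub_eq_zero.1 ((htrans (fun x => x (some (Sum.inr (Sum.inl j))) -
          x (some (Sum.inr (Sum.inl l))) - x none)
          (((differentiable_apply _).sub (differentiable_apply _)).sub
            (differentiable_apply _))).1
          (fun x hx => sub_eq_zero.2 (hjl (g x) (hgΩ x hx))) s hs)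
    · intro v hv
      apply hncomp _ hu hnu v
      intro x hx
      exact sub_eq_zero.1 ((htrans (fun x => x none - v)
        ((differentiable_apply _).sub_const _)).2
        (fun s hs => by simp only [hv s hs, sub_self]) x hx)
    · intro i v hv
      apply hncomp _ (hy i) (hny i) v
      intro x hx
      exact sub_eq_zero.1 ((htrans (fun x => x (some (Sum.inl i)) - v)
        ((differentiable_apply _).sub_const _)).2
        (fun s hs => by simp only [hv s hs, sub_self]) x hx)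
    · intro i
      exact hAF (some (Sum.inl i)) (hA1 _ (hy i) (hAy i))
    · intro j
      exact hAF (some (Sum.inr (Sum.inl j))) (hA1 _ (hw j) (hAw j))
    · intro k hk j
      simp only [hk, dite_true]
      exact hAF (some (Sum.inr (Sum.inr (⟨k, hk⟩, j)))) (hA1 _ (hc k hk j) (hAc k hk j))
    · refine hH.pattern ?_
      intro i l k k' p
      have hd : Differentiable ℂ (fun x : Option (ι ⊕ (J ⊕ ({k // k ∈ N} × J))) → ℂ =>
          (x (some (Sum.inl i)) - k) - (p * (x (some (Sum.inl l)) - k'))) :=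
        ((differentiable_apply _).sub_const _).sub
          (((differentiable_apply _).sub_const _).const_mul _)
      constructor
      · intro h s hs
        exact sub_eq_zero.1 ((htrans _ hd).1
          (fun x hx => sub_eq_zero.2 (h (g x) (hgΩ x hx))) s hs)
      · intro h t ht
        refine sub_eq_zero.1 (htr (fun t => (y i t - k) - (p * (y l t - k')))
          (((hy i).sub_const _).sub (((hy l).sub_const _).const_mul _)) ?_ t ht)
        intro x hx
        exact (htrans _ hd).2 (fun s hs => by simp only [h s hs, sub_self]) x hx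
    · intro j l hjl v hcon
      apply hwne j l hjl v
      intro t ht
      refine sub_eq_zero.1 (htr (fun t => w j t - w l t - v)
        (((hw j).sub (hw l)).sub_const _) ?_ t ht)
      intro x hx
      exact (htrans (fun x => x (some (Sum.inr (Sum.inl j))) -
          x (some (Sum.inr (Sum.inl l))) - v)
        (((differentiable_apply _).sub (differentiable_apply _)).sub_const _)).2
        (fun s hs => by simp only [hcon s hs, sub_self]) x hx
    · have h5 := (htrans (fun x => ∑ k : {k // k ∈ N},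
        (∑ j, x (some (Sum.inr (Sum.inr (k, j)))) * exp (x (some (Sum.inr (Sum.inl j))))) *
        ∏ i, (Gamma (x (some (Sum.inl i))))⁻¹ ^ k.1 i) ?_).1 ?_
      · intro s hs
        have h6 := h5 s hs
        rw [← h6]
        rw [← Finset.sum_coe_sort N]
        apply Finset.sum_congr rfl
        intro k _
        simp only [k.2, dite_true]
      · apply Differentiable.fun_sum
        intro k _
        apply Differentiable.mul
        · apply Differentiable.fun_sum
          intro j _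
          exact (differentiable_apply _).mul (differentiable_apply _).cexp
        · apply diff_prod
          intro i _
          exact (differentiable_one_div_Gamma.comp (differentiable_apply _)).pow _
      · intro x hx
        have h6 := hrel (g x) (hgΩ x hx)
        rw [← Finset.sum_coe_sort N] at h6
        exact h6
  intro k hk j
  apply htr (c k j) (hc k hk j)
  intro x hx
  refine (htrans (fun x => x (some (Sum.inr (Sum.inr (⟨k, hk⟩, j))))) (differentiable_apply _)).2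
    ?_ x hx
  intro s hs
  have h5 := hfin k hk j s hs
  simp only [hk, dite_true] at h5
  exact h5

/-- the global theorem -/
theorem jgt2 (ι J : Type) [Fintype ι] [Fintype J] : JGTfor2 ι J := by
  classical
  suffices h : ∀ (n : ℕ) (ι J : Type) [Fintype ι] [Fintype J],
      Fintype.card ι + Fintype.card J = n → JGTfor2 ι J from h _ ι J rfl
  intro n
  induction n using Nat.strong_induction_on with
  | _ n IHn =>
  intro ι J _ _ hn
  have IH : ∀ (ι' J' : Type) [Fintype ι'] [Fintype J'],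
      Fintype.card ι' + Fintype.card J' < Fintype.card ι + Fintype.card J → JGTfor2 ι' J' := by
    intro ι' J' _ _ hlt
    exact IHn _ (hn ▸ hlt) ι' J' rfl
  intro Ω t₀ y w N c hΩ hΩc hΩn ht₀ hy hw hc hnt₀ hny hAy hAw hAc hH hwne hrel
  rcases isEmpty_or_nonempty ι with hemp | ⟨⟨i₀⟩⟩
  · by_cases hJ : ∃ j l : J, j ≠ l
    · obtain ⟨j, l, hjl⟩ := hJ
      exact jstep2 IH Ω t₀ (fun t => w j t - w l t) y w N c hΩ hΩc hΩn ht₀ hy hw hc hnt₀ hny hAy
        hAw hAc hH hwne hrel ((hw j).sub (hw l)) (hwne j l hjl) (AlgDep.sub' (hAw j) (hAw l))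
        (Or.inr ⟨j, l, fun t _ => rfl⟩)
    · push Not at hJ
      intro k hk j t ht
      have h5 := hrel t ht
      rw [Finset.sum_eq_single k] at h5
      · rw [Finset.sum_eq_single j] at h5
        · simpa using h5
        · intro b _ hb
          exact absurd (hJ b j) hb
        · intro h6
          exact absurd (Finset.mem_univ j) h6
      · intro b _ hb
        exact absurd (Subsingleton.elim b k) hb
      · intro h6
        exact absurd hk h6
  · exact jstep2 IH Ω t₀ (y i₀) y w N c hΩ hΩc hΩn ht₀ hy hw hc hnt₀ hny hAy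
      hAw hAc hH hwne hrel (hy i₀) (hny i₀) (hAy i₀) (Or.inl ⟨i₀, fun t _ => rfl⟩)

end Pool.Agent.K9h73.EX
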