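import Pool.Agent.W175.GF.Final
import Pool.Agent.W712.GF.LT

/-!
The local theorem for the Gamma function and the exponential function jointly.
-/

set_option autoImplicit false

namespace Pool.Agent.K9h73.EX

open Complex Pool.Agent.W175.GF

/-- separation of exponentials with slow coefficients on a punctured disc -/
theorem ep_sep {m : ℕ} (hm : 1 ≤ m) {r : ℝ} (hr : 0 < r) (W : Finset ℂ) (R : ℂ → ℂ → ℂ)
    (hR : ∀ ω ∈ W, Slow m r (R ω))
    (h : ∀ s ∈ U r, ∑ ω ∈ W, R ω s * exp (ω * s⁻¹ ^ m) = 0) :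
    ∀ ω ∈ W, ∀ s ∈ U r, R ω s = 0 := by
  classical
  intro ω hω
  have hζ : ‖(1 : ℂ)‖ = 1 := norm_one
  have hpi : (3 : ℝ) < Real.pi := Real.pi_gt_three
  set ρ : ℝ := max 1 (r⁻¹ ^ m) with hρ
  have hρ1 : 1 ≤ ρ := le_max_left _ _
  have hρr : r⁻¹ ^ m ≤ ρ := le_max_right _ _
  have h1 : -(Real.pi / 2) < (0 : ℝ) := by linarith
  have h3 : (1 : ℝ) < Real.pi / 2 := by linarith
  have hslow : ∀ ω ∈ W, SlowH 0 1 ρ (fun τ => R ω (sg 1 m τ)) := fun ω hω =>
    slowH_of_slow hζ hm hr h1 h3 hρr (hR ω hω)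
  have key := sepm sepF h1 (zero_lt_one) h3 hρ1 W (fun μ => ((0 : ℂ), μ))
    (fun ω τ => R ω (sg 1 m τ)) hslow (by
      intro ψ hψ τ hτ
      have hτn := Hp_norm hτ
      have hτ0 : τ ≠ 0 := by
        rintro rfl
        rw [norm_zero] at hτn
        linarith
      have h5 := h (sg 1 m τ) (sg_mem hζ hm hr (lt_of_le_of_lt hρr hτn))
      refine Eq.trans (Finset.sum_congr rfl fun μ _ => ?_) h5
      rw [sg_inv_pow hm hτ0]
      simp) (0, ω)
  have hψ : ((1 / 2 : ℝ)) ∈ Set.Ioo (0 : ℝ) 1 := ⟨by norm_num, by norm_num⟩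
  refine of_fan (ψ := 1 / 2) (ρ := ρ) hζ hm hr ?_ (by linarith) (hR ω hω).1 ?_
  · rw [abs_lt]
    constructor <;> linarith
  · intro τ hτ
    have h6 := key (1 / 2) hψ τ hτ
    rw [Finset.sum_eq_single ω] at h6
    · exact h6
    · intro b hb hne
      exfalso
      apply hne
      have := (Finset.mem_filter.1 hb).2
      exact (Prod.mk.inj this).2
    · intro hnot
      exfalso
      apply hnot
      rw [Finset.mem_filter]
      exact ⟨hω, rfl⟩

/-- polynomials in `1 / s` -/
lemma poly_bd {r : ℝ} (hr1 : r < 1) (q : Polynomial ℂ) (D : ℕ) (hq : q.natDegree ≤ D) :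
    ∃ K : ℝ, ∀ s ∈ U r, ‖q.eval s⁻¹‖ ≤ K * ‖s‖⁻¹ ^ D := by
  refine ⟨∑ l ∈ Finset.range (q.natDegree + 1), ‖q.coeff l‖, fun s hs => ?_⟩
  have hx : 1 ≤ ‖s‖⁻¹ := Pool.Agent.W712.GF.U_inv hr1 hs
  rw [Polynomial.eval_eq_sum_range, Finset.sum_mul]
  refine (norm_sum_le _ _).trans (Finset.sum_le_sum fun l hl => ?_)
  rw [norm_mul, norm_pow, norm_inv]
  apply mul_le_mul_of_nonneg_left _ (norm_nonneg _)
  apply pow_le_pow_right₀ hx
  have := Finset.mem_range.1 hl
  omega

lemma poly_diff {r : ℝ} (q : Polynomial ℂ) : DifferentiableOn ℂ (fun s : ℂ => q.eval s⁻¹) (U r) := by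
  have h1 : DifferentiableOn ℂ (fun s : ℂ => s⁻¹) (U r) :=
    differentiableOn_id.inv fun s hs => U_ne hs
  exact q.differentiable.comp_differentiableOn h1

/-- the local theorem -/
theorem jlt : ∀ (M : ℕ) (r : ℝ) (ι J : Type) [Fintype ι] [Fintype J] (z : ι → ℂ → ℂ)
    (p : J → Polynomial ℂ), 0 < r → r < 1 →
    (∀ i, DifferentiableOn ℂ (z i) (U r)) →
    (∀ i, ∃ (m : ℕ) (a : ℂ) (K : ℝ), 1 ≤ m ∧ m ≤ M ∧ a ≠ 0 ∧
      ∀ s ∈ U r, ‖z i s - a * s⁻¹ ^ m‖ ≤ K * ‖s‖⁻¹ ^ (m - 1)) →
    (∀ i j, i ≠ j → ∀ p q : ℚ, ¬ ∀ s ∈ U r, z i s = p * z j s + q) →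
    (∀ j, (p j).natDegree ≤ M) → (∀ j, (p j).coeff 0 = 0) → Function.Injective p →
    ∀ (N : Finset (ι → ℕ)) (c : (ι → ℕ) → J → ℂ → ℂ), (∀ k ∈ N, ∀ j, Mer r (c k j)) →
    (∀ s ∈ U r, ∑ k ∈ N, (∑ j, c k j s * exp ((p j).eval s⁻¹)) *
      ∏ i, (Gamma (z i s))⁻¹ ^ k i = 0) →
    ∀ k ∈ N, ∀ j, ∀ s ∈ U r, c k j s = 0 := by
  classical
  intro M
  induction M with
  | zero =>
    intro r ι J _ _ z p hr0 hr1 hz hpole hind hdeg hp0 hinj N c hc hrel k hk j s hs
    have hι : IsEmpty ι := by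
      refine ⟨fun i => ?_⟩
      obtain ⟨m, a, K, h1, h2, -⟩ := hpole i
      omega
    have hpz : ∀ j, p j = 0 := by
      intro j
      rw [Polynomial.eq_C_of_natDegree_le_zero (hdeg j), hp0 j, Polynomial.C_0]
    have hJ : ∀ j', j' = j := fun j' => hinj ((hpz j').trans (hpz j).symm)
    have h1 := hrel s hs
    rw [Finset.sum_eq_single k] at h1
    · rw [Finset.sum_eq_single j] at h1
      · simpa [hpz j] using h1
      · intro b _ hb
        exact absurd (hJ b) hb
      · intro h2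
        exact absurd (Finset.mem_univ j) h2
    · intro b _ hb
      exact absurd (Subsingleton.elim b k) hb
    · intro h2
      exact absurd hk h2
  | succ M ih =>
    intro r ι J _ _ z p hr0 hr1 hz hpole hind hdeg hp0 hinj N c hc hrel
    choose m a K hm hmM ha hK using hpole
    have hM1 : 1 ≤ M + 1 := by omega
    let res : (ι → ℕ) → ({i : ι // m i = M + 1} → ℕ) := fun k t => k t.1
    let rec' : (ι → ℕ) → ({i : ι // ¬ m i = M + 1} → ℕ) := fun k t => k t.1
    let glue : ({i : ι // m i = M + 1} → ℕ) → ({i : ι // ¬ m i = M + 1} → ℕ) → (ι → ℕ) :=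
      fun κ k' i => if hi : m i = M + 1 then κ ⟨i, hi⟩ else k' ⟨i, hi⟩
    have hglue : ∀ k : ι → ℕ, glue (res k) (rec' k) = k := by
      intro k; funext i
      simp only [glue, res, rec']
      split_ifs <;> rfl
    -- leading coefficients of the exponents
    let lc : J → ℂ := fun j => (p j).coeff (M + 1)
    let p' : J → Polynomial ℂ := fun j => p j - Polynomial.C (lc j) * Polynomial.X ^ (M + 1)
    have hp'deg : ∀ j, (p' j).natDegree ≤ M := by
      intro j
      rw [Polynomial.natDegree_le_iff_coeff_eq_zero]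
      intro l hl
      simp only [p', lc, Polynomial.coeff_sub, Polynomial.coeff_C_mul, Polynomial.coeff_X_pow]
      by_cases h : l = M + 1
      · rw [if_pos h, h]; ring
      · rw [if_neg h, Polynomial.coeff_eq_zero_of_natDegree_lt (by have := hdeg j; omega)]
        ring
    have hp'0 : ∀ j, (p' j).coeff 0 = 0 := by
      intro j
      simp only [p', Polynomial.coeff_sub, Polynomial.coeff_C_mul, Polynomial.coeff_X_pow, hp0 j]
      simp
    have hp'e : ∀ j s, exp ((p j).eval s⁻¹) =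
        exp ((p' j).eval s⁻¹) * exp (lc j * s⁻¹ ^ (M + 1)) := by
      intro j s
      rw [← exp_add]
      congr 1
      simp [p']
    let B : Finset ℂ := Finset.univ.image lc
    let CC : ({i : ι // m i = M + 1} → ℕ) → ℂ → ℂ → ℂ := fun κ b s =>
      ∑ k ∈ N.filter (fun k => res k = κ),
        (∑ j ∈ Finset.univ.filter (fun j => lc j = b), c k j s * exp ((p' j).eval s⁻¹)) *
        ∏ i : {i : ι // ¬ m i = M + 1}, (Gamma (z i.1 s))⁻¹ ^ k i.1
    have hCCslow : ∀ κ b, Slow (M + 1) r (CC κ b) := by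
      intro κ b
      apply Slow.sum
      intro k hk
      apply Slow.mul
      · apply Slow.sum
        intro j _
        apply Slow.mul (Slow.of_mer hM1 hr1.le (hc k (Finset.mem_filter.1 hk).1 j))
        obtain ⟨K', hK'⟩ := poly_bd hr1 (p' j) M (hp'deg j)
        apply Slow.exp_of_lower hM1 (poly_diff (p' j)) K'
        intro s hs
        simpa using hK' s hs
      · apply Slow.prod
        intro i _
        apply Slow.pow
        have hlt : m i.1 ≤ M := by
          have h1 := hmM i.1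
          have h2 := i.2
          omega
        apply Pool.Agent.W712.GF.slow_rg rgF hM1 hr1 (hz i.1) (|K i.1| + ‖a i.1‖)
        intro s hs
        have hx := Pool.Agent.W712.GF.U_inv hr1 hs
        have h3 : ‖s‖⁻¹ ^ (m i.1 - 1) ≤ ‖s‖⁻¹ ^ (M + 1 - 1) := pow_le_pow_right₀ hx (by omega)
        have h4 : ‖s‖⁻¹ ^ (m i.1) ≤ ‖s‖⁻¹ ^ (M + 1 - 1) := pow_le_pow_right₀ hx (by omega)
        calc ‖z i.1 s‖ = ‖(z i.1 s - a i.1 * s⁻¹ ^ m i.1) + a i.1 * s⁻¹ ^ m i.1‖ := by
              congr 1; ring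
          _ ≤ ‖z i.1 s - a i.1 * s⁻¹ ^ m i.1‖ + ‖a i.1 * s⁻¹ ^ m i.1‖ := norm_add_le _ _
          _ ≤ K i.1 * ‖s‖⁻¹ ^ (m i.1 - 1) + ‖a i.1‖ * ‖s‖⁻¹ ^ m i.1 := by
              apply add_le_add (hK i.1 s hs)
              rw [norm_mul, norm_pow, norm_inv]
          _ ≤ |K i.1| * ‖s‖⁻¹ ^ (M + 1 - 1) + ‖a i.1‖ * ‖s‖⁻¹ ^ (M + 1 - 1) := by
              apply add_le_add
              · calc K i.1 * ‖s‖⁻¹ ^ (m i.1 - 1) ≤ |K i.1| * ‖s‖⁻¹ ^ (m i.1 - 1) :=
                      mul_le_mul_of_nonneg_right (le_abs_self _) (by positivity)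
                  _ ≤ _ := mul_le_mul_of_nonneg_left h3 (abs_nonneg _)
              · exact mul_le_mul_of_nonneg_left h4 (norm_nonneg _)
          _ = (|K i.1| + ‖a i.1‖) * ‖s‖⁻¹ ^ (M + 1 - 1) := by ring
    have hCCzero : ∀ κ ∈ N.image res, ∀ s ∈ U r,
        ∑ b ∈ B, CC κ b s * exp (b * s⁻¹ ^ (M + 1)) = 0 := by
      have key := tgF (M + 1) r {i : ι // m i = M + 1} (fun i => a i.1)
        (fun i s => z i.1 s - a i.1 * s⁻¹ ^ (M + 1)) (∑ i, |K i|) hM1 hr0 hr1 (fun i => ha i.1)
        (fun i => (hz i.1).sub (Pool.Agent.W712.GF.diff_inv_pow (a i.1) (M + 1))) ?_ ?_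
        (N.image res) (fun κ s => ∑ b ∈ B, CC κ b s * exp (b * s⁻¹ ^ (M + 1)))
        (fun κ _ => EP.sum _ _ fun b _ => EP.single (hCCslow κ b) b) ?_
      · exact key
      · intro i s hs
        have h1 := hK i.1 s hs
        rw [i.2] at h1
        refine h1.trans (mul_le_mul_of_nonneg_right ?_ (by positivity))
        exact (le_abs_self _).trans
          (Finset.single_le_sum (f := fun i => |K i|) (fun i _ => abs_nonneg _)
            (Finset.mem_univ i.1))
      · intro i j hij p q hcon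
        apply hind i.1 j.1 (fun h' => hij (Subtype.ext h')) p q
        intro s hs
        have := hcon s hs
        simpa using this
      · intro s hs
        rw [← hrel s hs]
        rw [← Finset.sum_fiberwise_of_maps_to (s := N) (t := N.image res) (g := res)
          (fun k hk => Finset.mem_image_of_mem res hk)]
        apply Finset.sum_congr rfl
        intro κ hκ
        simp only [CC]
        have e1 : ∀ k, ∑ j, c k j s * exp ((p j).eval s⁻¹) = ∑ b ∈ B,
            (∑ j ∈ Finset.univ.filter (fun j => lc j = b), c k j s * exp ((p' j).eval s⁻¹)) *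
              exp (b * s⁻¹ ^ (M + 1)) := by
          intro k
          rw [← Finset.sum_fiberwise_of_maps_to (s := Finset.univ) (t := B) (g := lc)
            (fun j hj => Finset.mem_image_of_mem lc hj)]
          apply Finset.sum_congr rfl
          intro b _
          rw [Finset.sum_mul]
          apply Finset.sum_congr rfl
          intro j hj
          rw [hp'e j s, (Finset.mem_filter.1 hj).2, mul_assoc]
        rw [Finset.sum_mul]
        have e2 : ∀ b ∈ B, (∑ k ∈ N.filter (fun k => res k = κ),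
            (∑ j ∈ Finset.univ.filter (fun j => lc j = b), c k j s * exp ((p' j).eval s⁻¹)) *
            ∏ i : {i : ι // ¬ m i = M + 1}, (Gamma (z i.1 s))⁻¹ ^ k i.1) *
              exp (b * s⁻¹ ^ (M + 1)) *
            ∏ i : {i : ι // m i = M + 1},
              (Gamma (a i.1 * s⁻¹ ^ (M + 1) + (z i.1 s - a i.1 * s⁻¹ ^ (M + 1))))⁻¹ ^ κ i =
            ∑ k ∈ N.filter (fun k => res k = κ),
              ((∑ j ∈ Finset.univ.filter (fun j => lc j = b), c k j s * exp ((p' j).eval s⁻¹)) *
                exp (b * s⁻¹ ^ (M + 1))) * ∏ i, (Gamma (z i s))⁻¹ ^ k i := by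
          intro b _
          rw [Finset.sum_mul, Finset.sum_mul]
          apply Finset.sum_congr rfl
          intro k hk
          have hk2 : res k = κ := (Finset.mem_filter.1 hk).2
          rw [← Fintype.prod_subtype_mul_prod_subtype (fun i => m i = M + 1)
            (fun i => (Gamma (z i s))⁻¹ ^ k i)]
          rw [← hk2]
          simp only [res, add_sub_cancel]
          ring
        rw [Finset.sum_congr rfl e2, Finset.sum_comm]
        apply Finset.sum_congr rfl
        intro k _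
        rw [e1 k, Finset.sum_mul]
    have hCC0 : ∀ κ ∈ N.image res, ∀ b ∈ B, ∀ s ∈ U r, CC κ b s = 0 := fun κ hκ =>
      ep_sep hM1 hr0 B (CC κ) (fun b _ => hCCslow κ b) (hCCzero κ hκ)
    intro k hk j s hs
    set κ := res k with hκ
    set b := lc j with hb
    set N' := (N.filter (fun k => res k = κ)).image rec' with hN'
    have hinj' : Set.InjOn rec' (N.filter (fun k => res k = κ) : Finset (ι → ℕ)) := by
      intro k1 hk1 k2 hk2 heq
      have e1 : res k1 = κ := (Finset.mem_filter.1 (Finset.mem_coe.1 hk1)).2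
      have e2 : res k2 = κ := (Finset.mem_filter.1 (Finset.mem_coe.1 hk2)).2
      rw [← hglue k1, ← hglue k2, e1, e2, heq]
    have hfin := ih r {i : ι // ¬ m i = M + 1} {j : J // lc j = b} (fun i => z i.1)
      (fun j => p' j.1) hr0 hr1 (fun i => hz i.1)
      (fun i => ⟨m i.1, a i.1, K i.1, hm i.1, by
        have h1 := hmM i.1
        have h2 := i.2
        omega, ha i.1, hK i.1⟩)
      (fun i j hij p q => hind i.1 j.1 (fun h' => hij (Subtype.ext h')) p q)
      (fun j => hp'deg j.1) (fun j => hp'0 j.1) ?_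
      N' (fun k' j => c (glue κ k') j.1) ?_ ?_ (rec' k) ?_ ⟨j, rfl⟩ s hs
    · have : glue κ (rec' k) = k := hglue k
      simpa [this] using hfin
    · intro j1 j2 h12
      apply Subtype.ext
      apply hinj
      have h3 : p' j1.1 = p' j2.1 := h12
      simp only [p', j1.2, j2.2] at h3
      exact sub_left_injective h3
    · intro k' hk' j'
      obtain ⟨k1, hk1, rfl⟩ := Finset.mem_image.1 hk'
      have e1 := Finset.mem_filter.1 hk1
      have : glue κ (rec' k1) = k1 := by rw [← e1.2]; exact hglue k1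
      simp only [this]
      exact hc k1 e1.1 j'
    · intro s hs
      rw [hN', Finset.sum_image hinj']
      have h0 := hCC0 κ (Finset.mem_image_of_mem res hk) b
        (Finset.mem_image_of_mem lc (Finset.mem_univ j)) s hs
      rw [← h0]
      simp only [CC]
      apply Finset.sum_congr rfl
      intro k1 hk1
      have e1 := Finset.mem_filter.1 hk1
      have : glue κ (rec' k1) = k1 := by rw [← e1.2]; exact hglue k1
      simp only [this]
      congr 1
      exact Finset.sum_subtype_eq_sum_filter (s := Finset.univ) (p := fun j => lc j = b)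
        (fun j => c k1 j s * exp ((p' j).eval s⁻¹)) |>.symm ▸ (by
          rw [Finset.subtype_univ])
    · exact Finset.mem_image_of_mem rec' (Finset.mem_filter.2 ⟨hk, rfl⟩)

end Pool.Agent.K9h73.EX
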