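import Mathlib

set_option autoImplicit false

/-!
The sign of proportionality of two functions up to integers, and independence of the divisors.
-/

namespace Pool.Agent.K9h73.EX

open Classical in
/-- `1` for a true statement and `0` for a false one -/
noncomputable def ind01 (P : Prop) : ℤ := if P then 1 else 0

lemma ind01_pos {P : Prop} (h : P) : ind01 P = 1 := by
  unfold ind01
  rw [if_pos h]

lemma ind01_neg {P : Prop} (h : ¬ P) : ind01 P = 0 := by
  unfold ind01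
  rw [if_neg h]

/-- `1` if `f - k` is a positive, `-1` if it is a negative rational multiple of `g` on `Ω`, for some
integer `k`, and `0` if there is no such integer -/
noncomputable def DD {X : Type} (Ω : Set X) (f g : X → ℂ) : ℤ :=
  ind01 (∃ (k : ℤ) (p : ℚ), 0 < p ∧ ∀ t ∈ Ω, f t - k = p * g t) -
    ind01 (∃ (k : ℤ) (p : ℚ), p < 0 ∧ ∀ t ∈ Ω, f t - k = p * g t)

/-- linear independence of the divisors -/
def Ind {X ι : Type} [Fintype ι] (Ω : Set X) (f : ι → X → ℂ) : Prop :=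
  ∀ a : ι → ℤ, a ≠ 0 → ∃ (j : ι) (l : ℤ), ∑ i, a i * DD Ω (f i) (fun t => f j t - l) ≠ 0

/-- the sign -/
def sgq (p : ℚ) : ℤ := if 0 < p then 1 else -1

lemma sgq_ne (p : ℚ) : sgq p ≠ 0 := by
  unfold sgq
  split_ifs <;> norm_num

lemma sgq_mul {p q : ℚ} (hp : p ≠ 0) (hq : q ≠ 0) : sgq (p * q) = sgq p * sgq q := by
  unfold sgq
  rcases lt_or_gt_of_ne hp with h1 | h1 <;> rcases lt_or_gt_of_ne hq with h2 | h2
  · rw [if_pos (mul_pos_of_neg_of_neg h1 h2), if_neg (by linarith), if_neg (by linarith)]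
    norm_num
  · rw [if_neg (by nlinarith [mul_neg_of_neg_of_pos h1 h2]), if_neg (by linarith), if_pos h2]
    norm_num
  · rw [if_neg (by nlinarith [mul_neg_of_pos_of_neg h1 h2]), if_pos h1, if_neg (by linarith)]
    norm_num
  · rw [if_pos (mul_pos h1 h2), if_pos h1, if_pos h2]
    norm_num

lemma sgq_div {p q : ℚ} (hp : p ≠ 0) (hq : q ≠ 0) : sgq (p / q) = sgq p * sgq q := by
  have h1 : p / q ≠ 0 := div_ne_zero hp hq
  have h2 := sgq_mul h1 hq
  rw [div_mul_cancel₀ _ hq] at h2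
  rw [h2]
  unfold sgq
  split_ifs <;> norm_num

section

variable {X : Type} {Ω : Set X} {f g g' : X → ℂ}

lemma rel_uniq (hf : ∀ q : ℚ, ¬ ∀ t ∈ Ω, f t = q) {k k' : ℤ} {p p' : ℚ}
    (h : ∀ t ∈ Ω, f t - k = p * g t) (h' : ∀ t ∈ Ω, f t - k' = p' * g t) : k = k' ∧ p = p' := by
  have hp : p = p' := by
    by_contra hne
    have hd : (p : ℂ) - p' ≠ 0 := by
      rw [sub_ne_zero]
      exact_mod_cast hne
    apply hf (k + p * ((k' - k) / (p - p')))
    intro t ht
    have e1 := h t ht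
    have e2 := h' t ht
    have e3 : g t * ((p : ℂ) - p') = k' - k := by linear_combination e2 - e1
    have e4 : g t = (k' - k) / ((p : ℂ) - p') := by rw [eq_div_iff hd, e3]
    rw [e4] at e1
    push_cast
    linear_combination e1
  refine ⟨?_, hp⟩
  obtain ⟨t, ht⟩ : Ω.Nonempty := by
    by_contra hne
    rw [Set.not_nonempty_iff_eq_empty] at hne
    apply hf 0
    rw [hne]
    intro t ht
    exact absurd ht (Set.notMem_empty _)
  have e1 := h t ht
  have e2 := h' t ht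
  rw [← hp] at e2
  have e3 : (k : ℂ) = k' := by linear_combination e2 - e1
  exact_mod_cast e3

lemma rel_ne (hf : ∀ q : ℚ, ¬ ∀ t ∈ Ω, f t = q) {k : ℤ} {p : ℚ}
    (h : ∀ t ∈ Ω, f t - k = p * g t) : p ≠ 0 := by
  rintro rfl
  apply hf k
  intro t ht
  have := h t ht
  push_cast at this ⊢
  linear_combination this

lemma DD_val (hf : ∀ q : ℚ, ¬ ∀ t ∈ Ω, f t = q) {k : ℤ} {p : ℚ}
    (h : ∀ t ∈ Ω, f t - k = p * g t) : DD Ω f g = sgq p := by
  have hp := rel_ne hf h
  unfold DD sgq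
  rcases lt_or_gt_of_ne hp with h1 | h1
  · have e1 : ¬ ∃ (k : ℤ) (p : ℚ), 0 < p ∧ ∀ t ∈ Ω, f t - k = p * g t := by
      rintro ⟨k', p', h2, h3⟩
      have := (rel_uniq hf h h3).2
      linarith
    rw [ind01_neg e1, ind01_pos ⟨k, p, h1, h⟩, if_neg (by linarith)]
    norm_num
  · have e1 : ¬ ∃ (k : ℤ) (p : ℚ), p < 0 ∧ ∀ t ∈ Ω, f t - k = p * g t := by
      rintro ⟨k', p', h2, h3⟩
      have := (rel_uniq hf h h3).2
      linarith
    rw [ind01_neg e1, ind01_pos ⟨k, p, h1, h⟩, if_pos h1]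
    norm_num

lemma DD_zero (h : ¬ ∃ (k : ℤ) (p : ℚ), ∀ t ∈ Ω, f t - k = p * g t) : DD Ω f g = 0 := by
  unfold DD
  rw [ind01_neg, ind01_neg]
  · norm_num
  · rintro ⟨k, p, -, h2⟩
    exact h ⟨k, p, h2⟩
  · rintro ⟨k, p, -, h2⟩
    exact h ⟨k, p, h2⟩

lemma DD_ne (h : DD Ω f g ≠ 0) : ∃ (k : ℤ) (p : ℚ), ∀ t ∈ Ω, f t - k = p * g t := by
  by_contra hcon
  exact h (DD_zero hcon)

lemma DD_smul {p : ℚ} (hp : p ≠ 0) (h : ∀ t ∈ Ω, g' t = p * g t) :
    DD Ω f g' = sgq p * DD Ω f g := by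
  have hpc : (p : ℂ) ≠ 0 := by exact_mod_cast hp
  unfold DD sgq
  rcases lt_or_gt_of_ne hp with h1 | h1
  · have e1 : (∃ (k : ℤ) (q : ℚ), 0 < q ∧ ∀ t ∈ Ω, f t - k = q * g' t) ↔
        ∃ (k : ℤ) (q : ℚ), q < 0 ∧ ∀ t ∈ Ω, f t - k = q * g t := by
      constructor
      · rintro ⟨k, q, h2, h3⟩
        refine ⟨k, q * p, mul_neg_of_pos_of_neg h2 h1, fun t ht => ?_⟩
        rw [h3 t ht, h t ht]; push_cast; ring
      · rintro ⟨k, q, h2, h3⟩
        refine ⟨k, q / p, div_pos_of_neg_of_neg h2 h1, fun t ht => ?_⟩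
        rw [h3 t ht, h t ht]; push_cast; field_simp
    have e2 : (∃ (k : ℤ) (q : ℚ), q < 0 ∧ ∀ t ∈ Ω, f t - k = q * g' t) ↔
        ∃ (k : ℤ) (q : ℚ), 0 < q ∧ ∀ t ∈ Ω, f t - k = q * g t := by
      constructor
      · rintro ⟨k, q, h2, h3⟩
        refine ⟨k, q * p, mul_pos_of_neg_of_neg h2 h1, fun t ht => ?_⟩
        rw [h3 t ht, h t ht]; push_cast; ring
      · rintro ⟨k, q, h2, h3⟩
        refine ⟨k, q / p, div_neg_of_pos_of_neg h2 h1, fun t ht => ?_⟩
        rw [h3 t ht, h t ht]; push_cast; field_simp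
    rw [propext e1, propext e2, if_neg (by linarith : ¬ 0 < p)]
    ring
  · have e1 : (∃ (k : ℤ) (q : ℚ), 0 < q ∧ ∀ t ∈ Ω, f t - k = q * g' t) ↔
        ∃ (k : ℤ) (q : ℚ), 0 < q ∧ ∀ t ∈ Ω, f t - k = q * g t := by
      constructor
      · rintro ⟨k, q, h2, h3⟩
        refine ⟨k, q * p, mul_pos h2 h1, fun t ht => ?_⟩
        rw [h3 t ht, h t ht]; push_cast; ring
      · rintro ⟨k, q, h2, h3⟩
        refine ⟨k, q / p, div_pos h2 h1, fun t ht => ?_⟩
        rw [h3 t ht, h t ht]; push_cast; field_simp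
    have e2 : (∃ (k : ℤ) (q : ℚ), q < 0 ∧ ∀ t ∈ Ω, f t - k = q * g' t) ↔
        ∃ (k : ℤ) (q : ℚ), q < 0 ∧ ∀ t ∈ Ω, f t - k = q * g t := by
      constructor
      · rintro ⟨k, q, h2, h3⟩
        refine ⟨k, q * p, mul_neg_of_neg_of_pos h2 h1, fun t ht => ?_⟩
        rw [h3 t ht, h t ht]; push_cast; ring
      · rintro ⟨k, q, h2, h3⟩
        refine ⟨k, q / p, div_neg_of_neg_of_pos h2 h1, fun t ht => ?_⟩
        rw [h3 t ht, h t ht]; push_cast; field_simp
    rw [propext e1, propext e2, if_pos h1]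
    ring

lemma DD_neg : DD Ω (fun t => -f t) g = - DD Ω f g := by
  have key : ∀ (k : ℤ) (q : ℚ), (∀ t ∈ Ω, -f t - k = q * g t) ↔
      ∀ t ∈ Ω, f t - ((-k : ℤ) : ℂ) = ((-q : ℚ) : ℂ) * g t := by
    intro k q
    constructor
    · intro h t ht
      have := h t ht
      push_cast
      linear_combination -this
    · intro h t ht
      have := h t ht
      push_cast at this
      linear_combination -this
  have e1 : (∃ (k : ℤ) (q : ℚ), 0 < q ∧ ∀ t ∈ Ω, -f t - k = q * g t) ↔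
      ∃ (k : ℤ) (q : ℚ), q < 0 ∧ ∀ t ∈ Ω, f t - k = q * g t := by
    constructor
    · rintro ⟨k, q, h1, h2⟩
      exact ⟨-k, -q, by linarith, (key k q).1 h2⟩
    · rintro ⟨k, q, h1, h2⟩
      refine ⟨-k, -q, by linarith, (key _ _).2 ?_⟩
      rw [neg_neg, neg_neg]
      exact h2
  have e2 : (∃ (k : ℤ) (q : ℚ), q < 0 ∧ ∀ t ∈ Ω, -f t - k = q * g t) ↔
      ∃ (k : ℤ) (q : ℚ), 0 < q ∧ ∀ t ∈ Ω, f t - k = q * g t := by
    constructor
    · rintro ⟨k, q, h1, h2⟩
      exact ⟨-k, -q, by linarith, (key k q).1 h2⟩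
    · rintro ⟨k, q, h1, h2⟩
      refine ⟨-k, -q, by linarith, (key _ _).2 ?_⟩
      rw [neg_neg, neg_neg]
      exact h2
  unfold DD
  rw [propext e1, propext e2]
  ring

end

/-- only the pattern of the relations matters -/
lemma Ind.pattern {X X' ι : Type} [Fintype ι] {Ω : Set X} {Ω' : Set X'} {f : ι → X → ℂ}
    {f' : ι → X' → ℂ} (h : ∀ (i j : ι) (k l : ℤ) (p : ℚ),
      (∀ t ∈ Ω, f i t - k = p * (f j t - l)) ↔ (∀ t ∈ Ω', f' i t - k = p * (f' j t - l)))
    (hI : Ind Ω f) : Ind Ω' f' := by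
  intro a ha
  obtain ⟨j, l, h1⟩ := hI a ha
  refine ⟨j, l, ?_⟩
  have e : ∀ i, DD Ω' (f' i) (fun t => f' j t - l) = DD Ω (f i) (fun t => f j t - l) := by
    intro i
    unfold DD
    simp only [h]
  simp only [e]
  exact h1

/-- subfamilies -/
lemma Ind.sub {X ι ι' : Type} [Fintype ι] [Fintype ι'] {Ω : Set X} {f : ι → X → ℂ}
    (hf : ∀ i, ∀ q : ℚ, ¬ ∀ t ∈ Ω, f i t = q) (hI : Ind Ω f) (e : ι' → ι)
    (he : Function.Injective e) : Ind Ω (fun i => f (e i)) := by
  classical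
  intro a' ha'
  set a : ι → ℤ := Function.extend e a' 0 with ha
  have hae : ∀ i', a (e i') = a' i' := fun i' => he.extend_apply a' 0 i'
  have ha0 : a ≠ 0 := by
    intro h0
    apply ha'
    funext i'
    rw [← hae, h0]
    rfl
  obtain ⟨j, l, h1⟩ := hI a ha0
  have h2 : ∑ i, a i * DD Ω (f i) (fun t => f j t - l) =
      ∑ i', a' i' * DD Ω (f (e i')) (fun t => f j t - l) := by
    rw [← Finset.sum_subset (Finset.subset_univ (Finset.univ.image e))]
    · rw [Finset.sum_image fun x _ y _ hxy => he hxy]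
      simp only [hae]
    · intro i _ hi
      have : a i = 0 := by
        rw [ha, Function.extend_apply' _ _ _ (fun ⟨i', hi'⟩ => hi
          (Finset.mem_image.2 ⟨i', Finset.mem_univ _, hi'⟩))]
        rfl
      rw [this, zero_mul]
  rw [h2] at h1
  obtain ⟨i0, -, hi0⟩ := Finset.exists_ne_zero_of_sum_ne_zero h1
  have h3 : DD Ω (f (e i0)) (fun t => f j t - l) ≠ 0 := right_ne_zero_of_mul hi0
  obtain ⟨k, p, h4⟩ := DD_ne h3
  have hp := rel_ne (hf _) h4
  refine ⟨i0, k, ?_⟩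
  have h5 : ∀ i', DD Ω (f (e i')) (fun t => f (e i0) t - k) =
      sgq p * DD Ω (f (e i')) (fun t => f j t - l) := fun i' => DD_smul hp h4
  have h6 : ∑ i', a' i' * DD Ω (f (e i')) (fun t => f (e i0) t - k) =
      sgq p * ∑ i', a' i' * DD Ω (f (e i')) (fun t => f j t - l) := by
    rw [Finset.mul_sum]
    apply Finset.sum_congr rfl
    intro i' _
    rw [h5]
    ring
  rw [h6]
  exact mul_ne_zero (sgq_ne p) h1

/-- change of signs -/
lemma Ind.signs {X ι : Type} [Fintype ι] {Ω : Set X} {f : ι → X → ℂ} (hI : Ind Ω f)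
    (ε : ι → ℤ) (hε : ∀ i, ε i = 1 ∨ ε i = -1) : Ind Ω (fun i t => (ε i : ℂ) * f i t) := by
  intro a ha
  have ha' : (fun i => ε i * a i) ≠ 0 := by
    intro h0
    apply ha
    funext i
    have h1 := congrFun h0 i
    simp only [Pi.zero_apply] at h1 ⊢
    rcases hε i with h2 | h2 <;> rw [h2] at h1 <;> linarith
  obtain ⟨j, l, h1⟩ := hI _ ha'
  refine ⟨j, ε j * l, ?_⟩
  have h2 : ∀ i, DD Ω (fun t => (ε i : ℂ) * f i t) (fun t => (ε j : ℂ) * f j t - (ε j * l : ℤ)) =
      ε j * (ε i * DD Ω (f i) (fun t => f j t - l)) := by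
    intro i
    have e1 : ∀ g : X → ℂ, DD Ω (fun t => (ε i : ℂ) * f i t) g = ε i * DD Ω (f i) g := by
      intro g
      rcases hε i with h3 | h3
      · simp only [h3, Int.cast_one, one_mul]
      · simp only [h3, Int.cast_neg, Int.cast_one, neg_mul, one_mul]
        exact DD_neg
    rw [e1]
    have e2 : DD Ω (f i) (fun t => (ε j : ℂ) * f j t - (ε j * l : ℤ)) =
        ε j * DD Ω (f i) (fun t => f j t - l) := by
      rcases hε j with h3 | h3
      · simp only [h3, Int.cast_one, one_mul]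
      · have := DD_smul (Ω := Ω) (f := f i) (g := fun t => f j t - l)
          (g' := fun t => (ε j : ℂ) * f j t - (ε j * l : ℤ)) (p := -1) (by norm_num) (by
            intro t _
            rw [h3]
            push_cast
            ring)
        rw [this, h3]
        congr 1
    rw [e2]
    ring
  have h3 : ∑ i, a i * DD Ω (fun t => (ε i : ℂ) * f i t)
      (fun t => (ε j : ℂ) * f j t - (ε j * l : ℤ)) =
      ε j * ∑ i, ε i * a i * DD Ω (f i) (fun t => f j t - l) := by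
    rw [Finset.mul_sum]
    apply Finset.sum_congr rfl
    intro i _
    rw [h2]
    ring
  rw [h3]
  refine mul_ne_zero ?_ h1
  rcases hε j with h4 | h4 <;> rw [h4] <;> norm_num

/-- specialization: if there are no more relations for `f` than for `f'` then independence for `f'`
implies independence for `f` -/
lemma Ind.spec {X X' ι : Type} [Fintype ι] {Ω : Set X} {Ω' : Set X'} {f : ι → X → ℂ}
    {f' : ι → X' → ℂ} (hf : ∀ i, ∀ q : ℚ, ¬ ∀ t ∈ Ω, f i t = q)
    (hf' : ∀ i, ∀ q : ℚ, ¬ ∀ t ∈ Ω', f' i t = q)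
    (h : ∀ (i j : ι) (k l : ℤ) (p : ℚ),
      (∀ t ∈ Ω, f i t - k = p * (f j t - l)) → (∀ t ∈ Ω', f' i t - k = p * (f' j t - l)))
    (hI : Ind Ω' f') : Ind Ω f := by
  classical
  intro a ha
  obtain ⟨j, l, h1⟩ := hI a ha
  by_contra hcon
  push Not at hcon
  apply h1
  have hkp : ∀ i, ∃ (k : ℤ) (p : ℚ), DD Ω' (f' i) (fun t => f' j t - l) ≠ 0 →
      ∀ t ∈ Ω', f' i t - k = p * (f' j t - l) := by
    intro i
    by_cases h2 : DD Ω' (f' i) (fun t => f' j t - l) ≠ 0
    · obtain ⟨k, p, h3⟩ := DD_ne h2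
      exact ⟨k, p, fun _ => h3⟩
    · exact ⟨0, 0, fun h3 => absurd h3 h2⟩
  choose k p hkp using hkp
  set S : Finset ι := Finset.univ.filter (fun i => DD Ω' (f' i) (fun t => f' j t - l) ≠ 0) with hS
  have hSm : ∀ i, i ∈ S ↔ DD Ω' (f' i) (fun t => f' j t - l) ≠ 0 := by
    intro i
    simp [hS]
  have hp0 : ∀ i ∈ S, p i ≠ 0 := fun i hi => rel_ne (hf' i) (hkp i ((hSm i).1 hi))
  have hval : ∀ i ∈ S, DD Ω' (f' i) (fun t => f' j t - l) = sgq (p i) := fun i hi =>
    DD_val (hf' i) (hkp i ((hSm i).1 hi))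
  set u : ι → (↥Ω → ℂ) := fun i t => (f i t - k i) / p i with hu
  have hrel : ∀ i ∈ S, ∀ i' ∈ S, u i = u i' ↔
      ∀ t ∈ Ω, f i t - k i = ((p i / p i' : ℚ) : ℂ) * (f i' t - k i') := by
    intro i hi i' hi'
    have e1 : (p i : ℂ) ≠ 0 := by exact_mod_cast hp0 i hi
    have e2 : (p i' : ℂ) ≠ 0 := by exact_mod_cast hp0 i' hi'
    constructor
    · intro h3 t ht
      have h4 := congrFun h3 ⟨t, ht⟩
      simp only [hu] at h4
      rw [div_eq_div_iff e1 e2] at h4
      push_cast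
      field_simp
      linear_combination h4
    · intro h3
      funext ⟨t, ht⟩
      have h4 := h3 t ht
      simp only [hu]
      rw [h4]
      push_cast
      field_simp
  have hDD : ∀ i0 ∈ S, ∀ i, DD Ω (f i) (fun t => f i0 t - k i0) =
      if i ∈ S ∧ u i = u i0 then sgq (p i) * sgq (p i0) else 0 := by
    intro i0 hi0 i
    by_cases h2 : i ∈ S ∧ u i = u i0
    · rw [if_pos h2]
      have h3 := (hrel i h2.1 i0 hi0).1 h2.2
      rw [DD_val (hf i) h3]
      exact sgq_div (hp0 i h2.1) (hp0 i0 hi0)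
    · rw [if_neg h2]
      apply DD_zero
      rintro ⟨k', p', h3⟩
      apply h2
      have h4 := h i i0 k' (k i0) p' h3
      have h5 : ∀ t ∈ Ω', f' i t - k' = ((p' * p i0 : ℚ) : ℂ) * (f' j t - l) := by
        intro t ht
        rw [h4 t ht, hkp i0 ((hSm i0).1 hi0) t ht]
        push_cast
        ring
      have hiS : i ∈ S := by
        rw [hSm, DD_val (hf' i) h5]
        exact sgq_ne _
      obtain ⟨h6, h7⟩ := rel_uniq (hf' i) h5 (hkp i ((hSm i).1 hiS))
      refine ⟨hiS, (hrel i hiS i0 hi0).2 ?_⟩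
      intro t ht
      rw [← h6, h3 t ht, ← h7]
      have e2 : (p i0 : ℂ) ≠ 0 := by exact_mod_cast hp0 i0 hi0
      push_cast
      field_simp
  have hcls : ∀ i0 ∈ S, ∑ i ∈ S.filter (fun i => u i = u i0), a i * sgq (p i) = 0 := by
    intro i0 hi0
    have h2 := hcon i0 (k i0)
    simp only [hDD i0 hi0] at h2
    have h3 : sgq (p i0) * ∑ i ∈ S.filter (fun i => u i = u i0), a i * sgq (p i) = 0 := by
      rw [← h2, Finset.mul_sum, ← Finset.sum_subset
        (Finset.subset_univ (S.filter (fun i => u i = u i0)))]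
      · apply Finset.sum_congr rfl
        intro i hi
        rw [Finset.mem_filter] at hi
        rw [if_pos hi]
        ring
      · intro i _ hi
        rw [Finset.mem_filter] at hi
        rw [if_neg hi, mul_zero]
    exact (mul_eq_zero.1 h3).resolve_left (sgq_ne _)
  have h2 : ∑ i, a i * DD Ω' (f' i) (fun t => f' j t - l) = ∑ i ∈ S, a i * sgq (p i) := by
    rw [← Finset.sum_subset (Finset.subset_univ S)]
    · apply Finset.sum_congr rfl
      intro i hi
      rw [hval i hi]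
    · intro i _ hi
      have : DD Ω' (f' i) (fun t => f' j t - l) = 0 := by
        by_contra hne
        exact hi ((hSm i).2 hne)
      rw [this, mul_zero]
  rw [h2, ← Finset.sum_fiberwise_of_maps_to (s := S) (t := S.image u) (g := u)
    (fun i hi => Finset.mem_image_of_mem u hi)]
  apply Finset.sum_eq_zero
  intro v hv
  obtain ⟨i0, hi0, rfl⟩ := Finset.mem_image.1 hv
  exact hcls i0 hi0

end Pool.Agent.K9h73.EX
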