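import Pool.Agent.K9h73.EX.Gauss
import Pool.Agent.K9h73.EX.T2

set_option autoImplicit false

/-!
Dependent divisors give multiplicative relations between values of the Gamma function.
-/

namespace Pool.Agent.K9h73.EX

open Complex Finset

/-- the algebra of the exponential polynomials in one variable `u`, generated by `u` and the
functions `e ^ (c u)` -/
noncomputable def EE : Subalgebra ℂ (ℂ → ℂ) :=
  Algebra.adjoin ℂ (insert (fun u => u) (Set.range fun (c : ℂ) (u : ℂ) => exp (c * u)))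

lemma EE_id : (fun u : ℂ => u) ∈ EE := Algebra.subset_adjoin (Set.mem_insert _ _)

lemma EE_exp (c : ℂ) : (fun u : ℂ => exp (c * u)) ∈ EE :=
  Algebra.subset_adjoin (Set.mem_insert_of_mem _ ⟨c, rfl⟩)

lemma EE_const (c : ℂ) : (fun _ : ℂ => c) ∈ EE := EE.algebraMap_mem c

lemma EE_aff (a b : ℂ) : (fun u : ℂ => a * u + b) ∈ EE :=
  EE.add_mem (EE.mul_mem (EE_const a) EE_id) (EE_const b)

lemma EE_exp2 (a b : ℂ) : (fun u : ℂ => exp (a * u + b)) ∈ EE := by
  have h := EE.mul_mem (EE_exp a) (EE_const (exp b))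
  have e : (fun u : ℂ => exp (a * u + b)) = (fun u : ℂ => exp (a * u)) * fun _ => exp b := by
    funext u
    rw [exp_add]
    rfl
  rw [e]
  exact h

lemma EE_diff {P : ℂ → ℂ} (hP : P ∈ EE) : Differentiable ℂ P := by
  unfold EE at hP
  induction hP using Algebra.adjoin_induction with
  | mem x hx =>
    rcases hx with rfl | ⟨c, rfl⟩
    · exact differentiable_id
    · exact (differentiable_id.const_mul c).cexp
  | algebraMap c => exact differentiable_const c
  | add x y _ _ hx hy => exact hx.add hy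
  | mul x y _ _ hx hy => exact hx.mul hy

lemma mul_ne {P Q : ℂ → ℂ} (hP : Differentiable ℂ P) (hQ : Differentiable ℂ Q) (h1 : P ≠ 0)
    (h2 : Q ≠ 0) : P * Q ≠ 0 := by
  intro h
  have ha : AnalyticOnNhd ℂ P Set.univ := fun z _ => hP.analyticAt z
  have hb : AnalyticOnNhd ℂ Q Set.univ := fun z _ => hQ.analyticAt z
  rcases ha.eq_zero_or_eq_zero_of_mul_eq_zero hb (fun z _ => congrFun h z) isPreconnected_univ
    with h3 | h3
  · exact h1 (funext fun z => h3 z (Set.mem_univ z))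
  · exact h2 (funext fun z => h3 z (Set.mem_univ z))

/-- the upper half plane -/
abbrev HP : Type := {u : ℂ // 0 < u.im}

/-- quotients of exponential polynomials -/
noncomputable def Hsub : Subgroup (HP → ℂˣ) where
  carrier := {f | ∃ P ∈ EE, ∃ Q ∈ EE, P ≠ 0 ∧ Q ≠ 0 ∧ ∀ u : HP, P u.1 * (f u : ℂ) = Q u.1}
  one_mem' := by
    refine ⟨1, EE.one_mem, 1, EE.one_mem, one_ne_zero, one_ne_zero, fun u => ?_⟩
    simp
  mul_mem' := by
    rintro f f' ⟨P, hP, Q, hQ, h1, h2, h3⟩ ⟨P', hP', Q', hQ', h1', h2', h3'⟩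
    refine ⟨P * P', EE.mul_mem hP hP', Q * Q', EE.mul_mem hQ hQ',
      mul_ne (EE_diff hP) (EE_diff hP') h1 h1', mul_ne (EE_diff hQ) (EE_diff hQ') h2 h2',
      fun u => ?_⟩
    simp only [Pi.mul_apply, Units.val_mul]
    rw [← h3, ← h3']
    ring
  inv_mem' := by
    rintro f ⟨P, hP, Q, hQ, h1, h2, h3⟩
    refine ⟨Q, hQ, P, hP, h2, h1, fun u => ?_⟩
    rw [← h3, mul_assoc]
    simp

/-- the group of nowhere vanishing functions modulo quotients of exponential polynomials -/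
abbrev QG : Type := (HP → ℂˣ) ⧸ Hsub

open Classical in
/-- `Γ (m u + q)` -/
noncomputable def gm (m : ℤ) (q : ℚ) : HP → ℂˣ := fun u =>
  if h : Gamma (m * u.1 + q) ≠ 0 then Units.mk0 _ h else 1

lemma gm_ne {m : ℤ} (hm : m ≠ 0) (q : ℚ) (u : HP) : Gamma (m * u.1 + q) ≠ 0 := by
  apply Gamma_ne_zero
  intro k hk
  have h1 := congrArg Complex.im hk
  have h2 : ((m : ℂ) * u.1 + q).im = m * u.1.im := by
    rw [add_im, ratCast_im, add_zero, ← ofReal_intCast, im_ofReal_mul]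
  rw [h2] at h1
  have h3 : (-(k : ℂ)).im = 0 := by simp
  rw [h3] at h1
  have h4 : (m : ℝ) ≠ 0 := by exact_mod_cast hm
  exact (mul_ne_zero h4 u.2.ne') h1

lemma gm_val {m : ℤ} (hm : m ≠ 0) (q : ℚ) (u : HP) : (gm m q u : ℂ) = Gamma (m * u.1 + q) := by
  unfold gm
  rw [dif_pos (gm_ne hm q u)]
  rfl

lemma mk_eq {f g : HP → ℂˣ} {P Q : ℂ → ℂ} (hP : P ∈ EE) (hQ : Q ∈ EE) (h1 : P ≠ 0) (h2 : Q ≠ 0)
    (h : ∀ u : HP, P u.1 * (f u : ℂ) = Q u.1 * (g u : ℂ)) : (f : QG) = (g : QG) := by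
  rw [QuotientGroup.eq]
  refine ⟨Q, hQ, P, hP, h2, h1, fun u => ?_⟩
  simp only [Pi.mul_apply, Pi.inv_apply, Units.val_mul]
  have h3 : (f u : ℂ) ≠ 0 := (f u).ne_zero
  have h4 : (((f u)⁻¹ : ℂˣ) : ℂ) * (f u : ℂ) = 1 := by simp
  calc Q u.1 * ((((f u)⁻¹ : ℂˣ) : ℂ) * (g u : ℂ)) = (((f u)⁻¹ : ℂˣ) : ℂ) * (Q u.1 * (g u : ℂ)) := by
        ring
    _ = (((f u)⁻¹ : ℂˣ) : ℂ) * (P u.1 * (f u : ℂ)) := by rw [h u]
    _ = P u.1 * ((((f u)⁻¹ : ℂˣ) : ℂ) * (f u : ℂ)) := by ring
    _ = P u.1 := by rw [h4, mul_one]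

lemma aff_ne {a : ℂ} (ha : a ≠ 0) (b : ℂ) : (fun u : ℂ => a * u + b) ≠ 0 := by
  intro h
  have h0 := congrFun h 0
  have h1 := congrFun h 1
  simp only [Pi.zero_apply, mul_zero, zero_add, mul_one] at h0 h1
  rw [h0, add_zero] at h1
  exact ha h1

/-- translation -/
lemma gm_add_one {m : ℤ} (hm : m ≠ 0) (q : ℚ) : (gm m (q + 1) : QG) = (gm m q : QG) := by
  have hmc : (m : ℂ) ≠ 0 := by exact_mod_cast hm
  refine mk_eq EE.one_mem (EE_aff (m : ℂ) (q : ℂ)) one_ne_zero (aff_ne hmc _) fun u => ?_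
  rw [gm_val hm, gm_val hm]
  have hne : (m : ℂ) * u.1 + q ≠ 0 := by
    intro h0
    have := gm_ne hm q u
    rw [h0, Gamma_zero] at this
    exact this rfl
  rw [← Gamma_add_one _ hne]
  simp only [Pi.one_apply, one_mul]
  congr 1
  push_cast
  ring

lemma gm_add_int {m : ℤ} (hm : m ≠ 0) (q : ℚ) (n : ℤ) : (gm m (q + n) : QG) = (gm m q : QG) := by
  induction n using Int.induction_on with
  | zero => simp
  | succ i ih =>
    rw [← ih, ← gm_add_one hm (q + ((i : ℤ) : ℚ))]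
    congr 2
    push_cast
    ring
  | pred i ih =>
    rw [← ih, ← gm_add_one hm (q + ((-(i : ℤ) - 1 : ℤ) : ℚ))]
    congr 2
    push_cast
    ring

/-- reflection -/
lemma gm_neg {m : ℤ} (hm : m ≠ 0) (q : ℚ) : (gm (-m) (-q) : QG) = ((gm m q : QG))⁻¹ := by
  have hm' : -m ≠ 0 := neg_ne_zero.2 hm
  have hmc : (m : ℂ) ≠ 0 := by exact_mod_cast hm
  rw [← QuotientGroup.mk_inv]
  have hpi : (Real.pi : ℂ) ≠ 0 := by exact_mod_cast Real.pi_ne_zero
  have hsin : ∀ u : HP, sin (Real.pi * (m * u.1 + q)) ≠ 0 := by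
    intro u h0
    rw [sin_eq_zero_iff] at h0
    obtain ⟨k, hk⟩ := h0
    have h1 : (m : ℂ) * u.1 + q = k := mul_left_cancel₀ hpi (by rw [hk]; ring)
    have h2 := congrArg Complex.im h1
    have h3 : ((m : ℂ) * u.1 + q).im = m * u.1.im := by
      rw [add_im, ratCast_im, add_zero, ← ofReal_intCast, im_ofReal_mul]
    rw [h3, intCast_im] at h2
    have h4 : (m : ℝ) ≠ 0 := by exact_mod_cast hm
    exact (mul_ne_zero h4 u.2.ne') h2
  -- `P = w sin (π w)`
  set P : ℂ → ℂ := fun u => (m * u + q) * sin (Real.pi * (m * u + q)) with hPdef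
  have hP : P ∈ EE := by
    have h1 := EE.mul_mem (EE_aff (m : ℂ) (q : ℂ)) (EE.mul_mem (EE_const (I / 2))
      (EE.sub_mem (EE_exp2 (-(Real.pi * m * I)) (-(Real.pi * q * I)))
        (EE_exp2 (Real.pi * m * I) (Real.pi * q * I))))
    have e : P = (fun u : ℂ => (m : ℂ) * u + q) * ((fun _ => I / 2) *
        ((fun u : ℂ => exp (-(Real.pi * m * I) * u + -(Real.pi * q * I))) -
          fun u : ℂ => exp (Real.pi * m * I * u + Real.pi * q * I))) := by
      funext u
      simp only [hPdef, Pi.mul_apply, Pi.sub_apply]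
      rw [sin]
      have e1 : -(Real.pi * (m * u + q)) * I = -(Real.pi * m * I) * u + -(Real.pi * q * I) := by
        ring
      have e2 : (Real.pi * (m * u + q)) * I = Real.pi * m * I * u + Real.pi * q * I := by
        ring
      rw [e1, e2]
      ring
    rw [e]
    exact h1
  have hP0 : P ≠ 0 := by
    intro h0
    have h1 := congrFun h0 I
    simp only [hPdef, Pi.zero_apply] at h1
    rcases mul_eq_zero.1 h1 with h2 | h2
    · have := gm_ne hm q ⟨I, by simp⟩
      simp only at this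
      rw [h2, Gamma_zero] at this
      exact this rfl
    · exact hsin ⟨I, by simp⟩ h2
  refine mk_eq hP (EE_const (-(Real.pi : ℂ))) hP0 (fun h => ?_) fun u => ?_
  · have := congrFun h 0
    simp only [Pi.zero_apply, neg_eq_zero] at this
    exact hpi this
  · rw [gm_val hm']
    simp only [Pi.inv_apply, Units.val_inv_eq_inv_val]
    rw [gm_val hm]
    set w : ℂ := m * u.1 + q with hw
    have hΓ : Gamma w ≠ 0 := gm_ne hm q u
    have e1 : (((-m : ℤ) : ℂ)) * u.1 + ((-q : ℚ) : ℂ) = -w := by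
      rw [hw]; push_cast; ring
    rw [e1]
    have hw0 : w ≠ 0 := by
      intro h0
      rw [h0, Gamma_zero] at hΓ
      exact hΓ rfl
    have h1 := Gamma_mul_Gamma_one_sub w
    have h2 : Gamma (1 - w) = -w * Gamma (-w) := by
      rw [← Gamma_add_one (-w) (neg_ne_zero.2 hw0)]
      congr 1; ring
    have hs : sin (Real.pi * w) ≠ 0 := by
      rw [hw]
      exact hsin u
    rw [h2, eq_div_iff hs] at h1
    have e2 : P u.1 = w * sin (Real.pi * w) := rfl
    rw [e2, eq_mul_inv_iff_mul_eq₀ hΓ]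
    linear_combination -h1

lemma mk_prod {α : Type} (s : Finset α) (f : α → HP → ℂˣ) :
    ((∏ k ∈ s, f k : HP → ℂˣ) : QG) = ∏ k ∈ s, (f k : QG) := by
  classical
  induction s using Finset.induction_on with
  | empty => rfl
  | insert i s hi ih =>
    rw [Finset.prod_insert hi, Finset.prod_insert hi, ← ih]
    rfl

/-- multiplication -/
lemma gm_mult (M : ℕ) (hM : 1 ≤ M) (q : ℚ) :
    (gm M q : QG) = ∏ k ∈ range M, (gm 1 ((q + k) / M) : QG) := by
  obtain ⟨c, hc, h⟩ := gaussC M hM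
  have hM0 : ((M : ℤ)) ≠ 0 := by exact_mod_cast (by omega : M ≠ 0)
  have hMc : (M : ℂ) ≠ 0 := by exact_mod_cast (by omega : M ≠ 0)
  have e0 : ∏ k ∈ range M, (gm 1 ((q + k) / M) : QG) =
      ((∏ k ∈ range M, gm 1 ((q + k) / M) : HP → ℂˣ) : QG) := (mk_prod _ _).symm
  rw [e0]
  set L : ℂ := ((Real.log M : ℝ) : ℂ) with hL
  have hQ : (fun u : ℂ => c * exp ((M * L) * u + q * L)) ∈ EE :=
    EE.mul_mem (EE_const c) (EE_exp2 _ _)
  refine mk_eq EE.one_mem hQ one_ne_zero (fun h => ?_) fun u => ?_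
  · have := congrFun h 0
    simp only [Pi.zero_apply] at this
    exact mul_ne_zero hc (exp_ne_zero _) this
  · rw [gm_val hM0]
    have e1 : ((∏ k ∈ range M, gm 1 ((q + k) / M)) u : ℂ) =
        ∏ k ∈ range M, Gamma ((((M : ℂ) * u.1 + q) + k) / M) := by
      rw [Finset.prod_apply, Units.coe_prod]
      apply Finset.prod_congr rfl
      intro k _
      rw [gm_val one_ne_zero]
      congr 1
      push_cast
      field_simp
      ring
    rw [e1]
    have h1 := h ((M : ℂ) * u.1 + q)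
    rw [Finset.prod_inv_distrib] at h1
    have hne : ∏ k ∈ range M, Gamma ((((M : ℂ) * u.1 + q) + k) / M) ≠ 0 := by
      rw [← e1]
      exact Units.ne_zero _
    have hΓ : Gamma ((M : ℂ) * u.1 + q) ≠ 0 := by
      have := gm_ne hM0 q u
      push_cast at this
      exact this
    simp only [Pi.one_apply, one_mul]
    have e2 : exp ((M * L) * u.1 + q * L) = exp (((M : ℂ) * u.1 + q) * L) := by
      congr 1
      ring
    rw [e2]
    have e3 : ((M : ℤ) : ℂ) = (M : ℂ) := by push_cast; rfl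
    rw [e3]
    rw [inv_eq_iff_eq_inv] at h1
    rw [h1]
    field_simp

end Pool.Agent.K9h73.EX
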