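import Pool.Agent.K9h73.EX.Nec

set_option autoImplicit false

/-!
Dependent divisors give multiplicative relations between values of the Gamma function: counting of
residue classes.
-/

namespace Pool.Agent.K9h73.EX

open Complex Finset

/-- a product over an arithmetic progression modulo `N = M D` -/
lemma cnt {G : Type} [CommGroup G] (M D : ℕ) (hM : 1 ≤ M) (hD : 1 ≤ D) (e : ℤ) (g : ℤ → G)
    (hg : ∀ j : ℤ, g (j + (M * D : ℕ)) = g j) :
    ∏ k ∈ range M, g (e + D * k) =
      ∏ j ∈ range (M * D), if (D : ℤ) ∣ ((j : ℤ) - e) then g j else 1 := by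
  have hN : (0 : ℤ) < ((M * D : ℕ) : ℤ) := by
    have : 0 < M * D := Nat.mul_pos (by omega) (by omega)
    exact_mod_cast this
  have hper : ∀ (j n : ℤ), g (j + n * (M * D : ℕ)) = g j := by
    intro j n
    induction n using Int.induction_on with
    | zero => simp
    | succ i ih =>
      rw [← ih, ← hg (j + i * (M * D : ℕ))]
      congr 1
      ring
    | pred i ih =>
      rw [← ih, ← hg (j + (-(i : ℤ) - 1) * (M * D : ℕ))]
      congr 1
      ring
  have hmod : ∀ j : ℤ, g (j % (M * D : ℕ)) = g j := by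
    intro j
    rw [← hper (j % (M * D : ℕ)) (j / (M * D : ℕ))]
    congr 1
    have := Int.emod_add_mul_ediv j (M * D : ℕ)
    linarith
  rw [← Finset.prod_filter]
  refine Finset.prod_bij (fun k _ => ((e + D * k) % (M * D : ℕ)).toNat) ?_ ?_ ?_ ?_
  · intro k _
    rw [Finset.mem_filter, Finset.mem_range]
    have h1 : 0 ≤ (e + D * k) % ((M * D : ℕ) : ℤ) := Int.emod_nonneg _ hN.ne'
    have h2 : (e + D * k) % ((M * D : ℕ) : ℤ) < ((M * D : ℕ) : ℤ) := Int.emod_lt_of_pos _ hN
    refine ⟨by omega, ?_⟩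
    rw [Int.toNat_of_nonneg h1]
    have h3 := Int.emod_add_mul_ediv (e + D * k) ((M * D : ℕ) : ℤ)
    have h4 : (e + D * k) % ((M * D : ℕ) : ℤ) - e =
        D * (k - M * ((e + D * k) / ((M * D : ℕ) : ℤ))) := by
      have : (((M * D : ℕ) : ℤ)) = M * D := by push_cast; ring
      rw [this] at h3 ⊢
      linear_combination h3
    rw [h4]
    exact dvd_mul_right _ _
  · intro k1 hk1 k2 hk2 h
    rw [Finset.mem_range] at hk1 hk2
    have h1 : 0 ≤ (e + D * k1) % ((M * D : ℕ) : ℤ) := Int.emod_nonneg _ hN.ne'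
    have h2 : 0 ≤ (e + D * k2) % ((M * D : ℕ) : ℤ) := Int.emod_nonneg _ hN.ne'
    have h3 : (e + D * k1) % ((M * D : ℕ) : ℤ) = (e + D * k2) % ((M * D : ℕ) : ℤ) := by
      have h' : ((e + D * k1) % ((M * D : ℕ) : ℤ)).toNat =
        ((e + D * k2) % ((M * D : ℕ) : ℤ)).toNat := h
      omega
    have h4 := Int.emod_emod_of_dvd (e + D * k1 - (e + D * k2)) (dvd_refl ((M * D : ℕ) : ℤ))
    have h5 : ((M * D : ℕ) : ℤ) ∣ (e + D * k1) - (e + D * k2) :=
      Int.ModEq.dvd (show (e + D * k2) % ((M * D : ℕ) : ℤ) = (e + D * k1) % ((M * D : ℕ) : ℤ)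
        from h3.symm)
    have h6 : (D : ℤ) * M ∣ D * ((k1 : ℤ) - k2) := by
      have e1 : (D : ℤ) * M = ((M * D : ℕ) : ℤ) := by push_cast; ring
      rw [e1]
      convert h5 using 1
      ring
    have hD0 : (D : ℤ) ≠ 0 := by exact_mod_cast (by omega : D ≠ 0)
    have h7 : (M : ℤ) ∣ ((k1 : ℤ) - k2) := Int.dvd_of_mul_dvd_mul_left hD0 h6
    obtain ⟨c, hc⟩ := h7
    have hc0 : c = 0 := by
      by_contra hne
      rcases lt_or_gt_of_ne hne with h8 | h8
      · have : (M : ℤ) * c ≤ -M := by nlinarith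
        omega
      · have : (M : ℤ) ≤ M * c := by nlinarith
        omega
    rw [hc0, mul_zero] at hc
    omega
  · intro j hj
    rw [Finset.mem_filter, Finset.mem_range] at hj
    obtain ⟨hj1, t, ht⟩ := hj
    have hM0 : (0 : ℤ) < M := by exact_mod_cast hM
    have h1 : 0 ≤ t % (M : ℤ) := Int.emod_nonneg _ hM0.ne'
    have h2 : t % (M : ℤ) < M := Int.emod_lt_of_pos _ hM0
    refine ⟨(t % (M : ℤ)).toNat, by rw [Finset.mem_range]; omega, ?_⟩
    have h3 : (((t % (M : ℤ)).toNat : ℕ) : ℤ) = t % (M : ℤ) := Int.toNat_of_nonneg h1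
    have h4 : (e + D * (((t % (M : ℤ)).toNat : ℕ) : ℤ)) % ((M * D : ℕ) : ℤ) = j := by
      rw [h3]
      have h5 := Int.emod_add_mul_ediv t (M : ℤ)
      have h6 : e + D * (t % (M : ℤ)) = j + ((M * D : ℕ) : ℤ) * (-(t / M)) := by
        push_cast
        linear_combination (D : ℤ) * h5 - ht
      rw [h6, Int.add_mul_emod_self_left]
      exact Int.emod_eq_of_lt (by positivity) (by exact_mod_cast hj1)
    rw [h4]
    simp
  · intro k _
    have h1 : 0 ≤ (e + D * k) % ((M * D : ℕ) : ℤ) := Int.emod_nonneg _ hN.ne'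
    rw [Int.toNat_of_nonneg h1, hmod]

end Pool.Agent.K9h73.EX
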