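import Pool.Agent.K9h73.EX.Nec2

set_option autoImplicit false

/-!
Dependent divisors give multiplicative relations between values of the Gamma function: conclusion.
-/

namespace Pool.Agent.K9h73.EX

open Complex Finset

open Classical in
/-- the multiplicity of the class of `r` in the divisor of `m u + q` -/
noncomputable def cj (m : ℤ) (q r : ℚ) : ℤ :=
  if ∃ k : ℤ, (m : ℚ) * r = q + k then sgq (m : ℚ) else 0

lemma inv_prod' {G α : Type} [CommGroup G] (s : Finset α) (f : α → G) :
    (∏ i ∈ s, f i)⁻¹ = ∏ i ∈ s, (f i)⁻¹ := (Finset.prod_inv_distrib f).symm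

/-- positive case -/
lemma gm_expand_pos (M D : ℕ) (hM : 1 ≤ M) (hD : 1 ≤ D) (q : ℚ) (e : ℤ) (he : (D : ℚ) * q = e) :
    (gm M q : QG) = ∏ j ∈ range (M * D),
      if (D : ℤ) ∣ ((j : ℤ) - e) then (gm 1 ((j : ℚ) / (M * D : ℕ)) : QG) else 1 := by
  have hM0 : (M : ℚ) ≠ 0 := by exact_mod_cast (by omega : M ≠ 0)
  have hD0 : (D : ℚ) ≠ 0 := by exact_mod_cast (by omega : D ≠ 0)
  have h1 := cnt (G := QG) M D hM hD e (fun j : ℤ => (gm 1 ((j : ℚ) / (M * D : ℕ)) : QG)) (by
    intro j
    have h2 := gm_add_one (m := 1) one_ne_zero ((j : ℚ) / (M * D : ℕ))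
    rw [← h2]
    congr 2
    push_cast
    field_simp)
  rw [gm_mult M hM q]
  have h3 : ∏ k ∈ range M, (gm 1 ((q + k) / M) : QG) =
      ∏ k ∈ range M, (gm 1 ((((e + D * k : ℤ) : ℚ)) / (M * D : ℕ)) : QG) := by
    apply Finset.prod_congr rfl
    intro k _
    congr 2
    push_cast
    rw [← he]
    field_simp
  rw [h3, h1]
  apply Finset.prod_congr rfl
  intro j _
  simp only [Int.cast_natCast]

lemma gm_expand (m : ℤ) (hm : m ≠ 0) (q : ℚ) (D : ℕ) (hD : 1 ≤ D) (e : ℤ) (he : (D : ℚ) * q = e) :
    (gm m q : QG) = ∏ j ∈ range (m.natAbs * D),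
      (gm 1 ((j : ℚ) / (m.natAbs * D : ℕ)) : QG) ^ cj m q ((j : ℚ) / (m.natAbs * D : ℕ)) := by
  have hM : 1 ≤ m.natAbs := Int.natAbs_pos.2 hm
  set M := m.natAbs with hMd
  have hM0 : (M : ℚ) ≠ 0 := by exact_mod_cast (by omega : M ≠ 0)
  have hD0 : (D : ℚ) ≠ 0 := by exact_mod_cast (by omega : D ≠ 0)
  rcases Int.natAbs_eq m with hm1 | hm1
  · -- `m = M`
    have hmM : m = M := hm1
    have e1 : gm m q = gm M q := by rw [hmM]
    rw [e1, gm_expand_pos M D hM hD q e he]
    apply Finset.prod_congr rfl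
    intro j _
    have hs : sgq (m : ℚ) = 1 := by
      unfold sgq
      rw [if_pos]
      rw [hmM]
      push_cast
      exact_mod_cast (by omega : 0 < M)
    by_cases hj : (D : ℤ) ∣ ((j : ℤ) - e)
    · have h2 : cj m q ((j : ℚ) / (M * D : ℕ)) = 1 := by
        unfold cj
        rw [if_pos, hs]
        obtain ⟨t, ht⟩ := hj
        refine ⟨t, ?_⟩
        have h3 : (j : ℚ) - e = D * t := by exact_mod_cast ht
        rw [hmM]
        push_cast
        field_simp
        linear_combination h3 - he
      rw [if_pos hj, h2, zpow_one]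
    · have h2 : cj m q ((j : ℚ) / (M * D : ℕ)) = 0 := by
        unfold cj
        rw [if_neg]
        rintro ⟨t, ht⟩
        apply hj
        refine ⟨t, ?_⟩
        rw [hmM] at ht
        push_cast at ht
        field_simp at ht
        have h3 : (j : ℚ) - e = D * t := by linear_combination ht + he
        exact_mod_cast h3
      rw [if_neg hj, h2, zpow_zero]
  · -- `m = -M`
    have hmM : m = -(M : ℤ) := hm1
    have hM1 : ((M : ℤ)) ≠ 0 := by exact_mod_cast (by omega : M ≠ 0)
    have e1 : (gm m q : QG) = ((gm M (-q) : QG))⁻¹ := by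
      rw [← gm_neg hM1 (-q), neg_neg, ← hmM]
    have he' : (D : ℚ) * (-q) = ((-e : ℤ) : ℚ) := by
      push_cast
      linear_combination -he
    rw [e1, gm_expand_pos M D hM hD (-q) (-e) he']
    refine (inv_prod' (G := QG) _ _).trans ?_
    apply Finset.prod_congr rfl
    intro j _
    have hs : sgq (m : ℚ) = -1 := by
      unfold sgq
      rw [if_neg]
      rw [hmM]
      push_cast
      have : (0 : ℚ) < M := by exact_mod_cast (by omega : 0 < M)
      linarith
    by_cases hj : (D : ℤ) ∣ ((j : ℤ) - -e)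
    · have h2 : cj m q ((j : ℚ) / (M * D : ℕ)) = -1 := by
        unfold cj
        rw [if_pos, hs]
        obtain ⟨t, ht⟩ := hj
        refine ⟨-t, ?_⟩
        have h3 : (j : ℚ) + e = D * t := by
          have : ((j : ℤ) : ℚ) - ((-e : ℤ) : ℚ) = D * t := by exact_mod_cast ht
          push_cast at this
          linarith
        rw [hmM]
        push_cast
        field_simp
        linear_combination -h3 - he
      rw [if_pos hj, h2, zpow_neg_one]
    · have h2 : cj m q ((j : ℚ) / (M * D : ℕ)) = 0 := by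
        unfold cj
        rw [if_neg]
        rintro ⟨t, ht⟩
        apply hj
        refine ⟨-t, ?_⟩
        rw [hmM] at ht
        push_cast at ht
        field_simp at ht
        have h3 : (j : ℚ) + e = -(D * t) := by linear_combination -ht - he
        have h4 : ((j : ℤ) : ℚ) - ((-e : ℤ) : ℚ) = D * ((-t : ℤ) : ℚ) := by
          push_cast
          linarith
        exact_mod_cast h4
      rw [if_neg hj, h2, zpow_zero, inv_one]

end Pool.Agent.K9h73.EX
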