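import Pool.Agent.K9h73.EX.Nec3

set_option autoImplicit false

/-!
Dependent divisors give multiplicative relations between values of the Gamma function: the relation.
-/

namespace Pool.Agent.K9h73.EX

open Complex Finset

lemma prod_zpow_same {G α : Type} [CommGroup G] (s : Finset α) (g : G) (f : α → ℤ) :
    ∏ i ∈ s, g ^ f i = g ^ (∑ i ∈ s, f i) := by
  classical
  induction s using Finset.induction_on with
  | empty => simp
  | insert i s hi ih => rw [Finset.prod_insert hi, Finset.sum_insert hi, ih, zpow_add]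

lemma swap_prod {G α β : Type} [CommGroup G] [Fintype α] (s : Finset β) (g : β → G) (a : α → ℤ)
    (c : α → β → ℤ) (h : ∀ j ∈ s, ∑ i, a i * c i j = 0) :
    ∏ i, (∏ j ∈ s, g j ^ c i j) ^ a i = 1 := by
  have e1 : ∀ i, (∏ j ∈ s, g j ^ c i j) ^ a i = ∏ j ∈ s, g j ^ (a i * c i j) := by
    intro i
    rw [← Finset.prod_zpow]
    apply Finset.prod_congr rfl
    intro j _
    rw [← zpow_mul]
    congr 1
    ring
  rw [Finset.prod_congr rfl (fun i _ => e1 i), Finset.prod_comm]
  apply Finset.prod_eq_one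
  intro j hj
  rw [prod_zpow_same, h j hj, zpow_zero]

theorem nec_core {ι : Type} [Fintype ι] (m : ι → ℤ) (q : ι → ℚ) (hm : ∀ i, m i ≠ 0) (a : ι → ℤ)
    (h : ∀ r : ℚ, ∑ i, a i * cj (m i) (q i) r = 0) :
    ∃ P ∈ EE, ∃ Q ∈ EE, P ≠ 0 ∧ Q ≠ 0 ∧ ∀ u : ℂ,
      P u * ∏ i, (Gamma (m i * u + q i))⁻¹ ^ (a i).toNat =
        Q u * ∏ i, (Gamma (m i * u + q i))⁻¹ ^ (-a i).toNat := by
  classical
  -- a common denominator
  set N : ℕ := ∏ i, ((m i).natAbs * (q i).den) with hN
  have hDi : ∀ i, ∃ D : ℕ, 1 ≤ D ∧ (m i).natAbs * D = N ∧ ∃ e : ℤ, (D : ℚ) * q i = e := by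
    intro i
    have h1 : (m i).natAbs * (q i).den ∣ N :=
      Finset.dvd_prod_of_mem (fun i => (m i).natAbs * (q i).den) (Finset.mem_univ i)
    obtain ⟨c, hc⟩ := h1
    have hN0 : 0 < N := Finset.prod_pos fun i _ =>
      Nat.mul_pos (Int.natAbs_pos.2 (hm i)) (q i).den_pos
    refine ⟨(q i).den * c, ?_, by rw [hc]; ring, (q i).num * c, ?_⟩
    · rcases Nat.eq_zero_or_pos ((q i).den * c) with h2 | h2
      · rw [mul_assoc, h2, mul_zero] at hc
        omega
      · exact h2
    · push_cast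
      have := Rat.mul_den_eq_num (q i)
      linear_combination (c : ℚ) * this
  choose D hD1 hDN e he using hDi
  have hexp : ∀ i, (gm (m i) (q i) : QG) =
      ∏ j ∈ range N, (gm 1 ((j : ℚ) / N) : QG) ^ cj (m i) (q i) ((j : ℚ) / N) := by
    intro i
    have h1 := gm_expand (m i) (hm i) (q i) (D i) (hD1 i) (e i) (he i)
    rw [hDN i] at h1
    exact h1
  have h1 : ∏ i, (gm (m i) (q i) : QG) ^ a i = 1 := by
    have h2 := swap_prod (G := QG) (range N) (fun j => (gm 1 ((j : ℚ) / N) : QG)) a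
      (fun i j => cj (m i) (q i) ((j : ℚ) / N)) (fun j _ => h _)
    rw [← h2]
    apply Finset.prod_congr rfl
    intro i _
    rw [hexp i]
  have h2 : ((∏ i, (gm (m i) (q i)) ^ a i : HP → ℂˣ) : QG) = 1 := by
    rw [mk_prod]
    exact h1
  rw [QuotientGroup.eq_one_iff] at h2
  obtain ⟨P, hP, Q, hQ, hP0, hQ0, h3⟩ := h2
  refine ⟨Q, hQ, P, hP, hQ0, hP0, ?_⟩
  -- on the upper half plane
  have h4 : ∀ u : HP, Q u.1 * ∏ i, (Gamma (m i * u.1 + q i))⁻¹ ^ (a i).toNat =
      P u.1 * ∏ i, (Gamma (m i * u.1 + q i))⁻¹ ^ (-a i).toNat := by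
    intro u
    rw [← h3 u, mul_assoc]
    congr 1
    rw [Finset.prod_apply, Units.coe_prod, ← Finset.prod_mul_distrib]
    apply Finset.prod_congr rfl
    intro i _
    have hne := gm_ne (hm i) (q i) u
    rw [Pi.pow_apply, Units.val_zpow_eq_zpow_val, gm_val (hm i)]
    rw [← zpow_natCast, ← zpow_natCast, inv_zpow', inv_zpow', ← zpow_add₀ hne]
    congr 1
    have h5 := Int.toNat_sub_toNat_neg (a i)
    linarith
  have hf : AnalyticOnNhd ℂ (fun u : ℂ => Q u * ∏ i, (Gamma (m i * u + q i))⁻¹ ^ (a i).toNat)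
      Set.univ := by
    have : Differentiable ℂ
        (fun u : ℂ => Q u * ∏ i, (Gamma (m i * u + q i))⁻¹ ^ (a i).toNat) := by
      apply (EE_diff hQ).mul
      apply Differentiable.fun_finsetProd
      intro i _
      exact (differentiable_one_div_Gamma.comp
        ((differentiable_id.const_mul _).add_const _)).pow _
    exact fun z _ => this.analyticAt z
  have hg : AnalyticOnNhd ℂ (fun u : ℂ => P u * ∏ i, (Gamma (m i * u + q i))⁻¹ ^ (-a i).toNat)
      Set.univ := by
    have : Differentiable ℂ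
        (fun u : ℂ => P u * ∏ i, (Gamma (m i * u + q i))⁻¹ ^ (-a i).toNat) := by
      apply (EE_diff hP).mul
      apply Differentiable.fun_finsetProd
      intro i _
      exact (differentiable_one_div_Gamma.comp
        ((differentiable_id.const_mul _).add_const _)).pow _
    exact fun z _ => this.analyticAt z
  intro u
  have h5 : (fun u : ℂ => Q u * ∏ i, (Gamma (m i * u + q i))⁻¹ ^ (a i).toNat) =ᶠ[nhds I]
      fun u : ℂ => P u * ∏ i, (Gamma (m i * u + q i))⁻¹ ^ (-a i).toNat := by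
    have h6 : {u : ℂ | 0 < u.im} ∈ nhds I :=
      (isOpen_lt continuous_const continuous_im).mem_nhds (by simp)
    filter_upwards [h6] with u hu
    exact h4 ⟨u, hu⟩
  exact hf.eqOn_of_preconnected_of_eventuallyEq hg isPreconnected_univ (Set.mem_univ I) h5
    (Set.mem_univ u)

end Pool.Agent.K9h73.EX
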