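import Pool.Agent.K9h73.EX.Glob2
import Pool.Agent.K9h73.EX.Sev

/-!
The theorem in several variables, for independent divisors: the values of `1 / Γ` at algebraic
functions `y i` and of the exponential function at algebraic functions `w j` are algebraically
independent.
-/

set_option autoImplicit false

namespace Pool.Agent.K9h73.EX

open Complex Pool.Agent.W175.GF Topology
open Pool.Agent.W253.GF (exists_generic poly_ne exists_dir res eval_res)

variable {d : ℕ} {Ω : Set (Fin d → ℂ)}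

/-- **Values of `1 / Γ` and of the exponential function at algebraic functions.** -/
theorem jgtd2 (n l : ℕ) (y : Fin n → (Fin d → ℂ) → ℂ) (w : Fin l → (Fin d → ℂ) → ℂ)
    (hΩo : IsOpen Ω) (hΩp : IsPreconnected Ω) (hΩn : Ω.Nonempty)
    (hy : ∀ i, AnalyticOnNhd ℂ (y i) Ω) (hw : ∀ j, AnalyticOnNhd ℂ (w j) Ω)
    (hQ : ∀ i, ∃ Q : Polynomial (MvPolynomial (Fin d) ℂ), Q ≠ 0 ∧
      ∀ t ∈ Ω, (Q.map (MvPolynomial.eval t)).eval (y i t) = 0)
    (hQw : ∀ j, ∃ Q : Polynomial (MvPolynomial (Fin d) ℂ), Q ≠ 0 ∧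
      ∀ t ∈ Ω, (Q.map (MvPolynomial.eval t)).eval (w j t) = 0)
    (hnc : ∀ i, ∀ v : ℂ, ¬ ∀ t ∈ Ω, y i t = v)
    (hind : Ind Ω y)
    (hli : ∀ a : Fin l → ℤ, a ≠ 0 → ∀ v : ℂ, ¬ ∀ t ∈ Ω, ∑ j, (a j : ℂ) * w j t = v)
    (P : MvPolynomial (Fin n ⊕ Fin l) (MvPolynomial (Fin d) ℂ)) (hP : P ≠ 0) :
    ∃ t ∈ Ω, MvPolynomial.eval (Sum.elim (fun i => (Gamma (y i t))⁻¹) (fun j => exp (w j t)))
      (P.map (MvPolynomial.eval t)) ≠ 0 := by
  classical
  by_contra hcon
  push Not at hcon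
  -- exponents of the exponential functions
  let MS : Finset (Fin l → ℕ) := P.support.image (fun κ j => κ (Sum.inr j))
  let N : Finset (Fin n → ℕ) := P.support.image (fun κ i => κ (Sum.inl i))
  let Δ : Finset ((Fin l → ℕ) × (Fin l → ℕ)) := (MS ×ˢ MS).filter (fun p => p.1 ≠ p.2)
  let dw : (Fin l → ℕ) × (Fin l → ℕ) → (Fin d → ℂ) → ℂ := fun p t =>
    ∑ j, ((p.1 j : ℂ) - (p.2 j : ℂ)) * w j t
  have hdwan : ∀ p, AnalyticOnNhd ℂ (dw p) Ω := by
    intro p
    apply Finset.analyticOnNhd_fun_sum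
    intro j _
    exact analyticOnNhd_const.mul (hw j)
  have hdwnc : ∀ p ∈ Δ, ∀ v : ℂ, ¬ ∀ t ∈ Ω, dw p t = v := by
    intro p hp v hv
    refine hli (fun j => (p.1 j : ℤ) - p.2 j) ?_ v ?_
    · intro h0
      apply (Finset.mem_filter.1 hp).2
      funext j
      have := congrFun h0 j
      simp only [Pi.zero_apply] at this
      omega
    · intro t ht
      rw [← hv t ht]
      apply Finset.sum_congr rfl
      intro j _
      push_cast
      rfl
  -- direction
  obtain ⟨v, hv⟩ := exists_dir' hΩo hΩp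
    (Sum.elim y (fun p : {p // p ∈ Δ} => dw p.1)) (by
      rintro (i | p)
      · exact hy i
      · exact hdwan p.1) (by
      rintro (i | p)
      · exact hnc i
      · exact hdwnc p.1 p.2)
  choose Q hQ0 hQe using hQ
  choose Q' hQ'0 hQ'e using hQw
  -- a coefficient of `P`
  obtain ⟨k0, hk0⟩ := MvPolynomial.ne_zero_iff.1 hP
  have hq : ∀ i, ∃ m, (Q i).coeff m ≠ 0 := by
    intro i
    by_contra hc
    push Not at hc
    exact hQ0 i (Polynomial.ext (fun m => by rw [hc m, Polynomial.coeff_zero]))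
  choose qm hqm using hq
  have hq' : ∀ i, ∃ m, (Q' i).coeff m ≠ 0 := by
    intro i
    by_contra hc
    push Not at hc
    exact hQ'0 i (Polynomial.ext (fun m => by rw [hc m, Polynomial.coeff_zero]))
  choose qm' hqm' using hq'
  -- generic point
  let H : Set ((Fin d → ℂ) → ℂ) :=
    Set.range (fun i : Fin n ⊕ {p // p ∈ Δ} => fun t =>
      fderiv ℂ (Sum.elim y (fun p : {p // p ∈ Δ} => dw p.1) i) t v) ∪
    (Set.range (fun z : {z : (Fin n × Fin n) × (ℤ × ℤ) × ℚ // ¬ ∀ t ∈ Ω,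
        y z.1.1 t - z.2.1.1 = z.2.2 * (y z.1.2 t - z.2.1.2)} => fun t =>
      (y z.1.1.1 t - z.1.2.1.1) - (z.1.2.2 * (y z.1.1.2 t - z.1.2.1.2))) ∪
    ({fun t => MvPolynomial.eval t (P.coeff k0)} ∪
    (Set.range (fun i : Fin n => fun t => MvPolynomial.eval t ((Q i).coeff (qm i))) ∪
    Set.range (fun j : Fin l => fun t => MvPolynomial.eval t ((Q' j).coeff (qm' j))))))
  have hHc : H.Countable :=
    (Set.countable_range _).union ((Set.countable_range _).union
      ((Set.countable_singleton _).union ((Set.countable_range _).union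
        (Set.countable_range _))))
  have hpoly : ∀ p : MvPolynomial (Fin d) ℂ,
      AnalyticOnNhd ℂ (fun t : Fin d → ℂ => MvPolynomial.eval t p) Ω := fun p =>
    (AnalyticOnNhd.eval_mvPolynomial p).mono (Set.subset_univ _)
  have hfan : ∀ i, AnalyticOnNhd ℂ (Sum.elim y (fun p : {p // p ∈ Δ} => dw p.1) i) Ω := by
    rintro (i | p)
    · exact hy i
    · exact hdwan p.1
  obtain ⟨t0, ht0Ω, ht0⟩ := exists_generic hΩo hΩp hΩn H hHc (by
    rintro h (⟨i, rfl⟩ | ⟨z, rfl⟩ | rfl | ⟨i, rfl⟩ | ⟨j, rfl⟩)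
    · exact (ContinuousLinearMap.apply ℂ ℂ v).comp_analyticOnNhd (hfan i).fderiv
    · exact ((hy _).sub analyticOnNhd_const).sub
        (analyticOnNhd_const.mul ((hy _).sub analyticOnNhd_const))
    · exact hpoly _
    · exact hpoly _
    · exact hpoly _) (by
    rintro h (⟨i, rfl⟩ | ⟨z, rfl⟩ | rfl | ⟨i, rfl⟩ | ⟨j, rfl⟩)
    · exact hv i
    · have h1 := z.2
      push Not at h1
      obtain ⟨t, ht, ht2⟩ := h1
      exact ⟨t, ht, sub_ne_zero.2 ht2⟩
    · exact poly_ne hΩo hΩn _ hk0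
    · exact poly_ne hΩo hΩn _ (hqm i)
    · exact poly_ne hΩo hΩn _ (hqm' j))
  have g1 : ∀ i, fderiv ℂ (y i) t0 v ≠ 0 := fun i => ht0 _ (Or.inl ⟨Sum.inl i, rfl⟩)
  have g1' : ∀ p ∈ Δ, fderiv ℂ (dw p) t0 v ≠ 0 := fun p hp =>
    ht0 _ (Or.inl ⟨Sum.inr ⟨p, hp⟩, rfl⟩)
  have g2 : ∀ (i j : Fin n) (k k' : ℤ) (p : ℚ), y i t0 - k = p * (y j t0 - k') →
      ∀ t ∈ Ω, y i t - k = p * (y j t - k') := by
    intro i j k k' p h1
    by_contra h2
    have := ht0 _ (Or.inr (Or.inl ⟨⟨((i, j), (k, k'), p), h2⟩, rfl⟩))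
    exact this (sub_eq_zero.2 h1)
  have g4 : MvPolynomial.eval t0 (P.coeff k0) ≠ 0 :=
    ht0 _ (Or.inr (Or.inr (Or.inl rfl)))
  have g5 : ∀ i, MvPolynomial.eval t0 ((Q i).coeff (qm i)) ≠ 0 := fun i =>
    ht0 _ (Or.inr (Or.inr (Or.inr (Or.inl ⟨i, rfl⟩))))
  have g6 : ∀ j, MvPolynomial.eval t0 ((Q' j).coeff (qm' j)) ≠ 0 := fun j =>
    ht0 _ (Or.inr (Or.inr (Or.inr (Or.inr ⟨j, rfl⟩))))
  -- the line
  have hℓd : Differentiable ℂ (fun u : ℂ => t0 + u • v) := by
    intro u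
    exact (differentiableAt_id.smul_const v).const_add t0
  have hnear : ∀ᶠ u in 𝓝 (0 : ℂ), t0 + u • v ∈ Ω :=
    hℓd.continuous.continuousAt.preimage_mem_nhds (hΩo.mem_nhds (by
      rw [zero_smul, add_zero]; exact ht0Ω))
  obtain ⟨r, hr0, hBΩ⟩ := Metric.eventually_nhds_iff_ball.1 hnear
  set B : Set ℂ := Metric.ball 0 r with hBdef
  have h0B : (0 : ℂ) ∈ B := Metric.mem_ball_self hr0
  have hcompd : ∀ f : (Fin d → ℂ) → ℂ, AnalyticOnNhd ℂ f Ω →
      DifferentiableOn ℂ (fun u : ℂ => f (t0 + u • v)) B := by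
    intro f hf u hu
    exact ((hf _ (hBΩ u hu)).differentiableAt.comp u (hℓd u)).differentiableWithinAt
  let comb : (Fin n → ℕ) → (Fin l → ℕ) → (Fin n ⊕ Fin l →₀ ℕ) := fun k μ =>
    Finsupp.equivFunOnFinite.symm (Sum.elim k μ)
  have hcombl : ∀ k μ i, comb k μ (Sum.inl i) = k i := fun k μ i => rfl
  have hcombr : ∀ k μ j, comb k μ (Sum.inr j) = μ j := fun k μ j => rfl
  have hcomb : ∀ κ : Fin n ⊕ Fin l →₀ ℕ, comb (fun i => κ (Sum.inl i)) (fun j => κ (Sum.inr j)) = κ := by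
    intro κ
    ext s
    rcases s with i | j
    · rfl
    · rfl
  let W : {μ // μ ∈ MS} → ℂ → ℂ := fun μ u => ∑ j, (μ.1 j : ℂ) * w j (t0 + u • v)
  let c : (Fin n → ℕ) → {μ // μ ∈ MS} → ℂ → ℂ := fun k μ u =>
    MvPolynomial.eval (t0 + u • v) (P.coeff (comb k μ.1))
  have hcres : ∀ k μ u, c k μ u = (res t0 v (P.coeff (comb k μ.1))).eval u := fun k μ u =>
    (eval_res t0 v _ u).symm
  have key := jgt2 (Fin n) {μ // μ ∈ MS} B id (fun i u => y i (t0 + u • v)) W N c
    Metric.isOpen_ball (convex_ball 0 r).isPreconnected ⟨0, h0B⟩ differentiableOn_id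
    (fun i => hcompd _ (hy i)) (fun μ => by
      apply DifferentiableOn.fun_sum
      intro j _
      exact (hcompd _ (hw j)).const_mul _) (fun k _ μ => by
      have : c k μ = fun u => (res t0 v (P.coeff (comb k μ.1))).eval u := funext (hcres k μ)
      rw [this]
      exact (Polynomial.differentiable _).differentiableOn) (by
      intro x hx
      have h1 := hx 0 h0B
      have h2 := hx ((r / 2 : ℝ) : ℂ) (by
        rw [hBdef, Metric.mem_ball, dist_zero_right, Complex.norm_real, Real.norm_eq_abs,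
          abs_of_pos (by linarith)]
        linarith)
      rw [← h1] at h2
      have h3 : ((r / 2 : ℝ) : ℂ) = 0 := h2
      rw [Complex.ofReal_eq_zero] at h3
      linarith) (fun i x => nonconst_line ((hy i) t0 ht0Ω) (g1 i) hr0 x)
    (fun i => algDep_line (g5 i) (hQe i) hBΩ)
    (fun μ => AlgDep.sum' _ _ fun j _ => AlgDep.mul' (AlgDep.const' _)
      (algDep_line (g6 j) (hQ'e j) hBΩ)) (by
      intro k _ μ
      refine ⟨Polynomial.X - Polynomial.C (res t0 v (P.coeff (comb k μ.1))),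
        Polynomial.X_sub_C_ne_zero _, fun u _ => ?_⟩
      rw [hcres]
      simp [Polynomial.evalEval]) (by
      refine hind.pattern ?_
      intro i j k k' p
      constructor
      · intro h u hu
        exact h _ (hBΩ u hu)
      · intro h
        have h1 := h 0 h0B
        simp only [zero_smul, add_zero] at h1
        exact g2 i j k k' p h1) (by
      intro μ μ' hμμ x hx
      have hp : (μ.1, μ'.1) ∈ Δ := Finset.mem_filter.2
        ⟨Finset.mem_product.2 ⟨μ.2, μ'.2⟩, fun h => hμμ (Subtype.ext h)⟩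
      refine nonconst_line (hdwan (μ.1, μ'.1) t0 ht0Ω) (g1' _ hp) hr0 x ?_
      intro u hu
      rw [← hx u hu]
      simp only [dw, W]
      rw [← Finset.sum_sub_distrib]
      apply Finset.sum_congr rfl
      intro j _
      ring) (by
      intro u hu
      have h1 := hcon (t0 + u • v) (hBΩ u hu)
      rw [MvPolynomial.eval_map, MvPolynomial.eval₂_eq'] at h1
      set f : (Fin n ⊕ Fin l →₀ ℕ) → ℂ := fun κ => MvPolynomial.eval (t0 + u • v) (P.coeff κ) *
        ∏ s, (Sum.elim (fun i => (Gamma (y i (t0 + u • v)))⁻¹)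
          (fun j => exp (w j (t0 + u • v))) s) ^ κ s with hf
      have h2 : ∑ κ ∈ (N ×ˢ MS).image (fun p => comb p.1 p.2), f κ = 0 := by
        rw [← h1]
        symm
        apply Finset.sum_subset
        · intro κ hκ
          refine Finset.mem_image.2 ⟨(fun i => κ (Sum.inl i), fun j => κ (Sum.inr j)),
            Finset.mem_product.2 ⟨Finset.mem_image.2 ⟨κ, hκ, rfl⟩,
              Finset.mem_image.2 ⟨κ, hκ, rfl⟩⟩, hcomb κ⟩
        · intro κ _ hκ
          show MvPolynomial.eval (t0 + u • v) (P.coeff κ) * _ = 0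
          rw [MvPolynomial.notMem_support_iff.1 hκ, map_zero, zero_mul]
      rw [Finset.sum_image, Finset.sum_product] at h2
      · rw [← h2]
        apply Finset.sum_congr rfl
        intro k _
        rw [Finset.sum_mul, ← Finset.sum_coe_sort MS]
        apply Finset.sum_congr rfl
        intro μ _
        simp only [hf, c, W]
        rw [Fintype.prod_sum_type]
        simp only [Sum.elim_inl, Sum.elim_inr, hcombl, hcombr]
        rw [Complex.exp_sum]
        have e1 : ∀ j, exp ((μ.1 j : ℂ) * w j (t0 + u • v)) = exp (w j (t0 + u • v)) ^ μ.1 j :=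
          fun j => Complex.exp_nat_mul _ _
        rw [Finset.prod_congr rfl fun j _ => e1 j]
        ring
      · rintro ⟨k, μ⟩ _ ⟨k', μ'⟩ _ h
        have h' : comb k μ = comb k' μ' := h
        ext s
        · show k s = k' s
          rw [← hcombl k μ s, h', hcombl]
        · show μ s = μ' s
          rw [← hcombr k μ s, h', hcombr])
  have hk0s : k0 ∈ P.support := MvPolynomial.mem_support_iff.2 hk0
  have h1 := key (fun i => k0 (Sum.inl i)) (Finset.mem_image.2 ⟨k0, hk0s, rfl⟩)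
    ⟨fun j => k0 (Sum.inr j), Finset.mem_image.2 ⟨k0, hk0s, rfl⟩⟩ 0 h0B
  apply g4
  simp only [c, zero_smul, add_zero] at h1
  rw [hcomb k0] at h1
  exact h1

end Pool.Agent.K9h73.EX
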