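import Pool.Agent.K9h73.EX.Num
import Pool.Agent.K9h73.EX.Sev2

set_option autoImplicit false

/-!
Tuples of given transcendence degree: the exceptional set for values of `Γ` and `exp` together, for
independent divisors.  The proofs follow `TH814.GD.AlgPiece` and `TH814.GD.AlgMain`.
-/

namespace Pool.Agent.K9h73.EX

open Filter Topology Set Module
open scoped Polynomial
open Pool.Agent.TH814.GS Pool.Agent.TH814.GD

variable {F : Type} [Field F] [Algebra F ℂ] {n : ℕ}

/-- independence of the divisors of `1 / Γ` at the coordinates in `A` of a point -/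
def IndAt (A : Finset (Fin n)) (x : Fin n → ℂ) : Prop :=
  Ind {x} (fun (i : ↥A) (z : Fin n → ℂ) => z i)

/-- a number which is not algebraic over `F` is not rational -/
lemma irr_of_alg {x : ℂ} (hx : ¬ IsAlgebraic F x) (q : ℚ) : x ≠ q := by
  rintro rfl
  apply hx
  have : CharZero F := charZero_of F
  have e : ((q : ℚ) : ℂ) = algebraMap F ℂ (q : F) := by simp
  rw [e]
  exact isAlgebraic_algebraMap _

/-- points on given graphs of algebraic functions with one relation more -/
def S6 (I A B : Finset (Fin n)) (P : Fin n → (MvPolynomial ↥I F)[X])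
    (Q : MvPolynomial (↥I ⊕ (↥A ⊕ ↥B)) F) : Set (Fin n → ℂ) :=
  {z | z ∈ S3 I P ∧ (∀ i ∈ A, ¬ IsAlgebraic F (z i)) ∧
    IndAt A z ∧
    (∀ a : Fin n → ℤ, (∃ j ∈ B, a j ≠ 0) → ¬ IsAlgebraic F (∑ j ∈ B, (a j : ℂ) * z j)) ∧
    MvPolynomial.aeval (gv2 I A B z) Q = 0}

lemma S6_thin {m : ℕ} {I A B : Finset (Fin n)}
    (hI : I.card ≤ m + 1) (P : Fin n → (MvPolynomial ↥I F)[X])
    {Q : MvPolynomial (↥I ⊕ (↥A ⊕ ↥B)) F} (hQ : Q ≠ 0) : Thin m (S6 I A B P Q) := by
  classical
  have hIc : Fintype.card ↥I ≤ m + 1 := by rwa [Fintype.card_coe]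
  apply thin_local
  rintro z ⟨hz, hz1, hz2, hzB, hz3⟩
  obtain ⟨Ψ, a1, a2, a3, a4, a5⟩ := S3_graph hz
  obtain ⟨ε, hε, hball⟩ := Metric.eventually_nhds_iff_ball.1 (a1.eventually_analyticAt.and a5)
  set V := Metric.ball (rs I z) ε with hVdef
  have hV : IsOpen V := Metric.isOpen_ball
  have hVc : Convex ℝ V := convex_ball _ _
  have hVp : IsPreconnected V := hVc.isPreconnected
  have hzV : rs I z ∈ V := Metric.mem_ball_self hε
  have hψ : ∀ j, AnalyticOnNhd ℂ (fun x => Ψ x j) V := fun j x hx =>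
    (analyticAt_pi_iff.1 (hball x hx).1) j
  have hrs : ∀ x, rs I (Ψ x) = x := fun x => funext (fun i => a4 x i)
  have hh : AnalyticOnNhd ℂ (fun x : ↥I → ℂ => MvPolynomial.aeval (gv2 I A B (Ψ x)) Q) V := by
    refine AnalyticOnNhd.aeval_mvPolynomial (A := F) ?_ Q
    rintro (i | t | t)
    · exact hψ i
    · exact g_an (hψ t)
    · exact fun x hx => (hψ t x hx).cexp
  have hVn : ∀ᶠ z' in 𝓝 z, rs I z' ∈ V := (rs_cont I).continuousAt.eventually (hV.mem_nhds hzV)
  by_cases hA : ∃ x ∈ V, MvPolynomial.aeval (gv2 I A B (Ψ x)) Q ≠ 0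
  · refine local_thin a1 ?_ (thin_zero hV hVp hh hA hIc)
    filter_upwards [a3, hVn] with z' b1 b2 hz'
    have b3 := b1 hz'.1
    refine ⟨b3, b2, ?_⟩
    rw [b3]
    exact hz'.2.2.2.2
  exfalso
  push Not at hA
  -- the relations
  set P' : Fin n → (MvPolynomial ↥I F)[X] := fun j =>
    if hj : j ∈ I then Polynomial.X - Polynomial.C (MvPolynomial.X ⟨j, hj⟩) else P j with hP'
  have hP'0 : ∀ j, P' j ≠ 0 := by
    intro j
    by_cases hj : j ∈ I
    · simp only [hP', hj, dite_true]
      exact Polynomial.X_sub_C_ne_zero _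
    · simp only [hP', hj, dite_false]
      exact (hz j hj).1
  have hP'e : ∀ j, ∀ x ∈ V, HH (P' j) (x, Ψ x j) = 0 := by
    intro j x hx
    by_cases hj : j ∈ I
    · have e1 := a4 x ⟨j, hj⟩
      simp only [hP', hj, dite_true]
      unfold HH
      rw [Polynomial.eval₂_sub, Polynomial.eval₂_X, Polynomial.eval₂_C]
      simp only at e1
      rw [e1]
      simp
    · simp only [hP', hj, dite_false]
      exact (hball x hx).2 j hj
  -- reindexing
  set eI : Fin I.card ≃ ↥I := I.equivFin.symm with heI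
  set eA : Fin A.card ≃ ↥A := A.equivFin.symm with heA
  set eB : Fin B.card ≃ ↥B := B.equivFin.symm with heB
  set ρ : (Fin I.card → ℂ) → (↥I → ℂ) := fun t i => t (eI.symm i) with hρ
  have hρc : Continuous ρ := continuous_pi fun i => continuous_apply _
  have hρa : AnalyticOnNhd ℂ ρ univ := by
    intro t _
    rw [analyticAt_pi_iff]
    intro i
    exact (ContinuousLinearMap.proj (R := ℂ) (φ := fun _ : Fin I.card => ℂ)
      (eI.symm i)).analyticAt _
  have hΩc : Convex ℝ (ρ ⁻¹' V) := by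
    intro s hs t ht a b ha hb hab
    have e1 : ρ (a • s + b • t) = a • ρ s + b • ρ t := rfl
    change ρ (a • s + b • t) ∈ V
    rw [e1]
    exact hVc hs ht ha hb hab
  have hbase : ρ (fun k => z (eI k)) = rs I z := by
    funext i
    simp only [hρ, Equiv.apply_symm_apply]
    rfl
  have hbV : (fun k => z (eI k)) ∈ ρ ⁻¹' V := by
    rw [Set.mem_preimage, hbase]
    exact hzV
  have hxρ : ∀ x : ↥I → ℂ, ρ (fun k => x (eI k)) = x := by
    intro x
    funext i
    simp only [hρ, Equiv.apply_symm_apply]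
  -- the polynomial
  set e : ↥I ⊕ (↥A ⊕ ↥B) → (Fin A.card ⊕ Fin B.card) ⊕ Fin I.card := fun s =>
    s.elim (fun i => Sum.inr (eI.symm i)) (fun t => Sum.inl (Sum.map eA.symm eB.symm t)) with he
  have hei : Function.Injective e := by
    rintro (i | i) (j | j) h
    · simp only [he, Sum.elim_inl, Sum.inr.injEq] at h
      rw [eI.symm.injective h]
    · simp [he] at h
    · simp [he] at h
    · simp only [he, Sum.elim_inr, Sum.inl.injEq] at h
      rw [(eA.symm.injective.sumMap eB.symm.injective) h]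
  have hQ1 : MvPolynomial.map (algebraMap F ℂ) Q ≠ 0 := fun h => hQ
      ((map_eq_zero_iff _ (MvPolynomial.map_injective _ (algebraMap F ℂ).injective)).1 h)
  have hR : MvPolynomial.sumAlgEquiv ℂ (Fin A.card ⊕ Fin B.card) (Fin I.card)
      (MvPolynomial.rename e (MvPolynomial.map (algebraMap F ℂ) Q)) ≠ 0 := by
    intro h
    apply hQ1
    apply (map_eq_zero_iff _ (MvPolynomial.rename_injective _ hei)).1
    exact (map_eq_zero_iff _
      (MvPolynomial.sumAlgEquiv ℂ (Fin A.card ⊕ Fin B.card) (Fin I.card)).injective).1 h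
  have halgc : ∀ k : Fin n, ∃ Q : Polynomial (MvPolynomial (Fin I.card) ℂ), Q ≠ 0 ∧
      ∀ t ∈ ρ ⁻¹' V, (Q.map (MvPolynomial.eval t)).eval (Ψ (ρ t) k) = 0 := by
    intro k
    obtain ⟨Q', h1, h2⟩ := reindex_rel eI (hP'0 k)
    refine ⟨Q', h1, fun t ht => ?_⟩
    rw [h2]
    exact hP'e k (ρ t) ht
  have hanc : ∀ k : Fin n, AnalyticOnNhd ℂ (fun t => Ψ (ρ t) k) (ρ ⁻¹' V) := fun k t ht =>
    (hψ k (ρ t) ht).comp (hρa t (mem_univ _))
  obtain ⟨t, htΩ, hval⟩ := jgtd2 (Ω := ρ ⁻¹' V) A.card B.card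
    (fun k t => Ψ (ρ t) (eA k)) (fun k t => Ψ (ρ t) (eB k))
    (hV.preimage hρc) hΩc.isPreconnected ⟨_, hbV⟩
    (fun k => hanc _) (fun k => hanc _) (fun k => halgc _) (fun k => halgc _)
    (by
      intro k v hv
      have hT := (eA k).2
      apply hz1 _ hT
      have hv0 : v = z (eA k) := by
        have := hv _ hbV
        rw [hbase, a2] at this
        exact this.symm
      rw [← hv0]
      refine const_alg2 hV ⟨_, hzV⟩ (hP'0 (eA k)) ?_
      intro x hx
      have h1 := hv (fun k => x (eI k)) (by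
        rw [Set.mem_preimage, hxρ]
        exact hx)
      rw [hxρ] at h1
      rw [← h1]
      exact hP'e (eA k) x hx)
    (by
      have hirr : ∀ (k : Fin A.card) (q : ℚ), z (eA k) ≠ q := fun k =>
        irr_of_alg (hz1 _ (eA k).2)
      have h1 : Ind {z} (fun (k : Fin A.card) (z : Fin n → ℂ) => z (eA k)) :=
        Ind.sub (Ω := ({z} : Set (Fin n → ℂ))) (f := fun (i : ↥A) (z : Fin n → ℂ) => z i) (fun i q h =>
          irr_of_alg (hz1 _ i.2) q (h z rfl)) hz2 eA eA.injective
      refine h1.spec ?_ ?_ ?_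
      · intro k q h
        have h2 := h _ hbV
        rw [hbase, a2] at h2
        exact hirr k q h2
      · intro k q h
        exact hirr k q (h z rfl)
      · rintro i j k k' p h z' rfl
        have h2 := h _ hbV
        rw [hbase, a2] at h2
        exact h2)
    (by
      intro a ha v hv
      obtain ⟨j0, hj0⟩ := Function.ne_iff.1 ha
      set b : Fin n → ℤ := fun j => if hj : j ∈ B then a (eB.symm ⟨j, hj⟩) else 0 with hb
      have hsum : ∀ x : Fin n → ℂ, ∑ j ∈ B, (b j : ℂ) * x j = ∑ k, (a k : ℂ) * x (eB k) := by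
        intro x
        rw [← Finset.sum_coe_sort B, ← eB.sum_comp]
        apply Finset.sum_congr rfl
        intro k _
        have : b (eB k) = a k := by
          simp only [hb, (eB k).2, dite_true, Subtype.coe_eta, Equiv.symm_apply_apply]
        rw [this]
      refine hzB b ⟨eB j0, (eB j0).2, ?_⟩ ?_
      · simp only [hb, (eB j0).2, dite_true, Subtype.coe_eta, Equiv.symm_apply_apply]
        exact hj0
      · have hv0 : v = ∑ j ∈ B, (b j : ℂ) * z j := by
          have := hv _ hbV
          rw [hbase, a2] at this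
          rw [hsum, ← this]
        rw [← hv0]
        refine comb_alg hV ⟨_, hzV⟩ P' hP'0 Ψ hP'e B b ?_
        intro x hx
        have h1 := hv (fun k => x (eI k)) (by
          rw [Set.mem_preimage, hxρ]
          exact hx)
        rw [hxρ] at h1
        rw [hsum]
        exact h1)
    _ hR
  apply hval
  rw [sum_eval', MvPolynomial.eval_rename]
  have hcomp : (Sum.elim (Sum.elim (fun i => (Complex.Gamma (Ψ (ρ t) (eA i)))⁻¹)
      (fun j => Complex.exp (Ψ (ρ t) (eB j)))) t) ∘ e = gv2 I A B (Ψ (ρ t)) := by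
    funext s
    rcases s with i | s | s
    · change t (eI.symm i) = Ψ (ρ t) i
      rw [a4]
    · change (Complex.Gamma (Ψ (ρ t) (eA (eA.symm s))))⁻¹ = g (Ψ (ρ t) s)
      rw [Equiv.apply_symm_apply]
      rfl
    · change Complex.exp (Ψ (ρ t) (eB (eB.symm s))) = Complex.exp (Ψ (ρ t) s)
      rw [Equiv.apply_symm_apply]
  rw [hcomp, MvPolynomial.eval_map, ← MvPolynomial.aeval_def]
  exact hA (ρ t) htΩ

theorem main_ge2 (F : Type) [Field F] [Algebra F ℂ] [Countable F] (n m : ℕ)
    (A B : Finset (Fin n)) :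
    Thin m {x : Fin n → ℂ |
      Algebra.trdeg F (IntermediateField.adjoin F (Set.range x)) ≤ ((m + 1 : ℕ) : Cardinal) ∧
      (∀ i ∈ A, ¬ IsAlgebraic F (x i)) ∧
      IndAt A x ∧
      (∀ a : Fin n → ℤ, (∃ j ∈ B, a j ≠ 0) → ¬ IsAlgebraic F (∑ j ∈ B, (a j : ℂ) * x j)) ∧
      Algebra.trdeg F (IntermediateField.adjoin F
        (Set.range x ∪ ((fun i => Complex.Gamma (x i)) '' A ∪ (fun j => Complex.exp (x j)) '' B))) <
          ((A.card + B.card + (m + 1) : ℕ) : Cardinal)} := by
  classical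
  have hsub : {x : Fin n → ℂ |
      Algebra.trdeg F (IntermediateField.adjoin F (Set.range x)) ≤ ((m + 1 : ℕ) : Cardinal) ∧
      (∀ i ∈ A, ¬ IsAlgebraic F (x i)) ∧
      IndAt A x ∧
      (∀ a : Fin n → ℤ, (∃ j ∈ B, a j ≠ 0) → ¬ IsAlgebraic F (∑ j ∈ B, (a j : ℂ) * x j)) ∧
      Algebra.trdeg F (IntermediateField.adjoin F
        (Set.range x ∪ ((fun i => Complex.Gamma (x i)) '' A ∪ (fun j => Complex.exp (x j)) '' B))) <
          ((A.card + B.card + (m + 1) : ℕ) : Cardinal)} ⊆
      ⋃ I : Finset (Fin n), ⋃ P : Fin n → (MvPolynomial ↥I F)[X],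
        ((⋃ (_ : I.card ≤ m), S3 I P) ∪
          (⋃ Q : MvPolynomial (↥I ⊕ (↥A ⊕ ↥B)) F, ⋃ (_ : I.card = m + 1 ∧ Q ≠ 0),
            S6 I A B P Q)) := by
    rintro z ⟨htr1, hzA, hz, hzB, htr2⟩
    set K' := IntermediateField.adjoin F (Set.range z) with hK'
    set K := IntermediateField.adjoin F (Set.range z ∪
      ((fun i => Complex.Gamma (z i)) '' A ∪ (fun j => Complex.exp (z j)) '' B)) with hK
    have hzK' : ∀ i, z i ∈ K' := fun i => IntermediateField.subset_adjoin _ _ ⟨i, rfl⟩
    have hzK : ∀ i, z i ∈ K := fun i => IntermediateField.subset_adjoin _ _ (Or.inl ⟨i, rfl⟩)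
    have hGK : ∀ i ∈ A, Complex.Gamma (z i) ∈ K := fun i hi =>
      IntermediateField.subset_adjoin _ _ (Or.inr (Or.inl ⟨i, hi, rfl⟩))
    have hEK : ∀ i ∈ B, Complex.exp (z i) ∈ K := fun i hi =>
      IntermediateField.subset_adjoin _ _ (Or.inr (Or.inr ⟨i, hi, rfl⟩))
    obtain ⟨I, hI, hmax⟩ := Finset.exists_max_image
      (Finset.univ.filter (fun I : Finset (Fin n) => AlgebraicIndependent F (rs I z)))
      Finset.card ⟨∅, by
        rw [Finset.mem_filter]
        refine ⟨Finset.mem_univ _, ?_⟩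
        have : IsEmpty ↥(∅ : Finset (Fin n)) :=
          ⟨fun i => absurd i.2 (Finset.notMem_empty _)⟩
        exact algebraicIndependent_empty_type⟩
    rw [Finset.mem_filter] at hI
    have hPj : ∀ j, j ∉ I → ∃ P : (MvPolynomial ↥I F)[X], P ≠ 0 ∧ HH P (rs I z, z j) = 0 ∧
        HH (Polynomial.derivative P) (rs I z, z j) ≠ 0 := by
      intro j hj
      refine simple_rel hI.2 ?_
      intro h2
      have h3 := hmax (insert j I) (by
        rw [Finset.mem_filter]
        refine ⟨Finset.mem_univ _, ?_⟩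
        have h4 : rs (insert j I) z = (fun o : Option ↥I => o.elim (z j) (rs I z)) ∘
            (fun i : ↥(insert j I) => if h : (i : Fin n) = j then none else
              some ⟨i, (Finset.mem_insert.1 i.2).resolve_left h⟩) := by
          funext ⟨i, hi⟩
          by_cases h : i = j
          · subst h
            simp [rs]
          · simp [rs, h]
        rw [h4]
        refine h2.comp _ ?_
        rintro ⟨a, ha⟩ ⟨b, hb⟩ h
        by_cases h1 : a = j <;> by_cases h2 : b = j <;> simp_all)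
      rw [Finset.card_insert_of_notMem hj] at h3
      omega
    choose! P hP using hPj
    have hS3 : z ∈ S3 I P := fun j hj => hP j hj
    have hcard : I.card ≤ m + 1 := by
      have h1 := (indep_le K' (fun i : ↥I => hzK' i) hI.2).trans htr1
      rw [Fintype.card_coe] at h1
      exact_mod_cast h1
    refine mem_iUnion.2 ⟨I, mem_iUnion.2 ⟨P, ?_⟩⟩
    by_cases hIm : I.card ≤ m
    · exact Or.inl (mem_iUnion.2 ⟨hIm, hS3⟩)
    · right
      have hIc : I.card = m + 1 := by omega
      have hdep : ¬ AlgebraicIndependent F (gv2 I A B z) := by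
        intro h
        have h1 := indep_le K (x := gv2 I A B z) (by
          rintro (i | t | t)
          · exact hzK _
          · exact K.inv_mem (hGK _ t.2)
          · exact hEK _ t.2) h
        have h2 := h1.trans_lt htr2
        rw [Fintype.card_sum, Fintype.card_sum, Fintype.card_coe, Fintype.card_coe,
          Fintype.card_coe, hIc] at h2
        have h3 : m + 1 + (A.card + B.card) < A.card + B.card + (m + 1) := by exact_mod_cast h2
        omega
      obtain ⟨Q, hQ, hQ0⟩ := exists_rel hdep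
      exact mem_iUnion.2 ⟨Q, mem_iUnion.2 ⟨⟨hIc, hQ⟩, hS3, hzA, hz, hzB, hQ0⟩⟩
  refine Thin.mono ?_ hsub
  refine thin_union fun I => ?_
  have e1 : Countable (MvPolynomial ↥I F) := mvc _
  have e2 : Countable (MvPolynomial ↥I F)[X] := pc _
  refine thin_union fun P => ?_
  rw [union_eq_iUnion]
  refine thin_union fun b => ?_
  cases b
  · have e3 : Countable (MvPolynomial (↥I ⊕ (↥A ⊕ ↥B)) F) := mvc _
    refine thin_union fun Q => thin_union fun h => S6_thin h.1.le P h.2
  · exact thin_union fun hI => S3_thin I P hI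

end Pool.Agent.K9h73.EX
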