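import Pool.Agent.W175.GF.Final

set_option autoImplicit false

/-!
Copies of the lemmas of `W175.GF.Sg`, `Homog`, `Cross`, `Step`, `TG` which take the data of the
theorem (there with condition (H), here without it).
-/

namespace Pool.Agent.K9h73.EX

open Complex Filter Topology Pool.Agent.W175.GF

/-- data for the theorem -/
structure DT2 (m : ℕ) (r : ℝ) (ι : Type) [Fintype ι] (a : ι → ℂ) (h : ι → ℂ → ℂ) (K : ℝ) :
    Prop where
  hm : 1 ≤ m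
  hr : 0 < r
  hr1 : r < 1
  ha : ∀ i, a i ≠ 0
  hh : ∀ i, DifferentiableOn ℂ (h i) (U r)
  hK : ∀ i, ∀ s ∈ U r, ‖h i s‖ ≤ K * ‖s‖⁻¹ ^ (m - 1)

variable {m : ℕ} {r : ℝ} {ι : Type} [Fintype ι] {a : ι → ℂ} {h : ι → ℂ → ℂ} {K : ℝ}

/-- slow factor on a regular fan -/
lemma slow_reg (hR : S_REG) (D : DT2 m r ι a h K) {ζ : ℂ} (hζ : ‖ζ‖ = 1) (i : ι) {ψ₁ ψ₂ ρ : ℝ}
    (h1 : -(Real.pi / 2) < ψ₁) (h2 : ψ₂ < Real.pi / 2) (hρ : r⁻¹ ^ m ≤ ρ) (hρ1 : 1 ≤ ρ)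
    (hb : |arg (a i * ζ⁻¹ ^ m)| ≤ Real.pi / 2)
    (hψ : ∀ ψ ∈ Set.Ioo ψ₁ ψ₂, |arg (a i * ζ⁻¹ ^ m) + ψ| < Real.pi / 2) :
    SlowH ψ₁ ψ₂ ρ (fun τ => (Gamma (a i * (sg ζ m τ)⁻¹ ^ m + h i (sg ζ m τ)))⁻¹ *
      exp (mn (a i * ζ⁻¹ ^ m) τ)) := by
  have hρ0 : 0 ≤ ρ := by linarith
  have hζ0 : ζ ≠ 0 := by intro h; rw [h] at hζ; simp at hζ
  have hb0 : a i * ζ⁻¹ ^ m ≠ 0 := mul_ne_zero (D.ha i) (pow_ne_zero _ (inv_ne_zero hζ0))
  have hm' : (0 : ℝ) < m := by exact_mod_cast (by have := D.hm; omega : 0 < m)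
  have hθ0 : 0 ≤ ((m : ℝ) - 1) / m := by
    apply div_nonneg _ hm'.le
    have : (1 : ℝ) ≤ m := by exact_mod_cast D.hm
    linarith
  have hθ1 : ((m : ℝ) - 1) / m < 1 := by rw [div_lt_one hm']; linarith
  intro ψ hψ0
  have hψ' : |ψ| < Real.pi / 2 := abs_lt.2 ⟨by linarith [hψ0.1], by linarith [hψ0.2]⟩
  have hmem : ∀ τ ∈ Hp ψ ρ, sg ζ m τ ∈ U r := fun τ hτ =>
    sg_mem hζ D.hm D.hr (lt_of_le_of_lt hρ (Hp_norm hτ))
  have hslit : ∀ τ ∈ Hp ψ ρ, τ ∈ slitPlane := fun τ hτ => Hp_slit hψ' hρ0 hτ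
  have hsd : DifferentiableOn ℂ (sg ζ m) (Hp ψ ρ) := (sg_diff ζ m).mono hslit
  constructor
  · apply DifferentiableOn.mul
    · apply Complex.differentiable_one_div_Gamma.comp_differentiableOn
      apply DifferentiableOn.add
      · apply DifferentiableOn.const_mul
        apply DifferentiableOn.pow
        exact hsd.inv fun τ _ => sg_ne hζ m τ
      · exact (D.hh i).comp hsd hmem
    · exact ((mn_diff _).mono hslit).cexp
  · intro ε hε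
    obtain ⟨C, hC⟩ := hR (a i * ζ⁻¹ ^ m) ψ (((m : ℝ) - 1) / m) K hb0 hb hψ' (hψ ψ hψ0) hθ0 hθ1 ε hε
    refine ⟨C, fun τ hτ => ?_⟩
    have hτ0 := slitPlane_ne_zero (hslit τ hτ)
    have h3 := hC τ (Hp_anti hρ1 hτ) (h i (sg ζ m τ)) (by
      have := D.hK i _ (hmem τ hτ)
      rwa [lower_bd hζ D.hm hτ0] at this)
    simp only
    rw [sg_inv_pow D.hm hτ0, ← mul_assoc]
    exact h3

/-- passing from an arbitrary relation to a homogeneous one -/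
lemma homog (hS : S_SEP) (hR : S_REG) (D : DT2 m r ι a h K) {ζ : ℂ} (hζ : ‖ζ‖ = 1)
    (hdir : ∀ i, Dir (a i * ζ⁻¹ ^ m)) (N : Finset (ι → ℕ)) (c : (ι → ℕ) → ℂ → ℂ)
    (hc : ∀ k ∈ N, EP m r (c k))
    (hrel : ∀ s ∈ U r, ∑ k ∈ N, c k s * ∏ i, (Gamma (a i * s⁻¹ ^ m + h i s))⁻¹ ^ k i = 0)
    (k₀ : ι → ℕ) (hk₀ : k₀ ∈ N) (hne : ¬ ∀ s ∈ U r, c k₀ s = 0)
    (hall : ∀ c' : (ι → ℕ) → ℂ → ℂ, (∀ k ∈ N, EP m r (c' k)) →
      (∀ s ∈ U r, ∑ k ∈ N, c' k s * ∏ i, (Gamma (a i * s⁻¹ ^ m + h i s))⁻¹ ^ k i = 0) →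
      (∃ k ∈ N, ¬ ∀ s ∈ U r, c' k s = 0) → ∀ k ∈ N, ¬ ∀ s ∈ U r, c' k s = 0) :
    ∃ (p : ℂ × ℂ) (ω : (ι → ℕ) → ℂ) (R : (ι → ℕ) → ℂ → ℂ),
      (∀ k ∈ N, Slow m r (R k) ∧ (¬ ∀ s ∈ U r, R k s = 0) ∧
        p.1 = - ∑ i, k i * (a i * ζ⁻¹ ^ m) ∧
        p.2 = ω k * ζ⁻¹ ^ m - ∑ i, k i * kap (a i * ζ⁻¹ ^ m)) ∧
      ∀ s ∈ U r, ∑ k ∈ N, R k s * exp (ω k * s⁻¹ ^ m) *
        ∏ i, (Gamma (a i * s⁻¹ ^ m + h i s))⁻¹ ^ k i = 0 := by
  classical
  have hζ0 : ζ ≠ 0 := by intro h; rw [h] at hζ; simp at hζ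
  have hζm : ζ⁻¹ ^ m ≠ 0 := pow_ne_zero _ (inv_ne_zero hζ0)
  set b : ι → ℂ := fun i => a i * ζ⁻¹ ^ m with hb
  choose! W R hR1 hR2 using hc
  obtain ⟨δ, hδ, hδ2, hfan⟩ := exists_fan_neg b hdir
  set ρ : ℝ := max 1 (r⁻¹ ^ m) with hρ
  have hρ1 : 1 ≤ ρ := le_max_left _ _
  have hρ2 : r⁻¹ ^ m ≤ ρ := le_max_right _ _
  have hρ0 : 0 ≤ ρ := by linarith
  set P : Finset (Σ _ : ι → ℕ, ℂ) := N.sigma W with hP
  set lam : (Σ _ : ι → ℕ, ℂ) → ℂ × ℂ := fun x =>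
    (- ∑ i, x.1 i * b i, x.2 * ζ⁻¹ ^ m - ∑ i, x.1 i * kap (b i)) with hlam
  set SF : ι → ℂ → ℂ := fun i τ => (Gamma (a i * (sg ζ m τ)⁻¹ ^ m + h i (sg ζ m τ)))⁻¹ *
      exp (mn (b i) τ) with hSF
  have hSFs : ∀ i, SlowH (-δ) 0 ρ (SF i) := fun i =>
    slow_reg hR D hζ i (by linarith) (by positivity) hρ2 hρ1 (hdir i).arg_le (hfan i)
  set RR : (Σ _ : ι → ℕ, ℂ) → ℂ → ℂ := fun x τ => R x.1 x.2 (sg ζ m τ) * ∏ i, SF i τ ^ x.1 i
    with hRR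
  have hRRs : ∀ x ∈ P, SlowH (-δ) 0 ρ (RR x) := by
    intro x hx
    rw [hP, Finset.mem_sigma] at hx
    apply SlowH.mul
    · exact slowH_of_slow hζ D.hm D.hr (by linarith) (by positivity) hρ2 (hR1 x.1 hx.1 x.2 hx.2)
    · exact SlowH.prod _ _ fun i _ => (hSFs i).pow _
  -- the exponential factors
  have hfac : ∀ τ : ℂ, τ ≠ 0 → ∀ x : (Σ _ : ι → ℕ, ℂ),
      RR x τ * exp ((lam x).1 * (τ * log τ) + (lam x).2 * τ) =
      R x.1 x.2 (sg ζ m τ) * exp (x.2 * (sg ζ m τ)⁻¹ ^ m) *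
        ∏ i, (Gamma (a i * (sg ζ m τ)⁻¹ ^ m + h i (sg ζ m τ)))⁻¹ ^ x.1 i := by
    intro τ hτ x
    simp only [hRR, hSF, mul_pow, Finset.prod_mul_distrib]
    have h1 : ∏ i, exp (mn (b i) τ) ^ x.1 i = exp (∑ i, x.1 i * mn (b i) τ) := by
      rw [exp_sum]
      exact Finset.prod_congr rfl fun i _ => (exp_nat_mul _ _).symm
    rw [h1]
    have h2 : exp (∑ i, x.1 i * mn (b i) τ) * exp ((lam x).1 * (τ * log τ) + (lam x).2 * τ) =
        exp (x.2 * (sg ζ m τ)⁻¹ ^ m) := by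
      rw [← exp_add]
      congr 1
      rw [sg_inv_pow D.hm hτ]
      simp only [hlam, mn_eq, mul_add, Finset.sum_add_distrib]
      have e1 : ∑ i, (x.1 i : ℂ) * (b i * (τ * log τ)) = (∑ i, x.1 i * b i) * (τ * log τ) := by
        rw [Finset.sum_mul]; exact Finset.sum_congr rfl fun i _ => by ring
      have e2 : ∑ i, (x.1 i : ℂ) * (kap (b i) * τ) = (∑ i, x.1 i * kap (b i)) * τ := by
        rw [Finset.sum_mul]; exact Finset.sum_congr rfl fun i _ => by ring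
      rw [e1, e2]
      ring
    calc _ = R x.1 x.2 (sg ζ m τ) * (∏ i, (Gamma (a i * (sg ζ m τ)⁻¹ ^ m + h i (sg ζ m τ)))⁻¹ ^ x.1 i)
          * (exp (∑ i, x.1 i * mn (b i) τ) * exp ((lam x).1 * (τ * log τ) + (lam x).2 * τ)) := by
            ring
      _ = _ := by rw [h2]; ring
  have hslit : ∀ ψ ∈ Set.Ioo (-δ) 0, ∀ τ ∈ Hp ψ ρ, τ ≠ 0 ∧ sg ζ m τ ∈ U r := by
    intro ψ hψ τ hτ
    have hψ' : |ψ| < Real.pi / 2 := abs_lt.2 ⟨by linarith [hψ.1], by linarith [hψ.2, Real.pi_pos]⟩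
    exact ⟨slitPlane_ne_zero (Hp_slit hψ' hρ0 hτ),
      sg_mem hζ D.hm D.hr (lt_of_le_of_lt hρ2 (Hp_norm hτ))⟩
  have hzero : ∀ ψ ∈ Set.Ioo (-δ) 0, ∀ τ ∈ Hp ψ ρ,
      ∑ x ∈ P, RR x τ * exp ((lam x).1 * (τ * log τ) + (lam x).2 * τ) = 0 := by
    intro ψ hψ τ hτ
    obtain ⟨hτ0, hs⟩ := hslit ψ hψ τ hτ
    rw [← hrel _ hs]
    rw [hP, Finset.sum_sigma]
    refine Finset.sum_congr rfl fun k hk => ?_
    rw [hR2 k hk _ hs, Finset.sum_mul]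
    refine Finset.sum_congr rfl fun w _ => ?_
    rw [hfac τ hτ0]
  have hsep := sepm hS (ψ₁ := -δ) (ψ₂ := 0) (by linarith) (by linarith) (by positivity) hρ1 P lam RR
    hRRs hzero
  -- relation for each class on the punctured disc
  have hcls : ∀ p : ℂ × ℂ, ∀ s ∈ U r, ∑ k ∈ N, (∑ w ∈ W k with lam ⟨k, w⟩ = p,
      R k w s * exp (w * s⁻¹ ^ m)) * ∏ i, (Gamma (a i * s⁻¹ ^ m + h i s))⁻¹ ^ k i = 0 := by
    intro p
    have hδ3 : -(δ / 2) ∈ Set.Ioo (-δ) 0 := ⟨by linarith, by linarith⟩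
    have hψ' : |-(δ / 2)| < Real.pi / 2 := by rw [abs_neg, abs_of_pos (by linarith)]; linarith
    apply of_fan hζ D.hm D.hr hψ' hρ0 (ρ := ρ)
    · apply DifferentiableOn.fun_sum
      intro k hk
      apply DifferentiableOn.mul
      · apply DifferentiableOn.fun_sum
        intro w hw
        exact (EP.single (hR1 k hk w (Finset.mem_filter.1 hw).1) w).diff
      · apply DifferentiableOn.fun_finsetProd
        intro i _
        apply DifferentiableOn.pow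
        apply Complex.differentiable_one_div_Gamma.comp_differentiableOn
        apply DifferentiableOn.add
        · apply DifferentiableOn.const_mul
          apply DifferentiableOn.pow
          exact differentiableOn_id.inv fun s hs => U_ne hs
        · exact D.hh i
    · intro τ hτ
      obtain ⟨hτ0, hs⟩ := hslit _ hδ3 τ hτ
      have h1 := hsep p _ hδ3 τ hτ
      have h2 : (∑ x ∈ P with lam x = p, RR x τ) * exp (p.1 * (τ * log τ) + p.2 * τ) = 0 := by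
        rw [h1, zero_mul]
      rw [← h2, Finset.sum_mul, Finset.sum_filter, hP, Finset.sum_sigma]
      refine Finset.sum_congr rfl fun k hk => ?_
      rw [Finset.sum_mul, Finset.sum_filter]
      refine Finset.sum_congr rfl fun w _ => ?_
      by_cases hw : lam ⟨k, w⟩ = p
      · rw [if_pos hw, if_pos hw, ← hfac τ hτ0 ⟨k, w⟩, hw]
      · rw [if_neg hw, if_neg hw]
  -- choose a nonzero component of `c k₀`
  obtain ⟨w₀, hw₀, hRw₀⟩ : ∃ w ∈ W k₀, ¬ ∀ s ∈ U r, R k₀ w s = 0 := by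
    by_contra hcon
    push Not at hcon
    apply hne
    intro s hs
    rw [hR2 k₀ hk₀ s hs]
    apply Finset.sum_eq_zero
    intro w hw
    rw [hcon w hw s hs, zero_mul]
  set p := lam ⟨k₀, w₀⟩ with hp
  set c' : (ι → ℕ) → ℂ → ℂ := fun k s => ∑ w ∈ W k with lam ⟨k, w⟩ = p,
      R k w s * exp (w * s⁻¹ ^ m) with hc'
  have hc'EP : ∀ k ∈ N, EP m r (c' k) := by
    intro k hk
    apply EP.sum
    intro w hw
    exact EP.single (hR1 k hk w (Finset.mem_filter.1 hw).1) w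
  have huniq : ∀ k w w', lam ⟨k, w⟩ = p → lam ⟨k, w'⟩ = p → w = w' := by
    intro k w w' h1 h2
    have h3 := congrArg Prod.snd (h1.trans h2.symm)
    simp only [hlam] at h3
    have h4 : w * ζ⁻¹ ^ m = w' * ζ⁻¹ ^ m := by linear_combination h3
    exact mul_right_cancel₀ hζm h4
  have hc'single : ∀ k ∈ N, ∀ w ∈ W k, lam ⟨k, w⟩ = p → ∀ s, c' k s = R k w s * exp (w * s⁻¹ ^ m) := by
    intro k _ w hw hl s
    simp only [hc']
    rw [Finset.sum_eq_single w]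
    · intro w' hw' hne'
      exact absurd (huniq k w' w (Finset.mem_filter.1 hw').2 hl) hne'
    · intro hnot
      exact absurd (Finset.mem_filter.2 ⟨hw, hl⟩) hnot
  have hc'k₀ : ¬ ∀ s ∈ U r, c' k₀ s = 0 := by
    intro hz
    apply hRw₀
    intro s hs
    have h1 := hz s hs
    rw [hc'single k₀ hk₀ w₀ hw₀ rfl] at h1
    exact (mul_eq_zero.1 h1).resolve_right (exp_ne_zero _)
  have hnz := hall c' hc'EP (hcls p) ⟨k₀, hk₀, hc'k₀⟩
  have hex : ∀ k ∈ N, ∃ w ∈ W k, lam ⟨k, w⟩ = p := by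
    intro k hk
    by_contra hcon
    push Not at hcon
    apply hnz k hk
    intro s _
    simp only [hc']
    apply Finset.sum_eq_zero
    intro w hw
    exact absurd (Finset.mem_filter.1 hw).2 (hcon w (Finset.mem_filter.1 hw).1)
  choose! ω hω1 hω2 using hex
  refine ⟨p, ω, fun k => R k (ω k), ?_, ?_⟩
  · intro k hk
    refine ⟨hR1 k hk _ (hω1 k hk), ?_, ?_, ?_⟩
    · intro hz
      apply hnz k hk
      intro s hs
      have h1 : R k (ω k) s = 0 := hz s hs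
      rw [hc'single k hk _ (hω1 k hk) (hω2 k hk), h1, zero_mul]
    · rw [← hω2 k hk]
    · rw [← hω2 k hk]
  · intro s hs
    rw [← hcls p s hs]
    refine Finset.sum_congr rfl fun k hk => ?_
    have := hc'single k hk _ (hω1 k hk) (hω2 k hk) s
    simp only [hc'] at this
    rw [this]

/-- slow factor beyond the ray of poles -/
lemma slow_J (hJ : S_REGJ) (D : DT2 m r ι a h K) {ζ : ℂ} (hζ : ‖ζ‖ = 1) (i : ι) {β : ℝ}
    (hβ : 0 < β) (hb : a i * ζ⁻¹ ^ m = β * I) {ψ₁ ψ₂ : ℝ}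
    (h1 : 0 < ψ₁) (h12 : ψ₁ < ψ₂) (h2 : ψ₂ < Real.pi / 2) :
    ∃ ρ₀ : ℝ, 1 ≤ ρ₀ ∧ ∀ ρ, ρ₀ ≤ ρ → r⁻¹ ^ m ≤ ρ →
    SlowH ψ₁ ψ₂ ρ (fun τ => FJ (a i * (sg ζ m τ)⁻¹ ^ m + h i (sg ζ m τ)) *
      exp (mn (a i * ζ⁻¹ ^ m) τ)) ∧
    ∀ ψ ∈ Set.Ioo ψ₁ ψ₂, ∀ τ ∈ Hp ψ ρ, ∀ n : ℕ, a i * (sg ζ m τ)⁻¹ ^ m + h i (sg ζ m τ) ≠ n := by
  have hm' : (0 : ℝ) < m := by exact_mod_cast (by have := D.hm; omega : 0 < m)
  have hθ0 : 0 ≤ ((m : ℝ) - 1) / m := by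
    apply div_nonneg _ hm'.le
    have : (1 : ℝ) ≤ m := by exact_mod_cast D.hm
    linarith
  have hθ1 : ((m : ℝ) - 1) / m < 1 := by rw [div_lt_one hm']; linarith
  obtain ⟨ρ₀, hρ₀, hn, hbd⟩ := hJ β (((m : ℝ) - 1) / m) K ψ₁ ψ₂ hβ h1 h12 h2 hθ0 hθ1
  refine ⟨ρ₀, hρ₀, fun ρ hρ hρ2 => ?_⟩
  have hρ0 : 0 ≤ ρ := by linarith
  have hfacts : ∀ ψ ∈ Set.Ioo ψ₁ ψ₂, ∀ τ ∈ Hp ψ ρ, τ ∈ slitPlane ∧ sg ζ m τ ∈ U r ∧
      ‖h i (sg ζ m τ)‖ ≤ K * ‖τ‖ ^ (((m : ℝ) - 1) / m) := by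
    intro ψ hψ τ hτ
    have hψ' : |ψ| < Real.pi / 2 := abs_lt.2 ⟨by linarith [hψ.1], by linarith [hψ.2]⟩
    have h3 := Hp_slit hψ' hρ0 hτ
    have h4 := sg_mem hζ D.hm D.hr (lt_of_le_of_lt hρ2 (Hp_norm hτ))
    refine ⟨h3, h4, ?_⟩
    have := D.hK i _ h4
    rwa [lower_bd hζ D.hm (slitPlane_ne_zero h3)] at this
  have hn' : ∀ ψ ∈ Set.Ioo ψ₁ ψ₂, ∀ τ ∈ Hp ψ ρ, ∀ n : ℕ,
      a i * (sg ζ m τ)⁻¹ ^ m + h i (sg ζ m τ) ≠ n := by
    intro ψ hψ τ hτ n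
    obtain ⟨h3, h4, h5⟩ := hfacts ψ hψ τ hτ
    have := hn ψ ⟨hψ.1.le, hψ.2.le⟩ τ (Hp_anti hρ hτ) _ h5 n
    rwa [sg_inv_pow D.hm (slitPlane_ne_zero h3), ← mul_assoc, hb]
  refine ⟨?_, hn'⟩
  intro ψ hψ
  have hsd : DifferentiableOn ℂ (sg ζ m) (Hp ψ ρ) :=
    (sg_diff ζ m).mono fun τ hτ => (hfacts ψ hψ τ hτ).1
  have hzd : DifferentiableOn ℂ (fun τ => a i * (sg ζ m τ)⁻¹ ^ m + h i (sg ζ m τ)) (Hp ψ ρ) := by
    apply DifferentiableOn.add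
    · apply DifferentiableOn.const_mul
      apply DifferentiableOn.pow
      exact hsd.inv fun τ _ => sg_ne hζ m τ
    · exact (D.hh i).comp hsd fun τ hτ => (hfacts ψ hψ τ hτ).2.1
  constructor
  · apply DifferentiableOn.mul
    · unfold FJ
      apply DifferentiableOn.div_const
      apply DifferentiableOn.mul
      · apply DifferentiableOn.mul hzd
        intro τ hτ
        have h6 : DifferentiableAt ℂ Gamma (-(a i * (sg ζ m τ)⁻¹ ^ m + h i (sg ζ m τ))) := by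
          apply differentiableAt_Gamma
          intro n hn2
          exact hn' ψ hψ τ hτ n (neg_injective hn2)
        exact h6.comp_differentiableWithinAt τ (hzd.neg τ hτ)
      · exact (hzd.const_mul _).neg.cexp
    · exact ((mn_diff _).mono fun τ hτ => (hfacts ψ hψ τ hτ).1).cexp
  · intro ε hε
    obtain ⟨C, hC⟩ := hbd ε hε
    refine ⟨C, fun τ hτ => ?_⟩
    obtain ⟨h3, h4, h5⟩ := hfacts ψ hψ τ hτ
    have h6 := hC ψ ⟨hψ.1.le, hψ.2.le⟩ τ (Hp_anti hρ hτ) _ h5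
    simp only
    rw [sg_inv_pow D.hm (slitPlane_ne_zero h3), ← mul_assoc, hb]
    exact h6

/-- the relation after crossing -/
lemma cross (hS : S_SEP) (hR : S_REG) (hJ : S_REGJ) (D : DT2 m r ι a h K) {ζ : ℂ} (hζ : ‖ζ‖ = 1)
    (hdir : ∀ i, Dir (a i * ζ⁻¹ ^ m)) (N : Finset (ι → ℕ)) (p : ℂ × ℂ) (ω : (ι → ℕ) → ℂ)
    (R : (ι → ℕ) → ℂ → ℂ) (hRs : ∀ k ∈ N, Slow m r (R k))
    (hp1 : ∀ k ∈ N, p.1 = - ∑ i, k i * (a i * ζ⁻¹ ^ m))
    (hp2 : ∀ k ∈ N, p.2 = ω k * ζ⁻¹ ^ m - ∑ i, k i * kap (a i * ζ⁻¹ ^ m))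
    (hrel : ∀ s ∈ U r, ∑ k ∈ N, R k s * exp (ω k * s⁻¹ ^ m) *
        ∏ i, (Gamma (a i * s⁻¹ ^ m + h i s))⁻¹ ^ k i = 0)
    (J : Finset ι) (hJm : ∀ i, i ∈ J ↔ (a i * ζ⁻¹ ^ m).re = 0)
    (M : ℕ) (hM : ∀ k ∈ N, ∀ i, k i ≤ M) (k₀ : ι → ℕ) (u₁ u₂ : ℂ) :
    ∀ s ∈ U r, ∑ k ∈ N, (R k s *
      (gam J (fun i => (a i * ζ⁻¹ ^ m).im) h k u₁ s * gam J (fun i => (a i * ζ⁻¹ ^ m).im) h k₀ u₂ s -
       gam J (fun i => (a i * ζ⁻¹ ^ m).im) h k u₂ s * gam J (fun i => (a i * ζ⁻¹ ^ m).im) h k₀ u₁ s) *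
      exp (ω k * s⁻¹ ^ m) *
      ∏ i ∈ J, (1 - exp (2 * Real.pi * I * (a i * s⁻¹ ^ m + h i s))) ^ (M - k i)) *
        ∏ i, (Gamma (a i * s⁻¹ ^ m + h i s))⁻¹ ^ k i = 0 := by
  classical
  set b : ι → ℂ := fun i => a i * ζ⁻¹ ^ m with hb
  set β : ι → ℝ := fun i => (b i).im with hβ
  have hJb : ∀ i ∈ J, b i = β i * I := by
    intro i hi
    apply Complex.ext
    · simp only [hβ, mul_re, ofReal_re, I_re, mul_zero, ofReal_im, I_im, mul_one, sub_self]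
      exact (hJm i).1 hi
    · simp [hβ]
  have hJβ : ∀ i ∈ J, 0 < β i := by
    intro i hi
    rcases hdir i with h1 | h1
    · exact absurd ((hJm i).1 hi) (ne_of_gt h1)
    · exact h1.2
  obtain ⟨δ, hδ, hδ2, hfan⟩ := exists_fan_pos b hdir
  have hδ12 : δ / 2 < δ := by linarith
  -- a common ρ
  have hρJ : ∀ i, ∀ᶠ ρ in atTop, i ∈ J →
      (SlowH (δ / 2) δ ρ (fun τ => FJ (a i * (sg ζ m τ)⁻¹ ^ m + h i (sg ζ m τ)) *
        exp (mn (a i * ζ⁻¹ ^ m) τ)) ∧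
      ∀ ψ ∈ Set.Ioo (δ / 2) δ, ∀ τ ∈ Hp ψ ρ, ∀ n : ℕ,
        a i * (sg ζ m τ)⁻¹ ^ m + h i (sg ζ m τ) ≠ n) := by
    intro i
    by_cases hi : i ∈ J
    · obtain ⟨ρ₀, -, h2⟩ := slow_J hJ D hζ i (hJβ i hi) (hJb i hi) (by positivity : 0 < δ / 2)
        hδ12 hδ2
      filter_upwards [eventually_ge_atTop ρ₀, eventually_ge_atTop (r⁻¹ ^ m)] with ρ h3 h4 _
      exact h2 ρ h3 h4
    · exact Filter.Eventually.of_forall fun ρ h => absurd h hi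
  obtain ⟨ρ, hρJ', hρ1, hρ2⟩ := ((eventually_all.2 hρJ).and
    ((eventually_ge_atTop (1 : ℝ)).and (eventually_ge_atTop (r⁻¹ ^ m)))).exists
  have hρ0 : 0 ≤ ρ := by linarith
  set X : ι → ℂ → ℂ := fun i τ => if i ∈ J then FJ (a i * (sg ζ m τ)⁻¹ ^ m + h i (sg ζ m τ)) else
    (Gamma (a i * (sg ζ m τ)⁻¹ ^ m + h i (sg ζ m τ)))⁻¹ with hX
  have hXs : ∀ i, SlowH (δ / 2) δ ρ (fun τ => X i τ * exp (mn (b i) τ)) := by
    intro i
    by_cases hi : i ∈ J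
    · refine (hρJ' i hi).1.congr fun ψ hψ τ hτ => ?_
      simp only [hX, if_pos hi, hb]
    · have h1 : (b i).re ≠ 0 := fun h0 => hi ((hJm i).2 h0)
      refine (slow_reg hR D hζ i (by linarith [Real.pi_pos]) hδ2 hρ2 hρ1 (hdir i).arg_le
        (hfan i h1)).congr fun ψ hψ τ hτ => ?_
      simp only [hX, if_neg hi, hb]
  have hslit : ∀ ψ ∈ Set.Ioo (δ / 2) δ, ∀ τ ∈ Hp ψ ρ, τ ≠ 0 ∧ sg ζ m τ ∈ U r := by
    intro ψ hψ τ hτ
    have hψ' : |ψ| < Real.pi / 2 := abs_lt.2 ⟨by linarith [hψ.1, Real.pi_pos], by linarith [hψ.2]⟩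
    exact ⟨slitPlane_ne_zero (Hp_slit hψ' hρ0 hτ),
      sg_mem hζ D.hm D.hr (lt_of_le_of_lt hρ2 (Hp_norm hτ))⟩
  have hηs : ∀ i, SlowH (δ / 2) δ ρ (fun τ => exp (2 * Real.pi * I * h i (sg ζ m τ))) := by
    intro i
    have h1 : Slow m r (fun s => exp (2 * Real.pi * I * h i s)) := by
      apply Slow.exp_of_lower D.hm ((D.hh i).const_mul _) (‖(2 * Real.pi * I : ℂ)‖ * K)
      intro s hs
      have h3 := mul_le_mul_of_nonneg_left (D.hK i s hs) (norm_nonneg (2 * Real.pi * I : ℂ))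
      rw [norm_mul]
      linarith
    exact slowH_of_slow hζ D.hm D.hr (by linarith [Real.pi_pos]) hδ2 hρ2 h1
  -- the exponents
  have hexp : ∀ k ∈ N, ∀ τ : ℂ, τ ≠ 0 → (∏ i, exp (mn (b i) τ) ^ k i) *
      exp (p.1 * (τ * log τ) + p.2 * τ) = exp (ω k * (sg ζ m τ)⁻¹ ^ m) := by
    intro k hk τ hτ
    have h1 : ∏ i, exp (mn (b i) τ) ^ k i = exp (∑ i, k i * mn (b i) τ) := by
      rw [exp_sum]
      exact Finset.prod_congr rfl fun i _ => (exp_nat_mul _ _).symm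
    rw [h1, ← exp_add]
    congr 1
    rw [sg_inv_pow D.hm hτ, hp1 k hk, hp2 k hk]
    simp only [mn_eq, mul_add, Finset.sum_add_distrib]
    have e1 : ∑ i, (k i : ℂ) * (b i * (τ * log τ)) = (∑ i, k i * b i) * (τ * log τ) := by
      rw [Finset.sum_mul]; exact Finset.sum_congr rfl fun i _ => by ring
    have e2 : ∑ i, (k i : ℂ) * (kap (b i) * τ) = (∑ i, k i * kap (b i)) * τ := by
      rw [Finset.sum_mul]; exact Finset.sum_congr rfl fun i _ => by ring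
    rw [e1, e2]
    simp only [hb]
    ring
  -- product identities
  have hprod : ∀ ψ ∈ Set.Ioo (δ / 2) δ, ∀ τ ∈ Hp ψ ρ, ∀ k : ι → ℕ,
      (∏ i, X i τ ^ k i) * ∏ i ∈ J, (1 - exp (2 * Real.pi * I *
        (a i * (sg ζ m τ)⁻¹ ^ m + h i (sg ζ m τ)))) ^ k i =
      ∏ i, (Gamma (a i * (sg ζ m τ)⁻¹ ^ m + h i (sg ζ m τ)))⁻¹ ^ k i := by
    intro ψ hψ τ hτ k
    have h1 : ∀ f : ι → ℂ, ∏ i ∈ J, f i = ∏ i, if i ∈ J then f i else 1 := by
      intro f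
      rw [Finset.prod_ite_mem, Finset.univ_inter]
    rw [h1, ← Finset.prod_mul_distrib]
    refine Finset.prod_congr rfl fun i _ => ?_
    by_cases hi : i ∈ J
    · simp only [hX, if_pos hi]
      rw [FJ_id _ ((hρJ' i hi).2 ψ hψ τ hτ), ← mul_pow, mul_comm]
    · simp only [hX, if_neg hi, mul_one]
  -- the twisted relation
  set G : ℂ × ℂ → ℂ := fun y => ∑ k ∈ N, R k (sg ζ m y.2) *
    (∏ i, (X i y.2 * exp (mn (b i) y.2)) ^ k i) *
    ∏ i ∈ J, (1 + -exp (2 * Real.pi * I * h i (sg ζ m y.2)) * exp (-(2 * Real.pi * β i) * y.1)) ^ k i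
    with hG
  have hGT : Tw (δ / 2) δ ρ G := by
    apply Tw.sum
    intro k hk
    apply Tw.mul
    · exact Tw.of_slow (g := fun τ => R k (sg ζ m τ) * ∏ i, (X i τ * exp (mn (b i) τ)) ^ k i)
        ((slowH_of_slow hζ D.hm D.hr (by linarith [Real.pi_pos]) hδ2 hρ2 (hRs k hk)).mul
        (SlowH.prod _ _ fun i _ => (hXs i).pow _))
    · apply Tw.prod
      intro i _
      apply Tw.pow
      apply Tw.add
      · exact Tw.of_slow (g := fun _ => 1) (SlowH.const 1)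
      · exact Tw.single (g := fun τ => -exp (2 * Real.pi * I * h i (sg ζ m τ))) (hηs i).neg _
  have hGd : ∀ ψ ∈ Set.Ioo (δ / 2) δ, ∀ τ ∈ Hp ψ ρ, G (τ, τ) = 0 := by
    intro ψ hψ τ hτ
    obtain ⟨hτ0, hs⟩ := hslit ψ hψ τ hτ
    have hE : exp (p.1 * (τ * log τ) + p.2 * τ) ≠ 0 := exp_ne_zero _
    apply (mul_eq_zero.1 (?_ : G (τ, τ) * exp (p.1 * (τ * log τ) + p.2 * τ) = 0)).resolve_right hE
    rw [← hrel _ hs]
    simp only [hG]
    rw [Finset.sum_mul]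
    refine Finset.sum_congr rfl fun k hk => ?_
    have h1 : ∏ i ∈ J, (1 + -exp (2 * Real.pi * I * h i (sg ζ m τ)) *
        exp (-(2 * Real.pi * β i) * τ)) ^ k i = ∏ i ∈ J, (1 - exp (2 * Real.pi * I *
        (a i * (sg ζ m τ)⁻¹ ^ m + h i (sg ζ m τ)))) ^ k i := by
      refine Finset.prod_congr rfl fun i hi => ?_
      congr 1
      rw [neg_mul, ← sub_eq_add_neg, ← exp_add]
      congr 2
      rw [sg_inv_pow D.hm hτ0, ← mul_assoc (a i)]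
      have h2 : a i * ζ⁻¹ ^ m = β i * I := hJb i hi
      rw [h2]
      have hI2 : I * I = -1 := I_mul_I
      linear_combination (-(2 * Real.pi * β i * τ)) * hI2
    rw [h1]
    have h3 : ∏ i, (X i τ * exp (mn (b i) τ)) ^ k i = (∏ i, X i τ ^ k i) *
        ∏ i, exp (mn (b i) τ) ^ k i := by
      rw [← Finset.prod_mul_distrib]
      exact Finset.prod_congr rfl fun i _ => mul_pow _ _ _
    rw [h3, ← hprod ψ hψ τ hτ k, ← hexp k hk τ hτ0]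
    ring
  have hGu : ∀ u : ℂ, ∀ ψ ∈ Set.Ioo (δ / 2) δ, ∀ τ ∈ Hp ψ ρ, G (u, τ) = 0 := fun u =>
    hGT.twist hS (by linarith [Real.pi_pos]) hδ12 hδ2 hρ1 hGd u
  have hGg : ∀ (u τ : ℂ), G (u, τ) = ∑ k ∈ N, R k (sg ζ m τ) *
    (∏ i, (X i τ * exp (mn (b i) τ)) ^ k i) * gam J β h k u (sg ζ m τ) := by
    intro u τ
    simp only [hG, gam]
    refine Finset.sum_congr rfl fun k _ => ?_
    congr 1
    refine Finset.prod_congr rfl fun i _ => ?_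
    congr 1
    rw [neg_mul, ← sub_eq_add_neg, ← exp_add]
    congr 2
    ring
  -- conclusion on the fan
  have hψ₀ : (3 * δ / 4) ∈ Set.Ioo (δ / 2) δ := ⟨by linarith, by linarith⟩
  have hψ' : |3 * δ / 4| < Real.pi / 2 := by rw [abs_of_pos (by positivity)]; linarith
  have hEd : ∀ i, DifferentiableOn ℂ (fun s => a i * s⁻¹ ^ m + h i s) (U r) := by
    intro i
    apply DifferentiableOn.add
    · apply DifferentiableOn.const_mul
      apply DifferentiableOn.pow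
      exact differentiableOn_id.inv fun s hs => U_ne hs
    · exact D.hh i
  have hgd : ∀ k u, DifferentiableOn ℂ (gam J β h k u) (U r) := by
    intro k u
    unfold gam
    apply DifferentiableOn.fun_finsetProd
    intro i _
    apply DifferentiableOn.pow
    apply DifferentiableOn.const_sub
    apply DifferentiableOn.cexp
    apply DifferentiableOn.sub_const
    exact (D.hh i).const_mul _
  apply of_fan hζ D.hm D.hr hψ' hρ0 (ρ := ρ)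
  · apply DifferentiableOn.fun_sum
    intro k hk
    apply DifferentiableOn.mul
    · apply DifferentiableOn.mul
      · apply DifferentiableOn.mul
        · apply (hRs k hk).1.mul
          exact ((hgd k u₁).mul (hgd k₀ u₂)).sub ((hgd k u₂).mul (hgd k₀ u₁))
        · apply DifferentiableOn.cexp
          apply DifferentiableOn.const_mul
          apply DifferentiableOn.pow
          exact differentiableOn_id.inv fun s hs => U_ne hs
      · apply DifferentiableOn.fun_finsetProd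
        intro i _
        apply DifferentiableOn.pow
        apply DifferentiableOn.const_sub
        exact ((hEd i).const_mul _).cexp
    · apply DifferentiableOn.fun_finsetProd
      intro i _
      apply DifferentiableOn.pow
      exact Complex.differentiable_one_div_Gamma.comp_differentiableOn (hEd i)
  · intro τ hτ
    obtain ⟨hτ0, hs⟩ := hslit _ hψ₀ τ hτ
    have e1 := hGu u₁ _ hψ₀ τ hτ
    have e2 := hGu u₂ _ hψ₀ τ hτ
    rw [hGg] at e1 e2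
    have e3 : (∑ k ∈ N, R k (sg ζ m τ) * (∏ i, (X i τ * exp (mn (b i) τ)) ^ k i) *
        gam J β h k u₁ (sg ζ m τ)) * gam J β h k₀ u₂ (sg ζ m τ) -
        (∑ k ∈ N, R k (sg ζ m τ) * (∏ i, (X i τ * exp (mn (b i) τ)) ^ k i) *
        gam J β h k u₂ (sg ζ m τ)) * gam J β h k₀ u₁ (sg ζ m τ) = 0 := by
      rw [e1, e2]; ring
    have e4 : ((∑ k ∈ N, R k (sg ζ m τ) * (∏ i, (X i τ * exp (mn (b i) τ)) ^ k i) *
        gam J β h k u₁ (sg ζ m τ)) * gam J β h k₀ u₂ (sg ζ m τ) -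
        (∑ k ∈ N, R k (sg ζ m τ) * (∏ i, (X i τ * exp (mn (b i) τ)) ^ k i) *
        gam J β h k u₂ (sg ζ m τ)) * gam J β h k₀ u₁ (sg ζ m τ)) *
        (exp (p.1 * (τ * log τ) + p.2 * τ) * ∏ i ∈ J, (1 - exp (2 * Real.pi * I *
        (a i * (sg ζ m τ)⁻¹ ^ m + h i (sg ζ m τ)))) ^ M) = 0 := by rw [e3, zero_mul]
    rw [← e4, Finset.sum_mul, Finset.sum_mul, ← Finset.sum_sub_distrib, Finset.sum_mul]
    refine Finset.sum_congr rfl fun k hk => ?_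
    have h3 : ∏ i, (X i τ * exp (mn (b i) τ)) ^ k i = (∏ i, X i τ ^ k i) *
        ∏ i, exp (mn (b i) τ) ^ k i := by
      rw [← Finset.prod_mul_distrib]
      exact Finset.prod_congr rfl fun i _ => mul_pow _ _ _
    have h4 : ∏ i ∈ J, (1 - exp (2 * Real.pi * I *
        (a i * (sg ζ m τ)⁻¹ ^ m + h i (sg ζ m τ)))) ^ M =
        (∏ i ∈ J, (1 - exp (2 * Real.pi * I *
        (a i * (sg ζ m τ)⁻¹ ^ m + h i (sg ζ m τ)))) ^ (M - k i)) *
        ∏ i ∈ J, (1 - exp (2 * Real.pi * I *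
        (a i * (sg ζ m τ)⁻¹ ^ m + h i (sg ζ m τ)))) ^ k i := by
      rw [← Finset.prod_mul_distrib]
      refine Finset.prod_congr rfl fun i _ => ?_
      rw [← pow_add, Nat.sub_add_cancel (hM k hk i)]
    rw [h3, h4, ← hprod _ hψ₀ τ hτ k, ← hexp k hk τ hτ0]
    ring

lemma zd (D : DT2 m r ι a h K) (i : ι) :
    DifferentiableOn ℂ (fun s => a i * s⁻¹ ^ m + h i s) (U r) := by
  apply DifferentiableOn.add
  · apply DifferentiableOn.const_mul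
    apply DifferentiableOn.pow
    exact differentiableOn_id.inv fun s hs => U_ne hs
  · exact D.hh i

/-- near zero in the direction `ζ` the exponentials are small -/
lemma small_exp (D : DT2 m r ι a h K) {ζ : ℂ} (hζ : ‖ζ‖ = 1) (i : ι) {β : ℝ} (hβ : 0 < β)
    (hb : a i * ζ⁻¹ ^ m = β * I) : ∀ᶠ x : ℝ in 𝓝[>] (0 : ℝ), ζ * (x : ℂ) ∈ U r ∧
      ‖exp (2 * Real.pi * I * (a i * (ζ * (x : ℂ))⁻¹ ^ m + h i (ζ * x)))‖ < 1 := by
  have h1 : 0 < min r (β / (|K| + 1)) := lt_min D.hr (by positivity)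
  filter_upwards [Ioo_mem_nhdsGT h1] with x hx
  have hx0 : 0 < x := hx.1
  have hxr : x < r := hx.2.trans_le (min_le_left _ _)
  have hxb : x < β / (|K| + 1) := hx.2.trans_le (min_le_right _ _)
  have hn : ‖ζ * (x : ℂ)‖ = x := by
    rw [norm_mul, hζ, norm_real, Real.norm_eq_abs, abs_of_pos hx0, one_mul]
  have hmem : ζ * (x : ℂ) ∈ U r := ⟨by rw [hn]; exact hx0, by rw [hn]; exact hxr⟩
  refine ⟨hmem, ?_⟩
  rw [norm_exp, Real.exp_lt_one_iff]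
  have h2 := D.hK i _ hmem
  rw [hn] at h2
  have h3 : a i * (ζ * (x : ℂ))⁻¹ ^ m = ((β * x⁻¹ ^ m : ℝ) : ℂ) * I := by
    rw [mul_inv, mul_pow, ← mul_assoc, hb]
    push_cast
    ring
  rw [h3]
  have h4 : ∀ (y : ℝ) (w : ℂ), (2 * Real.pi * I * ((y : ℂ) * I + w)).re =
      2 * Real.pi * (-y - w.im) := by
    intro y w
    simp [mul_re, mul_im]
    ring
  rw [h4]
  have h5 : -(h i (ζ * x)).im ≤ |K| * x⁻¹ ^ (m - 1) := by
    have h6 := abs_im_le_norm (h i (ζ * x))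
    have h7 := neg_le_abs (h i (ζ * x)).im
    have h8 : K * x⁻¹ ^ (m - 1) ≤ |K| * x⁻¹ ^ (m - 1) :=
      mul_le_mul_of_nonneg_right (le_abs_self K) (by positivity)
    linarith
  have h6 : x⁻¹ ^ m = x⁻¹ * x⁻¹ ^ (m - 1) := by
    rw [← pow_succ']
    congr 1
    have := D.hm
    omega
  have h7 : |K| + 1 < β * x⁻¹ := by
    rw [lt_div_iff₀ (by positivity)] at hxb
    rw [← div_eq_mul_inv, lt_div_iff₀ hx0]
    linarith
  have h8 : 0 < x⁻¹ ^ (m - 1) := by positivity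
  have h9 : |K| * x⁻¹ ^ (m - 1) < β * x⁻¹ ^ m := by
    rw [h6]
    nlinarith
  have h10 : -(β * x⁻¹ ^ m) - (h i (ζ * x)).im < 0 := by linarith
  nlinarith [Real.pi_pos]

lemma gam_slow (D : DT2 m r ι a h K) (J : Finset ι) (β : ι → ℝ) (k : ι → ℕ) (u : ℂ) :
    Slow m r (gam J β h k u) := by
  unfold gam
  apply Slow.prod
  intro i _
  apply Slow.pow
  apply Slow.sub (Slow.const m r 1)
  have h1 : Slow m r (fun s => exp (2 * Real.pi * I * h i s)) := by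
    apply Slow.exp_of_lower D.hm ((D.hh i).const_mul _) (‖(2 * Real.pi * I : ℂ)‖ * K)
    intro s hs
    have h3 := mul_le_mul_of_nonneg_left (D.hK i s hs) (norm_nonneg (2 * Real.pi * I : ℂ))
    rw [norm_mul]
    linarith
  refine (h1.mul (Slow.const m r (exp (-(2 * Real.pi * β i * u))))).congr fun s _ => ?_
  rw [← exp_add]
  exact congrArg exp (by ring)

lemma not_exp_one (D : DT2 m r ι a h K) (i : ι) :
    ¬ ∀ s ∈ U r, exp (2 * Real.pi * I * (a i * s⁻¹ ^ m + h i s)) = 1 := by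
  intro hcon
  obtain ⟨ζ, hζ, hb⟩ := exists_zeta D.hm (D.ha i)
  obtain ⟨x, hx1, hx2⟩ := (small_exp D hζ i (norm_pos_iff.2 (D.ha i)) hb).exists
  rw [hcon _ hx1, norm_one] at hx2
  exact lt_irrefl _ hx2

lemma rf_EP (D : DT2 m r ι a h K) (i : ι) : EP m r (fun s => rf (a i * s⁻¹ ^ m + h i s)) := by
  have hr1 : r ≤ 1 := D.hr1.le
  have e1 : EP m r (fun s : ℂ => s⁻¹ ^ m) := by
    apply EP.of_slow
    apply Slow.of_poly D.hm (f := fun s : ℂ => s⁻¹ ^ m) _ m 1 _ hr1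
    · exact (differentiableOn_id.inv fun s hs => U_ne hs).pow _
    · intro s _
      rw [norm_pow, norm_inv, one_mul]
  have e2 : EP m r (h i) := EP.of_slow (Slow.of_poly D.hm (D.hh i) (m - 1) K (D.hK i) hr1)
  have e3 : EP m r (fun s => a i * s⁻¹ ^ m + h i s) := ((EP.const (a i)).mul e1).add e2
  have e4 := EP.exp_lower D.hm (a i) (D.hh i) K (D.hK i) (Real.pi * I)
  have e5 := EP.exp_lower D.hm (a i) (D.hh i) K (D.hK i) (-(Real.pi * I))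
  have e6 : EP m r (fun s => sin (Real.pi * (a i * s⁻¹ ^ m + h i s))) := by
    refine ((e5.sub e4).mul (EP.const (I / 2))).congr fun s _ => ?_
    rw [sin]
    have h1 : -(Real.pi * (a i * s⁻¹ ^ m + h i s)) * I =
        -(Real.pi * I) * (a i * s⁻¹ ^ m + h i s) := by ring
    have h2 : (Real.pi * (a i * s⁻¹ ^ m + h i s)) * I =
        Real.pi * I * (a i * s⁻¹ ^ m + h i s) := by ring
    rw [h1, h2]
    ring
  refine ((e3.neg.mul e6).mul (EP.const (Real.pi : ℂ)⁻¹)).congr fun s _ => ?_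
  unfold rf
  rw [div_eq_mul_inv]

lemma rf_ne (D : DT2 m r ι a h K) (i : ι) : ¬ ∀ s ∈ U r, rf (a i * s⁻¹ ^ m + h i s) = 0 := by
  intro hcon
  have hpi : (Real.pi : ℂ) ≠ 0 := by exact_mod_cast Real.pi_ne_zero
  apply not_exp_one D i
  intro s hs
  have h1 := hcon s hs
  unfold rf at h1
  rw [div_eq_zero_iff] at h1
  have h2 := h1.resolve_right hpi
  rcases mul_eq_zero.1 h2 with h3 | h3
  · rw [neg_eq_zero.1 h3, mul_zero, exp_zero]
  · rw [sin_eq_zero_iff] at h3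
    obtain ⟨n, hn⟩ := h3
    rw [exp_eq_one_iff]
    refine ⟨n, ?_⟩
    have : a i * s⁻¹ ^ m + h i s = n := by
      apply mul_left_cancel₀ hpi
      rw [hn]; ring
    rw [this]; ring


end Pool.Agent.K9h73.EX
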