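import Pool.Agent.K9h73.EX.T1
import Pool.Agent.K9h73.EX.T2

set_option autoImplicit false

/-!
Orders of zeros, and the step in a fixed direction (following `W688.GF.Last`, `W505.GF.Good`,
`W175.GF.Step`).
-/

namespace Pool.Agent.K9h73.EX

open Complex Filter Topology Pool.Agent.W175.GF Pool.Agent.W688.GF

lemma order_prod {J : Type} (S : Finset J) (f : J → ℂ → ℂ) (k : J → ℕ) (z : ℂ)
    (hf : ∀ i ∈ S, AnalyticAt ℂ (f i) z) (v : J → ℕ)
    (hv : ∀ i ∈ S, analyticOrderAt (f i) z = v i) :
    analyticOrderAt (fun u => ∏ i ∈ S, f i u ^ k i) z = (∑ i ∈ S, k i * v i : ℕ) := by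
  classical
  induction S using Finset.induction_on with
  | empty =>
    simp only [Finset.prod_empty, Finset.sum_empty, Nat.cast_zero]
    rw [analyticOrderAt_eq_zero]
    right
    exact one_ne_zero
  | insert i S hi ih =>
    have h1 := ih (fun j hj => hf j (Finset.mem_insert_of_mem hj))
      (fun j hj => hv j (Finset.mem_insert_of_mem hj))
    have e : (fun u => ∏ j ∈ insert i S, f j u ^ k j) =
        (fun u => f i u ^ k i) * (fun u => ∏ j ∈ S, f j u ^ k j) := by
      funext u
      rw [Finset.prod_insert hi]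
      rfl
    have h2 : AnalyticAt ℂ (fun u => ∏ j ∈ S, f j u ^ k j) z :=
      Finset.analyticAt_fun_prod S fun j hj => (hf j (Finset.mem_insert_of_mem hj)).pow _
    have h3 := hf i (Finset.mem_insert_self i S)
    have h3' : AnalyticAt ℂ (fun u => f i u ^ k i) z := h3.pow _
    rw [e, analyticOrderAt_mul h3' h2, h1]
    have h4 : analyticOrderAt (fun u => f i u ^ k i) z = k i • analyticOrderAt (f i) z :=
      analyticOrderAt_pow h3 (k i)
    rw [h4, hv i (Finset.mem_insert_self i S), Finset.sum_insert hi]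
    push_cast
    rw [nsmul_eq_mul]

/-- a good point -/
theorem good2 {J : Type} [Fintype J] {r : ℝ} (β : J → ℝ) (h : J → ℂ → ℂ) (j : J) (hr : 0 < r)
    (hh : ∀ i, DifferentiableOn ℂ (h i) (U r)) :
    ∃ s ∈ U r, ∀ i, ∀ p q : ℚ, β i = p * β j → h i s = p * h j s + q →
      ∀ s' ∈ U r, h i s' = p * h j s' + q := by
  classical
  by_contra hno
  push Not at hno
  have hsub : U r ⊆ ⋃ (i : J) (p : ℚ) (q : ℚ),
      {s | s ∈ U r ∧ (¬ ∀ s' ∈ U r, h i s' = p * h j s' + q) ∧ h i s - (p * h j s + q) = 0} := by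
    intro s hs
    obtain ⟨i, p, q, -, h2, s', hs', h3⟩ := hno s hs
    simp only [Set.mem_iUnion]
    refine ⟨i, p, q, hs, fun h4 => h3 (h4 s' hs'), ?_⟩
    rw [h2, sub_self]
  have hcount : (⋃ (i : J) (p : ℚ) (q : ℚ),
      {s | s ∈ U r ∧ (¬ ∀ s' ∈ U r, h i s' = p * h j s' + q) ∧
        h i s - (p * h j s + q) = 0}).Countable := by
    have := Finite.to_countable (α := J)
    refine Set.countable_iUnion fun i => Set.countable_iUnion fun p =>
      Set.countable_iUnion fun q => ?_
    by_cases hij : ¬ ∀ s' ∈ U r, h i s' = p * h j s' + q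
    · refine Set.Countable.mono (s₂ := {s | s ∈ U r ∧ h i s - (p * h j s + q) = 0})
        (fun s hs => ⟨hs.1, hs.2.2⟩)
        (Pool.Agent.W505.GF.countable_zeros (g := fun s => h i s - (p * h j s + q))
        (Pool.Agent.W505.GF.U_open r) (Pool.Agent.W505.GF.U_preconnected hr) ?_ ?_)
      · exact (hh i).sub (((hh j).const_mul _).add_const _)
      · intro hz
        exact hij fun s hs => sub_eq_zero.mp (hz s hs)
    · convert Set.countable_empty
      ext s
      simp only [Set.mem_empty_iff_false, iff_false]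
      exact fun hs => hij hs.2.1
  have hU : (U r).Countable := hcount.mono hsub
  have h1 : (U r).Nonempty := Pool.Agent.W505.GF.U_nonempty hr
  exact ((Pool.Agent.W505.GF.U_open r).measure_pos MeasureTheory.volume h1).ne' (hU.measure_zero _)

/-- the order of the zero of a product -/
theorem last2 {J : Type} [Fintype J] (β : J → ℝ) (η : J → ℂ) (j : J) (k k' : J → ℕ)
    (T : Finset J) (L : ℕ → ℤ) (hL : Function.Injective L) (hβ : ∀ i, 0 < β i)
    (hT : ∀ i ∈ T, ∀ n, fac (β i) (η i) (I * (η j - L n) / β j) = 0)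
    (hnT : ∀ i ∉ T, ∀ p q : ℚ, β i = p * β j → η i = p * η j + q →
      ∀ (n : ℕ) (x : ℤ), (p : ℚ) * L n + q ≠ x)
    (h : ∀ u : ℂ, ∏ i, (fac (β i) (η i) u) ^ k i = ∏ i, (fac (β i) (η i) u) ^ k' i) :
    ∑ i ∈ T, k i = ∑ i ∈ T, k' i := by
  classical
  have hβj : (β j : ℂ) ≠ 0 := by exact_mod_cast (hβ j).ne'
  have hgood : ∃ l : ℕ, ∀ i, i ∉ T → fac (β i) (η i) (I * (η j - L l) / β j) ≠ 0 := by
    by_contra hcon
    push Not at hcon
    choose f hf using hcon
    have hf1 := fun l => (hf l).1
    have hf2 := fun l => (fac_zero_iff _ _ _).1 (hf l).2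
    choose n hn using hf2
    obtain ⟨l1, l2, hne, heq⟩ := Finite.exists_ne_map_eq_of_infinite f
    have e1 := hn l1
    have e2 := hn l2
    rw [← heq] at e2
    set i := f l1 with hi
    have hI : I * I = -1 := I_mul_I
    have e1' : (η i - n l1) * β j = β i * (η j - L l1) := by
      rw [e1]; field_simp; linear_combination (-(β i : ℂ) * (η j - L l1)) * hI
    have e2' : (η i - n l2) * β j = β i * (η j - L l2) := by
      rw [e2]; field_simp; linear_combination (-(β i : ℂ) * (η j - L l2)) * hI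
    have hl : ((L l1 : ℂ) - L l2) ≠ 0 := by
      rw [sub_ne_zero]
      exact_mod_cast fun h => hne (hL h)
    have e3 : (β i : ℂ) * (L l1 - L l2) = (n l1 - n l2) * β j := by
      linear_combination e1' - e2'
    have hp : (β i : ℂ) = (((n l1 - n l2 : ℤ) : ℚ) / ((L l1 - L l2 : ℤ) : ℚ) : ℚ) * (β j : ℂ) := by
      push_cast
      field_simp
      linear_combination e3
    refine hnT i (hf1 l1) (((n l1 - n l2 : ℤ) : ℚ) / ((L l1 - L l2 : ℤ) : ℚ))
      (n l1 - (((n l1 - n l2 : ℤ) : ℚ) / ((L l1 - L l2 : ℤ) : ℚ)) * L l1) ?_ ?_ l1 (n l1) ?_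
    · exact_mod_cast hp
    · have e4 : η i * β j =
          ((((n l1 - n l2 : ℤ) : ℚ) / ((L l1 - L l2 : ℤ) : ℚ) : ℚ) * (η j - L l1) + n l1) * β j := by
        rw [hp] at e1'
        linear_combination e1'
      have e5 := mul_right_cancel₀ hβj e4
      rw [e5]
      push_cast
      ring
    · ring
  obtain ⟨l, hl⟩ := hgood
  set u0 : ℂ := I * (η j - L l) / β j with hu0
  have hpi : (Real.pi : ℂ) ≠ 0 := by exact_mod_cast Real.pi_ne_zero
  have han : ∀ i, AnalyticAt ℂ (fun u => fac (β i) (η i) u) u0 := by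
    intro i
    have : Differentiable ℂ (fun u => fac (β i) (η i) u) := by
      unfold fac
      fun_prop
    exact this.analyticAt _
  have hord : ∀ i, analyticOrderAt (fun u => fac (β i) (η i) u) u0 =
      ((if i ∈ T then 1 else 0 : ℕ) : ℕ∞) := by
    intro i
    by_cases hi : i ∈ T
    · rw [if_pos hi]
      have hz := hT i hi l
      have hd : HasDerivAt (fun u => fac (β i) (η i) u) (2 * Real.pi * β i) u0 := by
        unfold fac
        have h1 : HasDerivAt (fun u : ℂ => 2 * Real.pi * I * η i - 2 * Real.pi * β i * u)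
            (-(2 * Real.pi * β i)) u0 := by
          simpa using ((hasDerivAt_id u0).const_mul (2 * (Real.pi : ℂ) * β i)).const_sub
            (2 * Real.pi * I * η i)
        have h2 := (h1.cexp).const_sub 1
        have h3 : exp (2 * Real.pi * I * η i - 2 * Real.pi * β i * u0) = 1 := by
          have := hz; unfold fac at this; linear_combination -this
        rw [h3] at h2
        simpa using h2
      have hβi : (β i : ℂ) ≠ 0 := by exact_mod_cast (hβ i).ne'
      rw [(han i).analyticOrderAt_eq_one_of_zero_deriv_ne_zero hz (by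
        rw [hd.deriv]
        exact mul_ne_zero (mul_ne_zero two_ne_zero hpi) hβi)]
      simp
    · rw [if_neg hi]
      rw [analyticOrderAt_eq_zero.2 (Or.inr (hl i hi))]
      simp
  have h1 := order_prod Finset.univ (fun i u => fac (β i) (η i) u) k u0 (fun i _ => han i)
    (fun i => if i ∈ T then 1 else 0) (fun i _ => hord i)
  have h2 := order_prod Finset.univ (fun i u => fac (β i) (η i) u) k' u0 (fun i _ => han i)
    (fun i => if i ∈ T then 1 else 0) (fun i _ => hord i)
  have h3 : (fun u => ∏ i, fac (β i) (η i) u ^ k i) = fun u => ∏ i, fac (β i) (η i) u ^ k' i :=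
    funext h
  rw [h3, h2] at h1
  have h4 : ∑ i, k' i * (if i ∈ T then 1 else 0) = ∑ i, k i * (if i ∈ T then 1 else 0) := by
    exact_mod_cast h1
  have h5 : ∀ κ : J → ℕ, ∑ i, κ i * (if i ∈ T then 1 else 0) = ∑ i ∈ T, κ i := by
    intro κ
    rw [← Finset.sum_subset (Finset.subset_univ T)]
    · apply Finset.sum_congr rfl
      intro i hi
      rw [if_pos hi, mul_one]
    · intro i _ hi
      rw [if_neg hi, mul_zero]
  rw [h5, h5] at h4
  exact h4.symm

end Pool.Agent.K9h73.EX
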