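import Pool.Agent.K9h73.EX.T3

set_option autoImplicit false

/-!
The theorem for poles of the same order, for independent divisors (following `W175.GF.Step` and
`W175.GF.TG`).
-/

namespace Pool.Agent.K9h73.EX

open Complex Filter Topology Pool.Agent.W175.GF Pool.Agent.W688.GF

variable {m : ℕ} {r : ℝ} {ι : Type} [Fintype ι] {a : ι → ℂ} {h : ι → ℂ → ℂ} {K : ℝ}

/-- the leading coefficient of a relation -/
lemma lead (D : DT2 m r ι a h K) {i j : ι} {p : ℚ} {q : ℂ}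
    (hrel : ∀ s ∈ U r, a i * s⁻¹ ^ m + h i s = p * (a j * s⁻¹ ^ m + h j s) + q) :
    a i = p * a j := by
  by_contra hne
  have hd : 0 < ‖a i - p * a j‖ := norm_pos_iff.2 (sub_ne_zero.2 hne)
  set d := ‖a i - p * a j‖ with hdd
  set C : ℝ := ‖(p : ℂ)‖ * |K| + |K| + ‖q‖ with hC
  have hC0 : 0 ≤ C := by positivity
  set x : ℝ := min (r / 2) (d / (2 * (C + 1))) with hx
  have hr := D.hr
  have hx0 : 0 < x := lt_min (by linarith) (by positivity)
  have hxr : x < r := (min_le_left _ _).trans_lt (by linarith)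
  have hxd : x ≤ d / (2 * (C + 1)) := min_le_right _ _
  have hx1 : x < 1 := hxr.trans D.hr1
  have hn : ‖(x : ℂ)‖ = x := by rw [norm_real, Real.norm_eq_abs, abs_of_pos hx0]
  have hs : (x : ℂ) ∈ U r := ⟨by rw [hn]; exact hx0, by rw [hn]; exact hxr⟩
  have e1 := hrel _ hs
  have e2 := D.hK i _ hs
  have e3 := D.hK j _ hs
  rw [hn] at e2 e3
  have hy : 0 < x⁻¹ ^ (m - 1) := by positivity
  have hy1 : 1 ≤ x⁻¹ ^ (m - 1) := one_le_pow₀ (one_le_inv₀ hx0 |>.2 hx1.le)
  have e4 : (a i - p * a j) * (x : ℂ)⁻¹ ^ m = p * h j x - h i x + q := by linear_combination e1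
  have e5 : d * x⁻¹ ^ m ≤ C * x⁻¹ ^ (m - 1) := by
    calc d * x⁻¹ ^ m = ‖(a i - p * a j) * (x : ℂ)⁻¹ ^ m‖ := by
          rw [norm_mul, norm_pow, norm_inv, hn]
      _ = ‖p * h j x - h i x + q‖ := by rw [e4]
      _ ≤ ‖(p : ℂ)‖ * ‖h j x‖ + ‖h i x‖ + ‖q‖ := by
          refine (norm_add_le _ _).trans (add_le_add_left ?_ _)
          refine (norm_sub_le _ _).trans (add_le_add_left ?_ _)
          rw [norm_mul]
      _ ≤ ‖(p : ℂ)‖ * (|K| * x⁻¹ ^ (m - 1)) + |K| * x⁻¹ ^ (m - 1) + ‖q‖ * x⁻¹ ^ (m - 1) := by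
          have f1 : K * x⁻¹ ^ (m - 1) ≤ |K| * x⁻¹ ^ (m - 1) :=
            mul_le_mul_of_nonneg_right (le_abs_self K) hy.le
          have f2 : ‖q‖ ≤ ‖q‖ * x⁻¹ ^ (m - 1) := le_mul_of_one_le_right (norm_nonneg _) hy1
          have f3 := mul_le_mul_of_nonneg_left (e3.trans f1) (norm_nonneg (p : ℂ))
          linarith [e2.trans f1]
      _ = C * x⁻¹ ^ (m - 1) := by rw [hC]; ring
  have e6 : x⁻¹ ^ m = x⁻¹ * x⁻¹ ^ (m - 1) := by
    rw [← pow_succ']
    congr 1
    have := D.hm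
    omega
  rw [e6, ← mul_assoc] at e5
  have e7 : d * x⁻¹ ≤ C := le_of_mul_le_mul_right e5 hy
  have e8 : d ≤ C * x := by
    rw [← div_eq_mul_inv, div_le_iff₀ hx0] at e7
    exact e7
  have e9 : C * x ≤ d / 2 := by
    calc C * x ≤ (C + 1) * x := by nlinarith
      _ ≤ (C + 1) * (d / (2 * (C + 1))) := mul_le_mul_of_nonneg_left hxd (by linarith)
      _ = d / 2 := by field_simp
  linarith

lemma den_mul (p : ℚ) (D : ℕ) (h : p.den ∣ D) : ∃ y : ℤ, (p : ℚ) * D = y := by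
  obtain ⟨c, rfl⟩ := h
  refine ⟨p.num * c, ?_⟩
  push_cast
  rw [← mul_assoc, Rat.mul_den_eq_num]

/-- the step in a fixed direction -/
lemma dirstep (hS : S_SEP) (hR : S_REG) (hJ : S_REGJ)
    (D : DT2 m r ι a h K) {ζ : ℂ} (hζ : ‖ζ‖ = 1)
    (hdir : ∀ i, Dir (a i * ζ⁻¹ ^ m)) (N : Finset (ι → ℕ))
    (IH : ∀ N' : Finset (ι → ℕ), N'.card < N.card → LI m r a h N')
    (k₀ k₁ : ι → ℕ) (hk₀ : k₀ ∈ N) (hk₁ : k₁ ∈ N) (j : ι) (l : ℤ) (T : Finset ι)
    (hT : ∀ i, i ∈ T ↔ ∃ (k : ℤ) (p : ℚ), ∀ s ∈ U r,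
      (a i * s⁻¹ ^ m + h i s) - k = p * ((a j * s⁻¹ ^ m + h j s) - l))
    (hj : ∑ i ∈ T, k₀ i ≠ ∑ i ∈ T, k₁ i)
    (hre : (a j * ζ⁻¹ ^ m).re = 0) : LI m r a h N := by
  classical
  intro c hc hrel
  by_contra hcon
  push Not at hcon
  have hex : ∃ k ∈ N, ¬ ∀ s ∈ U r, c k s = 0 := by
    obtain ⟨k, hk, s, hs, hne⟩ := hcon
    exact ⟨k, hk, fun hz => hne (hz s hs)⟩
  have hall := fun c' hc' hrel' hex' => allnz (a := a) (h := h) (m := m) (r := r) (N := N) IH c' hc'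
    hrel' hex'
  obtain ⟨p, ω, R, hR1, hrel2⟩ := homog hS hR D hζ hdir N c hc hrel k₀ hk₀
    (hall c hc hrel hex k₀ hk₀) hall
  have hζ0 : ζ ≠ 0 := by intro h; rw [h] at hζ; simp at hζ
  have hζm : ζ⁻¹ ^ m ≠ 0 := pow_ne_zero _ (inv_ne_zero hζ0)
  set J : Finset ι := Finset.univ.filter fun i => (a i * ζ⁻¹ ^ m).re = 0 with hJd
  have hJm : ∀ i, i ∈ J ↔ (a i * ζ⁻¹ ^ m).re = 0 := by intro i; simp [hJd]
  set β : ι → ℝ := fun i => (a i * ζ⁻¹ ^ m).im with hβ
  have hJb : ∀ i ∈ J, a i * ζ⁻¹ ^ m = β i * I := by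
    intro i hi
    apply Complex.ext
    · simp only [hβ, mul_re (_ : ℂ) I, ofReal_re, I_re, mul_zero, ofReal_im, I_im, mul_one, sub_self]
      exact (hJm i).1 hi
    · rw [mul_im (_ : ℂ) I]
      simp only [hβ, ofReal_re, I_re, mul_zero, ofReal_im, I_im, mul_one, add_zero]
  have hJβ : ∀ i ∈ J, 0 < β i := by
    intro i hi
    rcases hdir i with h1 | h1
    · exact absurd ((hJm i).1 hi) (ne_of_gt h1)
    · exact h1.2
  have hjJ : j ∈ J := (hJm j).2 hre
  obtain ⟨M, hM⟩ : ∃ M : ℕ, ∀ k ∈ N, ∀ i, k i ≤ M := by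
    refine ⟨∑ k ∈ N, ∑ i, k i, fun k hk i => ?_⟩
    calc k i ≤ ∑ i, k i := Finset.single_le_sum (fun _ _ => Nat.zero_le _) (Finset.mem_univ i)
      _ ≤ ∑ k ∈ N, ∑ i, k i := Finset.single_le_sum (f := fun k : ι → ℕ => ∑ i, k i)
          (fun _ _ => Nat.zero_le _) hk
  have hk10 : k₁ ∈ N.erase k₀ := Finset.mem_erase.2 ⟨fun h1 => hj (by rw [h1]), hk₁⟩
  -- the bracket vanishes
  have hbr : ∀ u₁ u₂ : ℂ, ∀ s ∈ U r,
      gam J β h k₁ u₁ s * gam J β h k₀ u₂ s - gam J β h k₁ u₂ s * gam J β h k₀ u₁ s = 0 := by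
    intro u₁ u₂
    have h1 := cross hS hR hJ D hζ hdir N p ω R (fun k hk => (hR1 k hk).1)
      (fun k hk => (hR1 k hk).2.2.1) (fun k hk => (hR1 k hk).2.2.2) hrel2 J hJm M hM k₀ u₁ u₂
    set c'' : (ι → ℕ) → ℂ → ℂ := fun k s => R k s *
      (gam J β h k u₁ s * gam J β h k₀ u₂ s - gam J β h k u₂ s * gam J β h k₀ u₁ s) *
      exp (ω k * s⁻¹ ^ m) *
      ∏ i ∈ J, (1 - exp (2 * Real.pi * I * (a i * s⁻¹ ^ m + h i s))) ^ (M - k i) with hc''
    have h2 := IH (N.erase k₀) (Finset.card_erase_lt_of_mem hk₀) c'' (by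
      intro k hk
      have hkN := Finset.mem_of_mem_erase hk
      have e1 : EP m r (R k) := EP.of_slow (hR1 k hkN).1
      have e2 : EP m r (fun s => gam J β h k u₁ s * gam J β h k₀ u₂ s -
          gam J β h k u₂ s * gam J β h k₀ u₁ s) := EP.of_slow
        (((gam_slow D J β k u₁).mul (gam_slow D J β k₀ u₂)).sub
        ((gam_slow D J β k u₂).mul (gam_slow D J β k₀ u₁)))
      have e3 : EP m r (fun s => exp (ω k * s⁻¹ ^ m)) :=
        (EP.single (Slow.const m r 1) (ω k)).congr fun s _ => by rw [one_mul]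
      have e4 : EP m r (fun s => ∏ i ∈ J, (1 - exp (2 * Real.pi * I *
          (a i * s⁻¹ ^ m + h i s))) ^ (M - k i)) := by
        apply EP.prod
        intro i _
        apply EP.pow
        exact EP.sub (EP.const 1) (EP.exp_lower D.hm (a i) (D.hh i) K (D.hK i) _)
      exact ((e1.mul e2).mul e3).mul e4) (by
      intro s hs
      have h3 := h1 s hs
      rw [← Finset.add_sum_erase _ _ hk₀] at h3
      have h4 : gam J β h k₀ u₁ s * gam J β h k₀ u₂ s - gam J β h k₀ u₂ s * gam J β h k₀ u₁ s = 0 := by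
        ring
      rw [h4, mul_zero, zero_mul, zero_mul, zero_mul, zero_add] at h3
      exact h3) k₁ hk10
    have h3 : ∀ s ∈ U r, (R k₁ s * ∏ i ∈ J, (1 - exp (2 * Real.pi * I *
        (a i * s⁻¹ ^ m + h i s))) ^ (M - k₁ i)) *
        (gam J β h k₁ u₁ s * gam J β h k₀ u₂ s - gam J β h k₁ u₂ s * gam J β h k₀ u₁ s) = 0 := by
      intro s hs
      have h4 := h2 s hs
      simp only [hc''] at h4
      have h5 : exp (ω k₁ * s⁻¹ ^ m) ≠ 0 := exp_ne_zero _
      apply (mul_eq_zero.1 (?_ : _ * exp (ω k₁ * s⁻¹ ^ m) = 0)).resolve_right h5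
      rw [← h4]
      ring
    have hEd : ∀ i ∈ J, DifferentiableOn ℂ (fun s => 1 - exp (2 * Real.pi * I *
        (a i * s⁻¹ ^ m + h i s))) (U r) := fun i _ => (((zd D i).const_mul _).cexp).const_sub _
    have hPd : DifferentiableOn ℂ (fun s => ∏ i ∈ J, (1 - exp (2 * Real.pi * I *
        (a i * s⁻¹ ^ m + h i s))) ^ (M - k₁ i)) (U r) :=
      DifferentiableOn.fun_finsetProd fun i hi => (hEd i hi).pow _
    rcases mul_zero_U (((hR1 k₁ hk₁).1.1).mul hPd) (((gam_slow D J β k₁ u₁).mul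
      (gam_slow D J β k₀ u₂)).sub ((gam_slow D J β k₁ u₂).mul (gam_slow D J β k₀ u₁))).1 h3
      with h4 | h4
    · exfalso
      rcases mul_zero_U (hR1 k₁ hk₁).1.1 hPd h4 with h5 | h5
      · exact (hR1 k₁ hk₁).2.1 h5
      · obtain ⟨i, hi, h6⟩ := prod_zero_U J _ _ D.hr hEd h5
        obtain ⟨x, hx1, hx2⟩ := (small_exp D hζ i (hJβ i hi) (hJb i hi)).exists
        have h7 := h6 _ hx1
        have h8 : exp (2 * Real.pi * I * (a i * (ζ * (x : ℂ))⁻¹ ^ m + h i (ζ * x))) = 1 := by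
          linear_combination -h7
        rw [h8, norm_one] at hx2
        exact lt_irrefl _ hx2
    · exact h4
  -- let `u₂` tend to infinity
  have hgeq : ∀ u : ℂ, ∀ s ∈ U r, gam J β h k₁ u s = gam J β h k₀ u s := by
    intro u s hs
    have t1 : Tendsto (fun X : ℝ => gam J β h k₁ u s * gam J β h k₀ (X : ℂ) s -
        gam J β h k₁ (X : ℂ) s * gam J β h k₀ u s) atTop
        (𝓝 (gam J β h k₁ u s * 1 - 1 * gam J β h k₀ u s)) :=
      ((gam_tendsto J β hJβ h k₀ s).const_mul _).sub ((gam_tendsto J β hJβ h k₁ s).mul_const _)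
    have t2 : Tendsto (fun X : ℝ => gam J β h k₁ u s * gam J β h k₀ (X : ℂ) s -
        gam J β h k₁ (X : ℂ) s * gam J β h k₀ u s) atTop (𝓝 0) := by
      have : (fun X : ℝ => gam J β h k₁ u s * gam J β h k₀ (X : ℂ) s -
        gam J β h k₁ (X : ℂ) s * gam J β h k₀ u s) = fun _ => 0 := by
        funext X
        exact hbr u X s hs
      rw [this]
      exact tendsto_const_nhds
    have := tendsto_nhds_unique t1 t2
    linear_combination this
  -- a good point
  obtain ⟨s, hs, hgood⟩ := good2 (J := {i // i ∈ J}) (fun i => β i) (fun i => h i) ⟨j, hjJ⟩ D.hr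
    (fun i => D.hh i)
  -- relations between the functions of `J`
  have hab : ∀ i ∈ J, ∀ p' : ℚ, β i = p' * β j → a i = p' * a j := by
    intro i hi p' hp'
    apply mul_right_cancel₀ hζm
    rw [hJb i hi, mul_assoc, hJb j hjJ, hp']
    push_cast
    ring
  have hTJ : ∀ i ∈ T, i ∈ J := by
    intro i hi
    obtain ⟨k, p', h1⟩ := (hT i).1 hi
    have h2 : a i = p' * a j := lead D (q := k - p' * l) (fun s hs => by
      have := h1 s hs
      linear_combination this)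
    rw [hJm, h2, mul_assoc]
    have : ((p' : ℂ) * (a j * ζ⁻¹ ^ m)).re = p' * (a j * ζ⁻¹ ^ m).re := by
      rw [← Complex.ofReal_ratCast, Complex.re_ofReal_mul]
    rw [this, hre, mul_zero]
  have hcl : ∀ i, ∃ p' : ℚ, (∃ (p' : ℚ) (q : ℂ), ∀ s ∈ U r,
      a i * s⁻¹ ^ m + h i s = p' * (a j * s⁻¹ ^ m + h j s) + q) → a i = p' * a j := by
    intro i
    by_cases h1 : ∃ (p' : ℚ) (q : ℂ), ∀ s ∈ U r,
      a i * s⁻¹ ^ m + h i s = p' * (a j * s⁻¹ ^ m + h j s) + q
    · obtain ⟨p', q, h2⟩ := h1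
      exact ⟨p', fun _ => lead D h2⟩
    · exact ⟨0, fun h2 => absurd h2 h1⟩
  choose pp hpp using hcl
  have hpu : ∀ i (p' : ℚ) (q : ℂ), (∀ s ∈ U r,
      a i * s⁻¹ ^ m + h i s = p' * (a j * s⁻¹ ^ m + h j s) + q) → p' = pp i := by
    intro i p' q h1
    have h2 := hpp i ⟨p', q, h1⟩
    rw [lead D h1] at h2
    have h3 := mul_right_cancel₀ (D.ha j) h2
    exact_mod_cast h3
  set Dn : ℕ := ∏ i, (pp i).den with hDn
  have hDn0 : 0 < Dn := Finset.prod_pos fun i _ => (pp i).den_pos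
  have hDi : ∀ i, ∃ y : ℤ, (pp i) * Dn = y := fun i =>
    den_mul _ _ (Finset.dvd_prod_of_mem (fun i => (pp i).den) (Finset.mem_univ i))
  set Ls : ℕ → ℤ := fun n => l + n * Dn with hLs
  have hLi : Function.Injective Ls := by
    intro n1 n2 h1
    simp only [hLs] at h1
    have h2 : (n1 : ℤ) * Dn = n2 * Dn := by linarith
    have h3 : (Dn : ℤ) ≠ 0 := by exact_mod_cast hDn0.ne'
    exact_mod_cast mul_right_cancel₀ h3 h2
  have hfin := last2 (J := {i // i ∈ J}) (fun i => β i) (fun i => h i s) ⟨j, hjJ⟩ (fun i => k₀ i)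
    (fun i => k₁ i) (T.subtype (· ∈ J)) Ls hLi (fun i => hJβ i i.2) (by
      rintro ⟨i, hiJ⟩ hi n
      have hiT : i ∈ T := by
        rw [Finset.mem_subtype] at hi
        exact hi
      obtain ⟨k, p', h1⟩ := (hT i).1 hiT
      have h1' : ∀ s ∈ U r,
          a i * s⁻¹ ^ m + h i s = p' * (a j * s⁻¹ ^ m + h j s) + (k - p' * l : ℂ) := by
        intro s hs
        have := h1 s hs
        linear_combination this
      have h2 := lead D h1'
      have h3 := hpu i p' _ h1'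
      obtain ⟨y, hy⟩ := hDi i
      rw [← h3] at hy
      have hyc : (p' : ℂ) * Dn = y := by exact_mod_cast congrArg (fun x : ℚ => (x : ℂ)) hy
      have h4 : (β i : ℂ) = p' * β j := by
        have e1 := hJb i hiJ
        rw [h2, mul_assoc, hJb j hjJ] at e1
        apply mul_right_cancel₀ I_ne_zero
        rw [← e1]
        ring
      have hβj : (β j : ℂ) ≠ 0 := by exact_mod_cast (hJβ j hjJ).ne'
      have h5 := h1' s hs
      rw [fac_zero_iff]
      refine ⟨k + n * y, ?_⟩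
      have hI : I * I = -1 := I_mul_I
      simp only
      rw [h4]
      have h6 : -I * (p' * β j) * (I * (h j s - (Ls n : ℤ)) / β j) = p' * (h j s - (Ls n : ℤ)) := by
        field_simp
        linear_combination (-(p' : ℂ) * (h j s - (Ls n : ℤ))) * hI
      rw [h6]
      simp only [hLs]
      push_cast
      rw [h2] at h5
      linear_combination h5 + (n : ℂ) * hyc) (by
      rintro ⟨i, hiJ⟩ hi p' q h1 h2 n x hx
      apply hi
      rw [Finset.mem_subtype]
      simp only at h1 h2 ⊢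
      rw [hT]
      have h3 := hgood ⟨i, hiJ⟩ p' q h1 h2
      have h4 := hab i hiJ p' h1
      have h5 : ∀ s ∈ U r, a i * s⁻¹ ^ m + h i s = p' * (a j * s⁻¹ ^ m + h j s) + (q : ℂ) := by
        intro s hs
        have := h3 s hs
        simp only at this
        rw [this, h4]
        ring
      have h6 := hpu i p' _ h5
      obtain ⟨y, hy⟩ := hDi i
      rw [← h6] at hy
      refine ⟨x - n * y, p', fun s hs => ?_⟩
      rw [h5 s hs]
      have hxc : (p' : ℂ) * (l + n * Dn) + q = x := by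
        have := congrArg (fun x : ℚ => (x : ℂ)) hx
        simp only [hLs] at this
        push_cast at this
        exact this
      have hyc : (p' : ℂ) * Dn = y := by exact_mod_cast congrArg (fun x : ℚ => (x : ℂ)) hy
      push_cast
      linear_combination hxc - (n : ℂ) * hyc) (by
      intro u
      have h1 := hgeq u s hs
      unfold gam at h1
      rw [← Finset.prod_coe_sort J, ← Finset.prod_coe_sort J] at h1
      exact h1.symm)
  rw [Finset.sum_subtype_of_mem (fun i => k₀ i) hTJ, Finset.sum_subtype_of_mem (fun i => k₁ i) hTJ]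
    at hfin
  exact hj hfin

end Pool.Agent.K9h73.EX
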