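import Pool.Agent.K9h73.EX.T4

set_option autoImplicit false

/-!
The theorem for poles of the same order, for independent divisors (following `W175.GF.TG`).
-/

namespace Pool.Agent.K9h73.EX

open Complex Filter Topology Pool.Agent.W175.GF

variable {m : ℕ} {r : ℝ} {ι : Type} [Fintype ι] {a : ι → ℂ} {h : ι → ℂ → ℂ} {K : ℝ}

/-- change of signs -/
lemma DT2.signs (D : DT2 m r ι a h K) (ε : ι → ℤ) (hε : ∀ i, ε i = 1 ∨ ε i = -1) :
    DT2 m r ι (fun i => ε i * a i) (fun i s => ε i * h i s) K where
  hm := D.hm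
  hr := D.hr
  hr1 := D.hr1
  ha i := by
    rcases hε i with h1 | h1 <;> simp [h1, D.ha i]
  hh i := (D.hh i).const_mul _
  hK i s hs := by
    have := D.hK i s hs
    rcases hε i with h1 | h1 <;> simpa [h1] using this

/-- the functions are not constant -/
lemma DT2.irr (D : DT2 m r ι a h K) (i : ι) (q : ℚ) :
    ¬ ∀ s ∈ U r, a i * s⁻¹ ^ m + h i s = q := by
  intro h1
  have h2 := lead D (i := i) (j := i) (p := 0) (q := (q : ℂ)) (fun s hs => by
    rw [h1 s hs]
    push_cast
    ring)
  apply D.ha i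
  rw [h2]
  push_cast
  ring

theorem tg2 (m : ℕ) (r : ℝ) (ι : Type) [Fintype ι] (a : ι → ℂ) (h : ι → ℂ → ℂ) (K : ℝ)
    (D : DT2 m r ι a h K) (hI : Ind (U r) (fun i s => a i * s⁻¹ ^ m + h i s))
    (N : Finset (ι → ℕ)) : LI m r a h N := by
  classical
  induction hn : N.card using Nat.strong_induction_on generalizing a h N with
  | _ n IH =>
  have IH' : ∀ (a' : ι → ℂ) (h' : ι → ℂ → ℂ), DT2 m r ι a' h' K →
      Ind (U r) (fun i s => a' i * s⁻¹ ^ m + h' i s) → ∀ N' : Finset (ι → ℕ),
      N'.card < N.card → LI m r a' h' N' := by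
    intro a' h' D' hI' N' hN'
    exact IH N'.card (hn ▸ hN') a' h' D' hI' N' rfl
  by_cases hsub : ∀ k₀ ∈ N, ∀ k₁ ∈ N, k₀ = k₁
  · -- at most one exponent
    intro c hc hrel k hk
    have hNk : N = {k} := by
      ext k'
      rw [Finset.mem_singleton]
      exact ⟨fun h1 => hsub _ h1 _ hk, fun h1 => h1 ▸ hk⟩
    have h1 : ∀ s ∈ U r, c k s * ∏ i, (Gamma (a i * s⁻¹ ^ m + h i s))⁻¹ ^ k i = 0 := by
      intro s hs
      have := hrel s hs
      rwa [hNk, Finset.sum_singleton] at this
    have hqd : ∀ i ∈ (Finset.univ : Finset ι), DifferentiableOn ℂ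
        (fun s => (Gamma (a i * s⁻¹ ^ m + h i s))⁻¹) (U r) := fun i _ =>
      Complex.differentiable_one_div_Gamma.comp_differentiableOn (zd D i)
    rcases mul_zero_U (hc k hk).diff (DifferentiableOn.fun_finsetProd fun i hi => (hqd i hi).pow _)
      h1 with h2 | h2
    · exact h2
    · exfalso
      obtain ⟨i, -, h3⟩ := prod_zero_U Finset.univ _ _ D.hr hqd h2
      apply not_exp_one D i
      intro s hs
      have h4 := h3 s hs
      simp only [inv_eq_zero, Gamma_eq_zero_iff] at h4
      obtain ⟨n, hn⟩ := h4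
      rw [hn, exp_eq_one_iff]
      exact ⟨-(n : ℤ), by push_cast; ring⟩
  · push Not at hsub
    obtain ⟨k₀, hk₀, k₁, hk₁, hne⟩ := hsub
    obtain ⟨j, l, hj⟩ := hI (fun i => (k₁ i : ℤ) - k₀ i) (by
      intro h0
      apply hne
      funext i
      have := congrFun h0 i
      simp only [Pi.zero_apply] at this
      omega)
    obtain ⟨ζ, hζ, hb⟩ := exists_zeta D.hm (D.ha j)
    have hζ0 : ζ ≠ 0 := by intro h; rw [h] at hζ; simp at hζ
    have hζm : ζ⁻¹ ^ m ≠ 0 := pow_ne_zero _ (inv_ne_zero hζ0)
    -- signs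
    set ε : ι → ℤ := fun i => if Dir (a i * ζ⁻¹ ^ m) then 1 else -1 with hε
    have hε1 : ∀ i, ε i = 1 ∨ ε i = -1 := by
      intro i
      simp only [hε]
      split_ifs
      · exact Or.inl rfl
      · exact Or.inr rfl
    have hjdir : Dir (a j * ζ⁻¹ ^ m) := by
      right
      rw [hb]
      simpa using D.ha j
    have hjε : ε j = 1 := by simp only [hε, if_pos hjdir]
    have D' := D.signs ε hε1
    set a' : ι → ℂ := fun i => ε i * a i with ha'
    set h' : ι → ℂ → ℂ := fun i s => ε i * h i s with hh'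
    have hdir' : ∀ i, Dir (a' i * ζ⁻¹ ^ m) := by
      intro i
      simp only [ha']
      by_cases hd : Dir (a i * ζ⁻¹ ^ m)
      · simp only [hε, if_pos hd, Int.cast_one, one_mul]
        exact hd
      · have h0 : a i * ζ⁻¹ ^ m ≠ 0 := mul_ne_zero (D.ha i) hζm
        simp only [hε, if_neg hd]
        have e1 : ((-1 : ℤ) : ℂ) * a i * ζ⁻¹ ^ m = -(a i * ζ⁻¹ ^ m) := by push_cast; ring
        rw [e1]
        unfold Dir at hd ⊢
        rw [neg_re, neg_im]
        push Not at hd
        obtain ⟨hd1, hd2⟩ := hd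
        rcases lt_or_eq_of_le hd1 with h1 | h1
        · left; linarith
        · right
          refine ⟨by rw [h1, neg_zero], ?_⟩
          have h2 := hd2 h1
          rcases lt_or_eq_of_le h2 with h3 | h3
          · linarith
          · exact absurd (Complex.ext h1 h3) h0
    obtain ⟨M, hM⟩ : ∃ M : ℕ, ∀ k ∈ N, ∀ i, k i ≤ M := by
      refine ⟨∑ k ∈ N, ∑ i, k i, fun k hk i => ?_⟩
      calc k i ≤ ∑ i, k i := Finset.single_le_sum (fun _ _ => Nat.zero_le _) (Finset.mem_univ i)
        _ ≤ ∑ k ∈ N, ∑ i, k i := Finset.single_le_sum (f := fun k : ι → ℕ => ∑ i, k i)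
            (fun _ _ => Nat.zero_le _) hk
    set T : (ι → ℕ) → (ι → ℕ) := fun k i => if ε i = 1 then k i else M - k i with hT
    have hTinj : Set.InjOn T N := by
      intro k hk k' hk' heq
      funext i
      have h1 := congrFun heq i
      simp only [hT] at h1
      by_cases h2 : ε i = 1
      · simpa [h2] using h1
      · simp only [if_neg h2] at h1
        have := hM k hk i
        have := hM k' hk' i
        omega
    have hcard : (N.image T).card = N.card := Finset.card_image_of_injOn hTinj
    set g : ℂ → ℂ := fun s => a j * s⁻¹ ^ m + h j s - l with hg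
    set TT : Finset ι := Finset.univ.filter (fun i => ∃ (k : ℤ) (p : ℚ), ∀ s ∈ U r,
      a i * s⁻¹ ^ m + h i s - k = p * g s) with hTT
    have hTTm : ∀ i, i ∈ TT ↔ ∃ (k : ℤ) (p : ℚ), ∀ s ∈ U r,
        a i * s⁻¹ ^ m + h i s - k = p * g s := by
      intro i
      simp [hTT]
    have hval : ∀ i ∈ TT, DD (U r) (fun s => a i * s⁻¹ ^ m + h i s) g = ε i := by
      intro i hi
      obtain ⟨k, p, h1⟩ := (hTTm i).1 hi
      rw [DD_val (D.irr i) h1]
      have h2 : a i = p * a j := lead D (q := k - p * l) (fun s hs => by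
        have := h1 s hs
        simp only [hg] at this
        linear_combination this)
      have h3 : a i * ζ⁻¹ ^ m = ((p * ‖a j‖ : ℝ) : ℂ) * I := by
        rw [h2, mul_assoc, hb]
        push_cast
        ring
      have h4 : 0 < ‖a j‖ := norm_pos_iff.2 (D.ha j)
      have h5 : Dir (a i * ζ⁻¹ ^ m) ↔ 0 < p := by
        unfold Dir
        rw [h3]
        have e1 : (((p * ‖a j‖ : ℝ) : ℂ) * I).re = 0 := by simp
        have e2 : (((p * ‖a j‖ : ℝ) : ℂ) * I).im = p * ‖a j‖ := by
          rw [Complex.mul_im, Complex.ofReal_re, Complex.ofReal_im, Complex.I_re, Complex.I_im]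
          ring
        rw [e1, e2]
        constructor
        · rintro (h6 | h6)
          · exact absurd h6 (lt_irrefl _)
          · have := (pos_iff_pos_of_mul_pos h6.2).2 h4
            exact_mod_cast this
        · intro h6
          right
          refine ⟨rfl, mul_pos ?_ h4⟩
          exact_mod_cast h6
      unfold sgq
      simp only [hε, h5]
    have hsumT : ∑ i ∈ TT, T k₀ i ≠ ∑ i ∈ TT, T k₁ i := by
      intro heq
      apply hj
      have e1 : ∑ i, ((k₁ i : ℤ) - k₀ i) * DD (U r) (fun s => a i * s⁻¹ ^ m + h i s) g =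
          ∑ i ∈ TT, ((k₁ i : ℤ) - k₀ i) * ε i := by
        rw [← Finset.sum_subset (Finset.subset_univ TT)]
        · apply Finset.sum_congr rfl
          intro i hi
          rw [hval i hi]
        · intro i _ hi
          rw [DD_zero (fun h1 => hi ((hTTm i).2 h1)), mul_zero]
      rw [e1]
      have e2 : ∀ i, ((k₁ i : ℤ) - k₀ i) * ε i = (T k₁ i : ℤ) - T k₀ i := by
        intro i
        rcases hε1 i with h1 | h1
        · simp only [hT, h1, if_true]
          ring
        · have h2 : ¬ ε i = 1 := by rw [h1]; norm_num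
          simp only [hT, if_neg h2]
          have e3 := hM k₀ hk₀ i
          have e4 := hM k₁ hk₁ i
          rw [h1]
          push_cast [Nat.cast_sub e3, Nat.cast_sub e4]
          ring
      rw [Finset.sum_congr rfl (fun i _ => e2 i), Finset.sum_sub_distrib]
      have e3 : ((∑ i ∈ TT, T k₀ i : ℕ) : ℤ) = ((∑ i ∈ TT, T k₁ i : ℕ) : ℤ) := by rw [heq]
      push_cast at e3
      rw [e3, sub_self]
    have hI' : Ind (U r) (fun i s => a' i * s⁻¹ ^ m + h' i s) := by
      have h1 := hI.signs ε hε1
      have h2 : (fun i s => a' i * s⁻¹ ^ m + h' i s) =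
          fun i s => (ε i : ℂ) * (a i * s⁻¹ ^ m + h i s) := by
        funext i s
        simp only [ha', hh']
        ring
      rw [h2]
      exact h1
    have hLI' : LI m r a' h' (N.image T) := by
      apply dirstep sepF regF regjF D' hζ hdir' (N.image T) ?_ (T k₀) (T k₁)
        (Finset.mem_image_of_mem T hk₀) (Finset.mem_image_of_mem T hk₁) j l TT ?_ hsumT
      · simp only [ha', hjε, Int.cast_one, one_mul]
        rw [hb]
        simp
      · intro N' hN'
        rw [hcard] at hN'
        exact IH' a' h' D' hI' N' hN'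
      · intro i
        rw [hTTm]
        simp only [ha', hh', hjε, Int.cast_one, one_mul]
        constructor
        · rintro ⟨k, p, h1⟩
          refine ⟨ε i * k, ε i * p, fun s hs => ?_⟩
          have h2 := h1 s hs
          simp only [hg] at h2
          push_cast
          linear_combination (ε i : ℂ) * h2
        · rintro ⟨k, p, h1⟩
          refine ⟨ε i * k, ε i * p, fun s hs => ?_⟩
          have h2 := h1 s hs
          have h3 : (ε i : ℂ) * ε i = 1 := by
            rcases hε1 i with h1 | h1 <;> simp [h1]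
          simp only [hg]
          push_cast
          linear_combination (ε i : ℂ) * h2 - (a i * s⁻¹ ^ m + h i s) * h3
    -- transfer
    intro c hc hrel
    set neg : Finset ι := Finset.univ.filter fun i => ε i ≠ 1 with hneg
    set c' : (ι → ℕ) → ℂ → ℂ := fun k s => c k s * ∏ i ∈ neg, rf (a i * s⁻¹ ^ m + h i s) ^ k i
      with hc'
    have hc'EP : ∀ k ∈ N, EP m r (c' k) := fun k hk =>
      (hc k hk).mul (EP.prod _ _ fun i _ => (rf_EP D i).pow _)
    have hinv : ∀ k' ∈ N.image T, ∃ k ∈ N, T k = k' := fun k' hk' => Finset.mem_image.1 hk'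
    choose! inv hinv1 hinv2 using hinv
    have hinvT : ∀ k ∈ N, inv (T k) = k := by
      intro k hk
      have h1 := Finset.mem_image_of_mem T hk
      exact hTinj (hinv1 _ h1) hk (hinv2 _ h1)
    have key := hLI' (fun k' => c' (inv k')) (fun k' hk' => hc'EP _ (hinv1 k' hk')) (by
      intro s hs
      rw [Finset.sum_image hTinj]
      have h1 := hrel s hs
      have h2 : (∑ k ∈ N, c k s * ∏ i, (Gamma (a i * s⁻¹ ^ m + h i s))⁻¹ ^ k i) *
          ∏ i ∈ neg, (Gamma (-(a i * s⁻¹ ^ m + h i s)))⁻¹ ^ M = 0 := by rw [h1, zero_mul]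
      rw [← h2, Finset.sum_mul]
      refine Finset.sum_congr rfl fun k hk => ?_
      rw [hinvT k hk]
      simp only [hc']
      rw [mul_assoc, mul_assoc]
      congr 1
      have hni : ∀ f : ι → ℂ, ∏ i ∈ neg, f i = ∏ i, if ε i = 1 then 1 else f i := by
        intro f
        rw [hneg, Finset.prod_filter]
        refine Finset.prod_congr rfl fun i _ => ?_
        by_cases h3 : ε i = 1
        · simp [h3]
        · simp [h3]
      rw [hni, hni, ← Finset.prod_mul_distrib, ← Finset.prod_mul_distrib]
      refine Finset.prod_congr rfl fun i _ => ?_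
      by_cases h3 : ε i = 1
      · simp only [h3, if_true, one_mul, mul_one, ha', hh', hT, Int.cast_one]
      · have h4 : ε i = -1 := (hε1 i).resolve_left h3
        simp only [h3, if_false, ha', hh', hT]
        have e1 : (ε i : ℂ) * a i * s⁻¹ ^ m + ε i * h i s = -(a i * s⁻¹ ^ m + h i s) := by
          rw [h4]; push_cast; ring
        rw [e1]
        have e2 : rf (a i * s⁻¹ ^ m + h i s) = (Gamma (a i * s⁻¹ ^ m + h i s))⁻¹ *
            (Gamma (-(a i * s⁻¹ ^ m + h i s)))⁻¹ := (refl_id _).symm
        rw [e2, mul_pow, mul_assoc, ← pow_add, Nat.add_sub_cancel' (hM k hk i)])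
    intro k hk s
    have h1 := key (T k) (Finset.mem_image_of_mem T hk)
    simp only [hinvT k hk] at h1
    have hrd : ∀ i ∈ neg, DifferentiableOn ℂ (fun s => rf (a i * s⁻¹ ^ m + h i s)) (U r) :=
      fun i _ => (rf_EP D i).diff
    rcases mul_zero_U (hc k hk).diff (DifferentiableOn.fun_finsetProd fun i hi => (hrd i hi).pow _)
      h1 with h2 | h2
    · exact h2 s
    · exfalso
      obtain ⟨i, -, h3⟩ := prod_zero_U neg _ _ D.hr hrd h2
      exact rf_ne D i h3


end Pool.Agent.K9h73.EX
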